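import Pool.Agent.Lib.MP_488b8a_co_X.Tri
import Pool.Agent.Lib.MP_488b8a_co_N.Cert45

/-! # Project C9, stage 2, module Kq: the constant `0.696 < kp`; exactly 14 facets

The library of the first stage is repeated here for generic coverings with a cosine which may be
slightly smaller than `kp = cos r_9`. -/

set_option autoImplicit false

namespace Pool.Agent.C9Y

open Real Pool.Agent.C32 Pool.Agent.C9

/-- a rational number slightly smaller than `kp` -/
noncomputable def kq : ℝ := 87 / 125

theorem kq_lo : 0.69599 < kq := by norm_num [kq]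

theorem kq_hi : kq < 0.69601 := by norm_num [kq]

theorem kq_kp : kq < kp := by
  have := kp_lo
  norm_num [kq] at this ⊢
  linarith

/-- the sum of the angles of a facet -/
theorem ang_face_le {p q w : E3} (hp : ‖p‖ = 1) (hq : ‖q‖ = 1) (hw : ‖w‖ = 1) {c a b d : ℝ}
    (hc : kq ≤ c) (h : Par p q w c a b d) :
    ang p q w + ang q w p + ang w p q ≤ 4.15525 := by
  have h1 := par_rot h
  have h2 := par_rot h1
  rw [ang_par hp hq hw h, ang_par hq hw hp h1, ang_par hw hp hq h2]
  obtain ⟨hc0, hc1, ha, hb, hd, hs, -⟩ := h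
  have := T4a hc hc1.le ha.le hb.le hd.le hs
  norm_num at this ⊢
  linarith

/-- the ordered triples -/
private abbrev AreaT := Fin 9 × Fin 9 × Fin 9

private def area_rt : AreaT ≃ AreaT where
  toFun t := (t.2.1, t.2.2, t.1)
  invFun t := (t.2.2, t.1, t.2.1)
  left_inv _ := rfl
  right_inv _ := rfl

private def area_sw : AreaT ≃ AreaT where
  toFun t := (t.2.1, t.1, t.2.2)
  invFun t := (t.2.1, t.1, t.2.2)
  left_inv _ := rfl
  right_inv _ := rfl

private theorem area_rt_mem (p : Fin 9 → E3) (t : AreaT) :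
    t ∈ facets p ↔ area_rt t ∈ facets p := by
  rw [mem_facets, mem_facets]
  obtain ⟨i, j, k⟩ := t
  exact ⟨fun h => facet_perm2 h, fun h => facet_perm2 (facet_perm2 h)⟩

private theorem area_sw_mem (p : Fin 9 → E3) (t : AreaT) :
    t ∈ facets p ↔ area_sw t ∈ facets p := by
  rw [mem_facets, mem_facets]
  obtain ⟨i, j, k⟩ := t
  exact ⟨fun h => facet_perm1 h, fun h => facet_perm1 h⟩

private theorem area_rt_sum {M : Type*} [AddCommMonoid M] (p : Fin 9 → E3) (g : AreaT → M) :
    ∑ t ∈ facets p, g (area_rt t) = ∑ t ∈ facets p, g t :=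
  Finset.sum_equiv area_rt (area_rt_mem p) (fun _ _ => rfl)

private theorem area_sw_sum {M : Type*} [AddCommMonoid M] (p : Fin 9 → E3) (g : AreaT → M) :
    ∑ t ∈ facets p, g (area_sw t) = ∑ t ∈ facets p, g t :=
  Finset.sum_equiv area_sw (area_sw_mem p) (fun _ _ => rfl)

private theorem area_three (p : Fin 9 → E3) (g : AreaT → ℝ) :
    ∑ t ∈ facets p, (g t + g (area_rt t) + g (area_rt (area_rt t))) =
      3 * ∑ t ∈ facets p, g t := by
  rw [Finset.sum_add_distrib, Finset.sum_add_distrib, area_rt_sum p g,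
    area_rt_sum p (fun t => g (area_rt t)), area_rt_sum p g]
  ring

/-- increasing triples -/
private def area_inc (t : AreaT) : ℕ := if t.1 < t.2.1 ∧ t.2.1 < t.2.2 then 1 else 0

private theorem area_one (i j k : Fin 9) (h1 : i ≠ j) (h2 : j ≠ k) (h3 : i ≠ k) :
    area_inc (i, j, k) + area_inc (j, k, i) + area_inc (k, i, j) +
      (area_inc (j, i, k) + area_inc (k, j, i) + area_inc (i, k, j)) = 1 := by
  unfold area_inc
  rcases lt_or_gt_of_ne h1 with a | a <;> rcases lt_or_gt_of_ne h2 with b | b <;>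
    rcases lt_or_gt_of_ne h3 with c | c <;>
    simp only [a, b, c, a.not_gt, b.not_gt, c.not_gt, and_true, and_false, true_and, false_and,
      if_true, if_false] <;> first | rfl | (exfalso; omega)

private theorem area_six (p : Fin 9 → E3) : ∃ m : ℕ, (facets p).card = 6 * m := by
  refine ⟨∑ t ∈ facets p, area_inc t, ?_⟩
  have h1 : (facets p).card = ∑ t ∈ facets p, ((area_inc t + area_inc (area_rt t) +
      area_inc (area_rt (area_rt t))) + (area_inc (area_sw t) + area_inc (area_sw (area_rt t)) +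
      area_inc (area_sw (area_rt (area_rt t))))) := by
    rw [Finset.card_eq_sum_ones]
    refine Finset.sum_congr rfl fun t ht => ?_
    rw [mem_facets] at ht
    obtain ⟨i, j, k⟩ := t
    obtain ⟨n1, n2, n3⟩ := facet_ne ht
    exact (area_one i j k n1 n2 n3).symm
  have h2 : ∑ t ∈ facets p, area_inc (area_rt t) = ∑ t ∈ facets p, area_inc t :=
    area_rt_sum p area_inc
  have h3 : ∑ t ∈ facets p, area_inc (area_rt (area_rt t)) = ∑ t ∈ facets p, area_inc t := by
    rw [area_rt_sum p (fun t => area_inc (area_rt t)), h2]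
  have h4 : ∑ t ∈ facets p, area_inc (area_sw t) = ∑ t ∈ facets p, area_inc t :=
    area_sw_sum p area_inc
  have h5 : ∑ t ∈ facets p, area_inc (area_sw (area_rt t)) = ∑ t ∈ facets p, area_inc t := by
    rw [area_rt_sum p (fun t => area_inc (area_sw t)), h4]
  have h6 : ∑ t ∈ facets p, area_inc (area_sw (area_rt (area_rt t))) =
      ∑ t ∈ facets p, area_inc t := by
    rw [area_rt_sum p (fun t => area_inc (area_sw (area_rt t))), h5]
  rw [h1, Finset.sum_add_distrib, Finset.sum_add_distrib, Finset.sum_add_distrib,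
    Finset.sum_add_distrib, Finset.sum_add_distrib, h2, h3, h4, h5, h6]
  ring

/-- As in the first stage, with the bound `4.15525` for the sum of the angles of a facet. -/
theorem card_facets {p : Fin 9 → E3} {κ : ℝ} (hκ : kq ≤ κ) (hG : Gen p) (hC : Covers p κ) :
    (facets p).card = 84 := by
  have hκ0 : 0 < κ := by linarith [kq_lo]
  have hu := hG.1
  obtain ⟨m, hm⟩ := area_six p
  have hle := facets_card hG (by norm_num)
  have h1 : ∑ t ∈ facets p, ang (p t.1) (p t.2.1) (p t.2.2) =
      ∑ i, ∑ t ∈ (facets p).filter (fun t => t.1 = i), ang (p t.1) (p t.2.1) (p t.2.2) :=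
    (Finset.sum_fiberwise (facets p) (fun t => t.1) _).symm
  have h2 : 9 * (4 * π) ≤ ∑ t ∈ facets p, ang (p t.1) (p t.2.1) (p t.2.2) := by
    rw [h1]
    have h3 : ∑ _i : Fin 9, (4 * π) = 9 * (4 * π) := by
      rw [Finset.sum_const, Finset.card_univ, Fintype.card_fin, nsmul_eq_mul]
      norm_num
    rw [← h3]
    exact Finset.sum_le_sum fun i _ => angle_sum hκ0 hG hC i
  have h4 : 3 * ∑ t ∈ facets p, ang (p t.1) (p t.2.1) (p t.2.2) ≤
      (facets p).card * 4.15525 := by
    rw [← area_three p (fun t => ang (p t.1) (p t.2.1) (p t.2.2)), ← nsmul_eq_mul,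
      ← Finset.sum_const]
    refine Finset.sum_le_sum fun t ht => ?_
    rw [mem_facets] at ht
    obtain ⟨i, j, k⟩ := t
    obtain ⟨c, a, b, d, hc, hpar⟩ := facet_par hu hC ht
    exact ang_face_le (hu i) (hu j) (hu k) (hκ.trans hc) hpar
  have h7 := Real.pi_gt_d2
  have h8 : (81 : ℝ) < (facets p).card := by
    by_contra hn
    rw [not_lt] at hn
    have h9 : ((facets p).card : ℝ) * 4.15525 ≤ 81 * 4.15525 :=
      mul_le_mul_of_nonneg_right hn (by norm_num)
    norm_num at h7 h9 h2 h4
    linarith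
  have h10 : 81 < (facets p).card := by exact_mod_cast h8
  omega

theorem tri_facets {p : Fin 9 → E3} {κ : ℝ} (hκ : kq ≤ κ) (hG : Gen p) (hC : Covers p κ) :
    Tri (fun i j k => Facet p (i, j, k)) := by
  have hκ0 : 0 < κ := by linarith [kq_lo]
  refine ⟨fun i j k h => facet_perm1 h, fun i j k h => facet_perm2 h,
    fun i j k h => (facet_ne h).1, ?_, ?_, ?_, ?_⟩
  · intro i j k h
    obtain ⟨k', h1, h2, h3⟩ := edge_two hκ0 hG hC h
    refine ⟨k', ?_, h1, h3⟩
    rintro rfl
    nlinarith [mul_self_nonneg (dt (p i) (p j) (p k'))]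
  · intro i S j k hj hF hS
    exact link_conn hκ0 hG hC i S j k hj hF hS
  · intro T hT
    have h1 : T = facets p := by
      ext t
      rw [hT t, mem_facets]
    rw [h1]
    exact card_facets hκ hG hC
  · intro i
    obtain ⟨j, k, h1, -⟩ := sec_cover hκ0 hG hC i 0
    exact ⟨j, k, h1⟩

end Pool.Agent.C9Y
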