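import Pool.Agent.Lib.MP_488b8a_co_X.D3N
import Pool.Agent.Lib.MP_488b8a_co_Y.Kq
import Pool.Agent.Lib.MP_488b8a_co_N.EngC

/-! # Project C9, stage 2, module D3S: degree 3, the triangle of the three neighbours

`C` is the cosine of its circumradius, `a`, `b`, `d` the half gaps; its sides are at most `2 r_9`. -/

set_option autoImplicit false

namespace Pool.Agent.C9Y

open Real Pool.Agent.C32 Pool.Agent.C9

private theorem d3s_at {x y : ℝ} (hx : 0 ≤ x) (hy : 0 ≤ y) (hy1 : y ≤ 1.57)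
    (h : x * c12 y ≤ s11 y) : arctan x ≤ y := by
  have hp := Real.pi_gt_d6
  have hc : 0 < cos y := cos_pos_of_mem_Ioo ⟨by linarith, by linarith⟩
  have h1 : x ≤ tan y := by
    rw [tan_eq_sin_div_cos, le_div_iff₀ hc]
    calc x * cos y ≤ x * c12 y := mul_le_mul_of_nonneg_left (cos_le12 hy) hx
      _ ≤ s11 y := h
      _ ≤ sin y := sin_ge11 hy
  rw [← arctan_tan (by linarith : -(π / 2) < y) (by linarith)]
  exact arctan_strictMono.monotone h1

/-- tangent line of `ph c` at the point with cotangent `q` -/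
private theorem d3s_line {c q y₁ y₂ z : ℝ} (hc : 0 < c) (hc1 : c < 1) (hq : 0 < q)
    (h1 : arctan (1 / q) ≤ y₁) (h2 : arctan (q / c) ≤ y₂) (hz : 0 ≤ z) (hz' : z ≤ π / 2) :
    ph c z ≤ y₂ + c * (1 + q ^ 2) / (q ^ 2 + c ^ 2) * y₁ -
      c * (1 + q ^ 2) / (q ^ 2 + c ^ 2) * z := by
  set ζ := arctan (1 / q) with hζ
  have hζ0 : 0 < ζ := by
    rw [hζ, ← arctan_zero]
    exact arctan_strictMono (by positivity)
  have hζ1 : ζ < π / 2 := arctan_lt_pi_div_two _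
  have hp := pi_pos
  have ht : tan ζ = 1 / q := tan_arctan _
  have hs0 : 0 < sin ζ := sin_pos_of_pos_of_lt_pi hζ0 (by linarith)
  have hc0 : 0 < cos ζ := cos_pos_of_mem_Ioo ⟨by linarith, hζ1⟩
  have e1 : cos ζ = q * sin ζ := by
    rw [tan_eq_sin_div_cos, div_eq_div_iff hc0.ne' hq.ne'] at ht
    linarith
  have e2 : sin ζ ^ 2 * (1 + q ^ 2) = 1 := by
    have := sin_sq_add_cos_sq ζ
    rw [e1] at this
    linarith
  have e3 : ph c ζ = arctan (q / c) := by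
    rw [ph_eq hc hζ0 (by linarith), e1]
    congr 1
    field_simp
  have e4 : dph c ζ = c * (1 + q ^ 2) / (q ^ 2 + c ^ 2) := by
    have h5 : cos ζ ^ 2 + c ^ 2 * sin ζ ^ 2 = (q ^ 2 + c ^ 2) * sin ζ ^ 2 := by
      rw [e1]
      ring
    have h6 : sin ζ ^ 2 = 1 / (1 + q ^ 2) := by
      rw [eq_div_iff (by positivity)]
      exact e2
    unfold dph
    rw [h5, h6]
    field_simp
  have h := ph_tan hc hc1 hζ0 hζ1 hz hz'
  rw [e3, e4] at h
  have h7 : 0 ≤ c * (1 + q ^ 2) / (q ^ 2 + c ^ 2) := by positivity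
  nlinarith [mul_le_mul_of_nonneg_left h1 h7]

section lines

variable {z : ℝ} (hz : 0 ≤ z) (hz' : z ≤ π / 2)
include hz hz'

private theorem ln58 : ph 0.559 z ≤ 2.0074 - 1.1512 * z := by
  have h1 : arctan (1 / 0.58) ≤ 1.0453 := d3s_at (by norm_num) (by norm_num) (by norm_num)
    (by norm_num [c12, c10, c8, c6, c4, c2, s11, s9, s7, s5, s3])
  have h2 : arctan (0.58 / 0.559) ≤ 0.8039 := d3s_at (by norm_num) (by norm_num) (by norm_num)
    (by norm_num [c12, c10, c8, c6, c4, c2, s11, s9, s7, s5, s3])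
  have h := d3s_line (c := 0.559) (q := 0.58) (by norm_num) (by norm_num) (by norm_num) h1 h2
    hz hz'
  norm_num at h ⊢
  linarith

private theorem ln70 : ph 0.559 z ≤ 1.8936 - 1.0379 * z := by
  have h1 : arctan (1 / 0.7) ≤ 0.9601 := d3s_at (by norm_num) (by norm_num) (by norm_num)
    (by norm_num [c12, c10, c8, c6, c4, c2, s11, s9, s7, s5, s3])
  have h2 : arctan (0.7 / 0.559) ≤ 0.8970 := d3s_at (by norm_num) (by norm_num) (by norm_num)
    (by norm_num [c12, c10, c8, c6, c4, c2, s11, s9, s7, s5, s3])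
  have h := d3s_line (c := 0.559) (q := 0.7) (by norm_num) (by norm_num) (by norm_num) h1 h2
    hz hz'
  norm_num at h ⊢
  linarith

private theorem ln52 : ph 0.559 z ≤ 2.0790 - 1.2183 * z := by
  have h1 : arctan (1 / 0.52) ≤ 1.0913 := d3s_at (by norm_num) (by norm_num) (by norm_num)
    (by norm_num [c12, c10, c8, c6, c4, c2, s11, s9, s7, s5, s3])
  have h2 : arctan (0.52 / 0.559) ≤ 0.7493 := d3s_at (by norm_num) (by norm_num) (by norm_num)
    (by norm_num [c12, c10, c8, c6, c4, c2, s11, s9, s7, s5, s3])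
  have h := d3s_line (c := 0.559) (q := 0.52) (by norm_num) (by norm_num) (by norm_num) h1 h2
    hz hz'
  norm_num at h ⊢
  linarith

private theorem ln44 : ph 0.559 z ≤ 2.1914 - 1.3184 * z := by
  have h1 : arctan (1 / 0.44) ≤ 1.1563 := d3s_at (by norm_num) (by norm_num) (by norm_num)
    (by norm_num [c12, c10, c8, c6, c4, c2, s11, s9, s7, s5, s3])
  have h2 : arctan (0.44 / 0.559) ≤ 0.6669 := d3s_at (by norm_num) (by norm_num) (by norm_num)
    (by norm_num [c12, c10, c8, c6, c4, c2, s11, s9, s7, s5, s3])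
  have h := d3s_line (c := 0.559) (q := 0.44) (by norm_num) (by norm_num) (by norm_num) h1 h2
    hz hz'
  norm_num at h ⊢
  linarith

private theorem ln65 : ph 0.559 z ≤ 1.9366 - 1.0819 * z := by
  have h1 : arctan (1 / 0.65) ≤ 0.9945 := d3s_at (by norm_num) (by norm_num) (by norm_num)
    (by norm_num [c12, c10, c8, c6, c4, c2, s11, s9, s7, s5, s3])
  have h2 : arctan (0.65 / 0.559) ≤ 0.8606 := d3s_at (by norm_num) (by norm_num) (by norm_num)
    (by norm_num [c12, c10, c8, c6, c4, c2, s11, s9, s7, s5, s3])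
  have h := d3s_line (c := 0.559) (q := 0.65) (by norm_num) (by norm_num) (by norm_num) h1 h2
    hz hz'
  norm_num at h ⊢
  linarith

end lines

/-- the circumradius is not too large -/
private theorem d3s_C {C z : ℝ} (hC : 0 < C) (h1 : π / 3 ≤ z) (h2 : z ≤ π / 2)
    (h : (1 - C ^ 2) * sin z ^ 2 ≤ (1 - kq ^ 2)) : 0.559 ≤ C := by
  have hp := pi_pos
  have e1 : sin (π / 3) ≤ sin z := sin_le_sin_of_le_of_le_pi_div_two (by linarith) h2 h1
  rw [sin_pi_div_three] at e1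
  have e2 : 3 / 4 ≤ sin z ^ 2 := by
    have h3 : √3 ^ 2 = (3 : ℝ) := Real.sq_sqrt (by norm_num)
    have h4 : 0 ≤ √3 := Real.sqrt_nonneg 3
    nlinarith
  have e5 : 1 - kq ^ 2 ≤ 0.515585 := by norm_num [kq]
  by_contra hlt
  push Not at hlt
  have e6 : C ^ 2 ≤ 0.312481 := by nlinarith
  have e7 : 0.687519 * (3 / 4) ≤ (1 - C ^ 2) * sin z ^ 2 :=
    mul_le_mul (by linarith) e2 (by norm_num) (by linarith)
  norm_num at e7 e5
  linarith

/-- PROOF. Some half gap is at least `π/3`, so `(1 - C^2) 3/4 ≤ sn^2`, `C > 0.559`, `ph_mono_c`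
down to `0.559`, tangent lines. -/
theorem d3s_acute {C a b d : ℝ} (l₁ l₂ l₃ : Bool) (hC : 0 < C) (hC1 : C < 1) (ha : 0 ≤ a)
    (ha' : a ≤ π / 2) (hb : 0 ≤ b) (hb' : b ≤ π / 2) (hd : 0 ≤ d) (hd' : d ≤ π / 2)
    (hs : a + b + d = π) (sa : (1 - C ^ 2) * sin a ^ 2 ≤ (1 - kq ^ 2))
    (sb : (1 - C ^ 2) * sin b ^ 2 ≤ (1 - kq ^ 2)) (sd : (1 - C ^ 2) * sin d ^ 2 ≤ (1 - kq ^ 2)) :
    (Q3 l₁ + Q3 l₂) * ph C a + (Q3 l₂ + Q3 l₃) * ph C b + (Q3 l₃ + Q3 l₁) * ph C d ≤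
      G3 l₁ + G3 l₂ + G3 l₃ + 0.748 := by
  have _ := hC1
  have hp1 := Real.pi_gt_d6
  have hp2 := Real.pi_lt_d6
  have hC2 : 0.559 ≤ C := by
    rcases le_or_gt (π / 3) a with h | h
    · exact d3s_C hC h ha' sa
    rcases le_or_gt (π / 3) b with h' | h'
    · exact d3s_C hC h' hb' sb
    · exact d3s_C hC (by linarith) hd' sd
  have c0 : (0 : ℝ) < 0.559 := by norm_num
  have ma := ph_mono_c c0 hC2 ha ha'
  have mb := ph_mono_c c0 hC2 hb hb'
  have md := ph_mono_c c0 hC2 hd hd'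
  have a58 := ln58 ha ha'
  have b58 := ln58 hb hb'
  have d58 := ln58 hd hd'
  have a70 := ln70 ha ha'
  have b70 := ln70 hb hb'
  have d70 := ln70 hd hd'
  have a52 := ln52 ha ha'
  have b52 := ln52 hb hb'
  have d52 := ln52 hd hd'
  have a44 := ln44 ha ha'
  have b44 := ln44 hb hb'
  have d44 := ln44 hd hd'
  have a65 := ln65 ha ha'
  have b65 := ln65 hb hb'
  have d65 := ln65 hd hd'
  unfold Q3 G3
  cases l₁ <;> cases l₂ <;> cases l₃ <;>
    simp only [if_true, if_false, Bool.false_eq_true]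
  · linarith
  · linarith
  · linarith
  · linarith
  · linarith
  · linarith
  · linarith
  · linarith

private theorem d3s_X {C s k : ℝ} (hC : 0 < C) (hC1 : C < 1) (hk0 : 0 < k)
    (hsk : s ^ 2 + k ^ 2 = 1) (hcw0 : 0 ≤ k ^ 2 - s ^ 2)
    (hS : (1 - C ^ 2) * (2 * s * k) ^ 2 ≤ (1 - kq ^ 2)) :
    (s / k) ^ 2 - (C * (s / k)) ^ 2 ≤ 0.5156 := by
  have e5 : 1 - kq ^ 2 ≤ 0.5156 := by norm_num [kq]
  have e6 : (s / k) ^ 2 - (C * (s / k)) ^ 2 = (1 - C ^ 2) * s ^ 2 / k ^ 2 := by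
    field_simp
  have hk2 : 1 / 2 ≤ k ^ 2 := by linarith
  have hC2 : 0 ≤ 1 - C ^ 2 := by nlinarith
  rw [e6, div_le_iff₀ (by positivity)]
  have e8 : (1 : ℝ) ≤ 4 * k ^ 2 * k ^ 2 := by nlinarith
  have h0 : 0 ≤ (1 - C ^ 2) * s ^ 2 := by positivity
  calc (1 - C ^ 2) * s ^ 2 = (1 - C ^ 2) * s ^ 2 * 1 := by ring
    _ ≤ (1 - C ^ 2) * s ^ 2 * (4 * k ^ 2 * k ^ 2) := mul_le_mul_of_nonneg_left e8 h0
    _ = (1 - C ^ 2) * (2 * s * k) ^ 2 * k ^ 2 := by ring
    _ ≤ (1 - kq ^ 2) * k ^ 2 := mul_le_mul_of_nonneg_right hS (by positivity)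
    _ ≤ 0.5156 * k ^ 2 := mul_le_mul_of_nonneg_right e5 (by positivity)

private theorem d3s_I {m t : ℝ} (hm0 : 0 < m) (hX : t ^ 2 - m ^ 2 ≤ 0.5156) :
    10 / 3 * m * (t ^ 2 - m ^ 2) ≤ 4 * m ^ 2 + (1 - t ^ 2) * (1 - m ^ 2) := by
  have h8 : m * (t ^ 2 - m ^ 2) ≤ m * 0.5156 := mul_le_mul_of_nonneg_left hX hm0.le
  have h9 : 0 ≤ t ^ 2 * m ^ 2 := by positivity
  have h10 := sq_nonneg (m - 0.43)
  linarith

private theorem d3s_fin {m t p r : ℝ} (hm0 : 0 < m) (hm1 : 0 < 1 - m ^ 2)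
    (hp : p = 2 * m / (1 - m ^ 2)) (hr : r = (1 - t ^ 2) / (2 * m))
    (hX : t ^ 2 - m ^ 2 ≤ 0.5156) : 5 / 3 * (1 - p * r) ≤ p + r := by
  have hI := d3s_I hm0 hX
  have hfin : p + r - 5 / 3 * (1 - p * r) = (4 * m ^ 2 + (1 - t ^ 2) * (1 - m ^ 2) -
      10 / 3 * m * (t ^ 2 - m ^ 2)) / (2 * m * (1 - m ^ 2)) := by
    rw [hp, hr]
    field_simp
    ring
  have : 0 ≤ (4 * m ^ 2 + (1 - t ^ 2) * (1 - m ^ 2) -
      10 / 3 * m * (t ^ 2 - m ^ 2)) / (2 * m * (1 - m ^ 2)) :=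
    div_nonneg (by linarith) (by positivity)
  linarith

theorem d3s_arg {C w : ℝ} (hC : 0 < C) (hC1 : C < 1) (hw : 0 < w) (hw' : w ≤ π / 2)
    (hS : (1 - C ^ 2) * sin w ^ 2 ≤ (1 - kq ^ 2)) :
    2 * ph C (w / 2) - ph C w ≤ π / 2 + arctan 0.6 := by
  have hp := pi_pos
  set s := sin (w / 2) with hs
  set k := cos (w / 2) with hk
  have hs0 : 0 < s := sin_pos_of_pos_of_lt_pi (by linarith) (by linarith)
  have hk0 : 0 < k := cos_pos_of_mem_Ioo ⟨by linarith, by linarith⟩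
  have hsk : s ^ 2 + k ^ 2 = 1 := sin_sq_add_cos_sq _
  have ew : w = 2 * (w / 2) := by ring
  have hsw : sin w = 2 * s * k := by
    rw [ew, sin_two_mul]
  have hcw : cos w = k ^ 2 - s ^ 2 := by
    rw [ew, cos_two_mul]
    linarith
  have hcw0 : 0 ≤ k ^ 2 - s ^ 2 := by
    rw [← hcw]
    exact cos_nonneg_of_mem_Icc ⟨by linarith, hw'⟩
  have hCs : 0 < C * s := mul_pos hC hs0
  set m := C * s / k with hm
  have hm0 : 0 < m := by positivity
  have hsk' : s ≤ k := by nlinarith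
  have hm1 : m < 1 := by
    rw [hm, div_lt_one hk0]
    nlinarith
  have hx : ph C (w / 2) = π / 2 - arctan m := by
    rw [ph_eq hC (by linarith) (by linarith), ← hs, ← hk, ← arctan_inv_of_pos hm0, hm, inv_div]
  have hy : ph C w = arctan ((k ^ 2 - s ^ 2) / (C * (2 * s * k))) := by
    rw [ph_eq hC hw (by linarith), hsw, hcw]
  set r := (k ^ 2 - s ^ 2) / (C * (2 * s * k)) with hr
  have hr0 : 0 ≤ r := by positivity
  have h6 : arctan 0.6 = π / 2 - arctan (5 / 3) := by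
    rw [← arctan_inv_of_pos (by norm_num : (0 : ℝ) < 5 / 3)]
    norm_num
  have hmain : arctan (5 / 3) ≤ 2 * arctan m + arctan r := by
    have h2 : 2 * arctan m = arctan (2 * m / (1 - m ^ 2)) := by
      rw [two_mul, arctan_add (by nlinarith)]
      congr 1
      ring
    rw [h2]
    set p := 2 * m / (1 - m ^ 2) with hpd
    have h1m : 0 < 1 - m ^ 2 := by nlinarith
    have hp0 : 0 < p := by positivity
    rcases le_or_gt 1 (p * r) with h | h
    · -- sum at least π / 2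
      have h3 : 0 < r := by
        rcases hr0.lt_or_eq with h' | h'
        · exact h'
        · rw [← h'] at h; linarith [mul_zero p]
      have h4 : p⁻¹ ≤ r := by
        rw [inv_le_iff_one_le_mul₀ hp0]
        linarith [mul_comm r p]
      have h5 := arctan_strictMono.monotone h4
      rw [arctan_inv_of_pos hp0] at h5
      have := arctan_lt_pi_div_two (5 / 3)
      linarith
    · rw [arctan_add h]
      apply arctan_strictMono.monotone
      rw [le_div_iff₀ (by linarith)]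
      refine d3s_fin (t := s / k) hm0 h1m hpd ?_ ?_
      · rw [hr, hm]
        field_simp
      · have hmt : m = C * (s / k) := by
          rw [hm]
          ring
        rw [hsw] at hS
        rw [hmt]
        exact d3s_X hC hC1 hk0 hsk hcw0 hS
  rw [hx, hy, h6]
  linarith

theorem d3s_obt {C a b : ℝ} (l₁ l₂ l₃ : Bool) (hC : 0 < C) (hC1 : C < 1) (ha : 0 ≤ a) (hb : 0 ≤ b)
    (hab : a + b ≤ π / 2) (hS : (1 - C ^ 2) * sin (a + b) ^ 2 ≤ (1 - kq ^ 2)) :
    (Q3 l₁ + Q3 l₂) * ph C a + (Q3 l₂ + Q3 l₃) * ph C b - (Q3 l₃ + Q3 l₁) * ph C (a + b) ≤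
      G3 l₁ + G3 l₂ + G3 l₃ + 0.748 := by
  have hp1 := Real.pi_gt_d6
  have hp2 := Real.pi_lt_d6
  have ha' : a ≤ π := by linarith
  have hb' : b ≤ π := by linarith
  have an := (ph_anti hC).antitoneOn
  have m1 : ph C (a + b) ≤ ph C a := an ⟨ha, ha'⟩ ⟨by linarith, by linarith⟩ (by linarith)
  have m2 : ph C (a + b) ≤ ph C b := an ⟨hb, hb'⟩ ⟨by linarith, by linarith⟩ (by linarith)
  have n0 : 0 ≤ ph C (a + b) := ph_nonneg hC (by linarith) hab
  have u1 : ph C a ≤ π / 2 := by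
    rw [← ph_zero C]
    exact an ⟨le_rfl, by linarith⟩ ⟨ha, ha'⟩ ha
  have u2 : ph C b ≤ π / 2 := by
    rw [← ph_zero C]
    exact an ⟨le_rfl, by linarith⟩ ⟨hb, hb'⟩ hb
  have h6 : arctan 0.6 ≤ 0.5405 := d3s_at (by norm_num) (by norm_num) (by norm_num)
    (by norm_num [c12, c10, c8, c6, c4, c2, s11, s9, s7, s5, s3])
  have hsum : ph C a + ph C b - ph C (a + b) ≤ 2.1113 := by
    rcases (add_nonneg ha hb).lt_or_eq with h | h
    · have h1 := ph_mid hC hC1.le ha (by linarith : a ≤ π / 2) hb (by linarith)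
      have h2 := d3s_arg hC hC1 h hab hS
      linarith
    · have h1 : a = 0 := by linarith
      have h2 : b = 0 := by linarith
      rw [h1, h2, add_zero, ph_zero]
      linarith
  unfold Q3 G3
  cases l₁ <;> cases l₂ <;> cases l₃ <;>
    simp only [if_true, if_false, Bool.false_eq_true] <;> linarith

/-- PROOF. As `d3_face`. -/
theorem d3_special {C a b d : ℝ} (l₁ l₂ l₃ : Bool) (hC : 0 < C) (hC1 : C < 1) (ha : 0 ≤ a)
    (hb : 0 ≤ b) (hd : 0 ≤ d) (hs : a + b + d = π) (sa : (1 - C ^ 2) * sin a ^ 2 ≤ (1 - kq ^ 2))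
    (sb : (1 - C ^ 2) * sin b ^ 2 ≤ (1 - kq ^ 2)) (sd : (1 - C ^ 2) * sin d ^ 2 ≤ (1 - kq ^ 2)) :
    (Q3 l₁ + Q3 l₂) * ph C a + (Q3 l₂ + Q3 l₃) * ph C b + (Q3 l₃ + Q3 l₁) * ph C d ≤
      G3 l₁ + G3 l₂ + G3 l₃ + 0.748 := by
  have hp := pi_pos
  have red : ∀ {x y z : ℝ}, 0 ≤ x → 0 ≤ y → 0 ≤ z → x + y + z = π →
      ph C z = -ph C (x + y) ∧ sin z = sin (x + y) := by
    intro x y z hx hy hz hxyz
    have h : z = π - (x + y) := by linarith
    rw [h]
    exact ⟨ph_pi_sub hC (by linarith) (by linarith), sin_pi_sub _⟩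
  rcases le_or_gt a (π / 2) with ha' | ha'
  · rcases le_or_gt b (π / 2) with hb' | hb'
    · rcases le_or_gt d (π / 2) with hd' | hd'
      · exact d3s_acute l₁ l₂ l₃ hC hC1 ha ha' hb hb' hd hd' hs sa sb sd
      · obtain ⟨h1, h2⟩ := red ha hb hd hs
        rw [h2] at sd
        have := d3s_obt l₁ l₂ l₃ hC hC1 ha hb (by linarith) sd
        rw [h1]
        linarith
    · obtain ⟨h1, h2⟩ := red hd ha hb (by linarith)
      rw [h2] at sb
      have := d3s_obt l₃ l₁ l₂ hC hC1 hd ha (by linarith) sb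
      rw [h1]
      linarith
  · obtain ⟨h1, h2⟩ := red hb hd ha (by linarith)
    rw [h2] at sa
    have := d3s_obt l₂ l₃ l₁ hC hC1 hb hd (by linarith) sa
    rw [h1]
    linarith

end Pool.Agent.C9Y
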