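import Pool.Agent.Lib.MP_488b8a_co_Y.D3Gy
import Pool.Agent.Lib.MP_488b8a_co_N.CertD3
import Pool.Agent.Lib.MP_488b8a_co_Y.D3Sy

/-! # Project C9, stage 2, module Del3: there is no vertex of degree 3 (assembly) -/

set_option autoImplicit false

namespace Pool.Agent.C9Y

open Real Pool.Agent.C32 Pool.Agent.C9

/-- The four unordered triples of labels are the certificates `D3a`, `D3b`, `D3c`, `D3d`. -/
theorem d3_face {c a b d : ℝ} (l₁ l₂ l₃ : Bool) (hc : kq ≤ c) (hc1 : c < 1) (ha : 0 ≤ a)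
    (hb : 0 ≤ b) (hd : 0 ≤ d) (hs : a + b + d = π) :
    (Q3 l₁ + Q3 l₂) * ph c a + (Q3 l₂ + Q3 l₃) * ph c b + (Q3 l₃ + Q3 l₁) * ph c d ≤
      G3 l₁ + G3 l₂ + G3 l₃ := by
  have e1 : b + d + a = π := by linarith
  have e2 : d + a + b = π := by linarith
  have p0 := D3a hc hc1.le ha hb hd hs
  have q0 := D3b hc hc1.le ha hb hd hs
  have q1 := D3b hc hc1.le hb hd ha e1
  have q2 := D3b hc hc1.le hd ha hb e2
  have r0 := D3c hc hc1.le ha hb hd hs
  have r1 := D3c hc hc1.le hb hd ha e1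
  have r2 := D3c hc hc1.le hd ha hb e2
  have s0 := D3d hc hc1.le ha hb hd hs
  unfold Q3 G3
  cases l₁ <;> cases l₂ <;> cases l₃ <;>
    simp only [if_true, if_false, Bool.false_eq_true] <;> linarith

private theorem dl_ang {x y z : E3} (hx : ‖x‖ = 1) (hy : ‖y‖ = 1) (hz : ‖z‖ = 1)
    {c a b d : ℝ} (h : Par x y z c a b d) (q₁ q₂ q₃ : ℝ) :
    q₁ * ang x y z + q₂ * ang y z x + q₃ * ang z x y =
      (q₁ + q₂) * ph c a + (q₂ + q₃) * ph c b + (q₃ + q₁) * ph c d := by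
  have h1 := par_rot h
  have h2 := par_rot h1
  rw [ang_par hx hy hz h, ang_par hy hz hx h1, ang_par hz hx hy h2]
  ring

private theorem dl_face {p : Fin 9 → E3} {κ : ℝ} (hκ : kq ≤ κ) (hG : Gen p) (hC : Covers p κ)
    {i j k : Fin 9} (h : Facet p (i, j, k)) (l₁ l₂ l₃ : Bool) :
    Q3 l₁ * ang (p i) (p j) (p k) + Q3 l₂ * ang (p j) (p k) (p i) +
      Q3 l₃ * ang (p k) (p i) (p j) ≤ G3 l₁ + G3 l₂ + G3 l₃ := by
  obtain ⟨c, a, b, d, hκc, h0⟩ := facet_par hG.1 hC h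
  rw [dl_ang (hG.1 i) (hG.1 j) (hG.1 k) h0]
  obtain ⟨hc, hc1, ha, hb, hd, hs, -, -, -⟩ := h0
  exact d3_face l₁ l₂ l₃ (hκ.trans hκc) hc1 ha.le hb.le hd.le hs

private theorem dl_normal {x y z : E3} (hd : dt x y z ≠ 0) :
    ∃ N : E3, inner ℝ N x = 1 ∧ inner ℝ N y = 1 ∧ inner ℝ N z = 1 := by
  have e : ∀ u : E3, inner ℝ ((dt x y z)⁻¹ • (vx y z + vx z x + vx x y)) u =
      (dt x y z)⁻¹ * (dt u y z + dt u z x + dt u x y) := by
    intro u
    rw [real_inner_smul_left, real_inner_comm, inner_add_right, inner_add_right, inner_vx,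
      inner_vx, inner_vx]
  refine ⟨(dt x y z)⁻¹ • (vx y z + vx z x + vx x y), ?_, ?_, ?_⟩
  · rw [e, dt_self13, dt_self12, add_zero, add_zero, inv_mul_cancel₀ hd]
  · rw [e, dt_self13, dt_self12, add_zero, zero_add, dt_rot x y z, inv_mul_cancel₀ hd]
  · rw [e, dt_self13, dt_self12, add_zero, zero_add, ← dt_rot z x y, inv_mul_cancel₀ hd]

private theorem dl_special {x y z : E3} (hx : ‖x‖ = 1) (hy : ‖y‖ = 1) (hz : ‖z‖ = 1)
    (hd : dt x y z ≠ 0) (h1 : 2 * kq ^ 2 - 1 ≤ inner ℝ x y) (h2 : 2 * kq ^ 2 - 1 ≤ inner ℝ y z)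
    (h3 : 2 * kq ^ 2 - 1 ≤ inner ℝ z x) (l₁ l₂ l₃ : Bool) :
    Q3 l₁ * ang x y z + Q3 l₂ * ang y z x + Q3 l₃ * ang z x y ≤
      G3 l₁ + G3 l₂ + G3 l₃ + 0.748 := by
  obtain ⟨N, e1, e2, e3⟩ := dl_normal hd
  obtain ⟨a, b, d, hP⟩ := exists_par hx hy hz hd e1 e2 e3
  rw [dl_ang hx hy hz hP]
  obtain ⟨hc, hc1, ha, hb, hdd, hs, g1, g2, g3⟩ := hP
  have key : ∀ {t u : ℝ}, 2 * kq ^ 2 - 1 ≤ u → u = gram (1 / ‖N‖) t →
      (1 - (1 / ‖N‖) ^ 2) * sin t ^ 2 ≤ 1 - kq ^ 2 := by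
    intro t u h h'
    rw [h'] at h
    unfold gram at h
    linarith
  exact d3_special l₁ l₂ l₃ hc hc1 ha.le hb.le hdd.le hs (key h1 g1) (key h2 g2) (key h3 g3)

private theorem dl_even (p : Fin 9 → E3) (v i : Fin 9) :
    Even ((facets p).filter (fun t => t.1 = i ∧ t.2.1 ≠ v ∧ t.2.2 ≠ v)).card := by
  have hmem : ∀ t : Fin 9 × Fin 9 × Fin 9,
      t ∈ (facets p).filter (fun t => t.1 = i ∧ t.2.1 ≠ v ∧ t.2.2 ≠ v) →
      (t.1, t.2.2, t.2.1) ∈ (facets p).filter (fun t => t.1 = i ∧ t.2.1 ≠ v ∧ t.2.2 ≠ v) := by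
    rintro ⟨a, b, c⟩ h
    rw [Finset.mem_filter, mem_facets] at h ⊢
    exact ⟨facet_perm1 (facet_perm2 (facet_perm2 h.1)), h.2.1, h.2.2.2, h.2.2.1⟩
  have h1 : ∑ t ∈ (facets p).filter (fun t => t.1 = i ∧ t.2.1 ≠ v ∧ t.2.2 ≠ v),
      (1 : ZMod 2) = 0 := by
    refine Finset.sum_involution (fun t _ => (t.1, t.2.2, t.2.1)) (fun t _ => by decide)
      (fun t ht _ hEq => ?_) (fun t ht => hmem t ht) (fun t _ => rfl)
    obtain ⟨a, b, c⟩ := t
    rw [Finset.mem_filter, mem_facets] at ht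
    have h2 := (facet_ne ht.1).2.1
    simp only [Prod.mk.injEq] at hEq
    exact h2 hEq.2.2
  rw [Finset.sum_const, nsmul_eq_mul, mul_one] at h1
  exact (ZMod.natCast_eq_zero_iff_even).1 h1

private theorem dl_rot {p : Fin 9 → E3} (v : Fin 9) (f : Fin 9 × Fin 9 × Fin 9 → ℝ) :
    ∑ t ∈ (facets p).filter (fun t => t.1 ≠ v ∧ t.2.1 ≠ v ∧ t.2.2 ≠ v),
      f (t.2.1, t.2.2, t.1) =
    ∑ t ∈ (facets p).filter (fun t => t.1 ≠ v ∧ t.2.1 ≠ v ∧ t.2.2 ≠ v), f t := by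
  refine Finset.sum_nbij' (fun t => (t.2.1, t.2.2, t.1)) (fun t => (t.2.2, t.1, t.2.1))
    ?_ ?_ ?_ ?_ ?_
  · rintro ⟨i, j, k⟩ h
    rw [Finset.mem_filter, mem_facets] at h ⊢
    exact ⟨facet_perm2 h.1, h.2.2.1, h.2.2.2, h.2.1⟩
  · rintro ⟨i, j, k⟩ h
    rw [Finset.mem_filter, mem_facets] at h ⊢
    exact ⟨facet_perm2 (facet_perm2 h.1), h.2.2.2, h.2.1, h.2.2.1⟩
  · intro t _
    rfl
  · intro t _
    rfl
  · intro t _
    rfl

private theorem dl_fib {p : Fin 9 → E3} (v : Fin 9) (f : Fin 9 × Fin 9 × Fin 9 → ℝ) :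
    ∑ i ∈ Finset.univ.erase v,
      ∑ t ∈ (facets p).filter (fun t => t.1 = i ∧ t.2.1 ≠ v ∧ t.2.2 ≠ v), f t =
    ∑ t ∈ (facets p).filter (fun t => t.1 ≠ v ∧ t.2.1 ≠ v ∧ t.2.2 ≠ v), f t := by
  rw [← Finset.sum_fiberwise_of_maps_to (s := (facets p).filter
    (fun t => t.1 ≠ v ∧ t.2.1 ≠ v ∧ t.2.2 ≠ v)) (t := Finset.univ.erase v)
    (g := fun t => t.1) (fun t ht => Finset.mem_erase.2
      ⟨(Finset.mem_filter.1 ht).2.1, Finset.mem_univ _⟩) f]
  refine Finset.sum_congr rfl fun i hi => Finset.sum_congr ?_ fun _ _ => rfl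
  have hi' := (Finset.mem_erase.1 hi).1
  ext t
  simp only [Finset.mem_filter]
  constructor
  · rintro ⟨h0, h1, h2⟩
    exact ⟨⟨h0, h1 ▸ hi', h2⟩, h1⟩
  · rintro ⟨⟨h0, -, h2⟩, h1⟩
    exact ⟨h0, h1, h2⟩

private theorem dl_ite {v a : Fin 9} (h : v ≠ a) (f : Fin 9 → ℝ) :
    ∑ i ∈ Finset.univ.erase v, (if i = a then f i else 0) = f a := by
  rw [Finset.sum_ite_eq', if_pos (Finset.mem_erase.2 ⟨h.symm, Finset.mem_univ _⟩)]

private theorem dl_Q (l : Bool) : 0 < Q3 l := by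
  unfold Q3
  cases l <;> norm_num

private theorem dl_sum {p : Fin 9 → E3} {κ : ℝ} (hκ : kq ≤ κ) (hG : Gen p) (hC : Covers p κ)
    (v : Fin 9) (l : Fin 9 → Bool) :
    ∑ t ∈ (facets p).filter (fun t => t.1 ≠ v ∧ t.2.1 ≠ v ∧ t.2.2 ≠ v),
      Q3 (l t.1) * ang (p t.1) (p t.2.1) (p t.2.2) ≤
    ∑ t ∈ (facets p).filter (fun t => t.1 ≠ v ∧ t.2.1 ≠ v ∧ t.2.2 ≠ v), G3 (l t.1) := by
  have r1 := dl_rot (p := p) v (fun t => Q3 (l t.1) * ang (p t.1) (p t.2.1) (p t.2.2))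
  have r2 := dl_rot (p := p) v (fun t => Q3 (l t.2.1) * ang (p t.2.1) (p t.2.2) (p t.1))
  have g1 := dl_rot (p := p) v (fun t => G3 (l t.1))
  have g2 := dl_rot (p := p) v (fun t => G3 (l t.2.1))
  simp only at r1 r2 g1 g2
  have h : ∑ t ∈ (facets p).filter (fun t => t.1 ≠ v ∧ t.2.1 ≠ v ∧ t.2.2 ≠ v),
      (Q3 (l t.1) * ang (p t.1) (p t.2.1) (p t.2.2) +
        Q3 (l t.2.1) * ang (p t.2.1) (p t.2.2) (p t.1) +
        Q3 (l t.2.2) * ang (p t.2.2) (p t.1) (p t.2.1)) ≤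
      ∑ t ∈ (facets p).filter (fun t => t.1 ≠ v ∧ t.2.1 ≠ v ∧ t.2.2 ≠ v),
      (G3 (l t.1) + G3 (l t.2.1) + G3 (l t.2.2)) := by
    refine Finset.sum_le_sum ?_
    rintro ⟨i, j, k⟩ ht
    rw [Finset.mem_filter, mem_facets] at ht
    exact dl_face hκ hG hC ht.1 _ _ _
  rw [Finset.sum_add_distrib, Finset.sum_add_distrib, Finset.sum_add_distrib,
    Finset.sum_add_distrib] at h
  linarith

/-- PROOF. `T0 = (facets p).filter (t.1 ≠ v ∧ t.2.1 ≠ v ∧ t.2.2 ≠ v)`, `T0.card = 66` (`d3_card`).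
For `i ≠ v` let `n i` be the number of `t ∈ T0` with `t.1 = i`, plus `2` if `i ∈ {a, b, c}`
(`a, b, c, v` are distinct). `n i` is even (involution `(i, j, k) ↦ (i, k, j)`, `facet_ne`), and
`∑_{i ≠ v} n i = 66 + 6 = 72`. Label `l i = decide (n i ≤ 8)` (so `n i ≥ 10` if it is `false`).
(1) `d3_sum` times `Q3 (l i) > 0`, summed over `i ≠ v`: `4π ∑ Q3 (l i) ≤ ∑_{t ∈ T0} Q3 (l t.1) ang t
+ 2 (Q3 (l a) ang a b c + Q3 (l b) ang b c a + Q3 (l c) ang c a b)`.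
(2) `T0` is invariant under the rotation of the three entries (`facet_perm1/2`), so
`3 ∑_{T0} Q3 (l t.1) ang t` is the sum over `T0` of the three rotated terms; for each `t ∈ T0`,
`facet_par` (`kq ≤ κ ≤ c`), `ang_par`, `par_rot` (as in `E9.lean`) and `d3_face` give
`≤ G3 (l t.1) + G3 (l t.2.1) + G3 (l t.2.2)` (each angle is the sum of the `ph` of the two half gaps
at the vertex); so `∑_{T0} Q3 (l t.1) ang t ≤ ∑_{T0} G3 (l t.1)`.
(3) the triangle `a b c`: `dt ≠ 0` (`d3_cone`), there is `N` with inner product `1` with the three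
points (Cramer), `exists_par`, `ang_par`; `(1 - C^2) sin^2 a = (1 - inner)/2 ≤ 1 - kq^2 = sn^2`
(`gram`, `d3_cone`, `kp_sn`); `d3_special`.
(4) So `∑_{i ≠ v} (n i * G3 (l i) - 4π Q3 (l i)) + 1.496 ≥ 0`. With `L = 1.4567`,
`∑_{i ≠ v} (n i - 9) = 0`, hence `∑_{i ≠ v} (n i * (G3 - L) + 9 L - 4π Q3) + 1.496 ≥ 0`. Each of the
8 brackets is at most `-0.19`: label `true`, `n i ≤ 8`: `8 * 0.1908 + 13.1103 - 4π * 1.18 < -0.191`;
label `false`, `n i ≥ 10`: `-10 * 0.2997 + 13.1103 - 4π * 0.82 < -0.191`.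
`8 * (-0.191) + 1.496 < 0`, a contradiction. -/
theorem del3_false {p : Fin 9 → E3} {κ : ℝ} (hκ : kq ≤ κ) (hG : Gen p) (hC : Covers p κ)
    {v a b c : Fin 9} (h1 : Facet p (v, a, b)) (h2 : Facet p (v, b, c))
    (h3 : Facet p (v, c, a)) : False := by
  have hκ' := hκ
  obtain ⟨hd, iab, ibc, ica, -⟩ := d3_cone hκ' hG hC h1 h2 h3
  have hva := (facet_ne h1).1
  have hvb := (facet_ne h2).1
  have hvc := (facet_ne h3).1
  obtain ⟨m, hm⟩ : ∃ m : Fin 9 → ℕ, m = fun i =>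
      ((facets p).filter (fun t => t.1 = i ∧ t.2.1 ≠ v ∧ t.2.2 ≠ v)).card +
      (if i = a then 2 else 0) + (if i = b then 2 else 0) + (if i = c then 2 else 0) := ⟨_, rfl⟩
  obtain ⟨l, hl⟩ : ∃ l : Fin 9 → Bool, l = fun i => decide (m i ≤ 8) := ⟨_, rfl⟩
  have hmr : ∀ i, (m i : ℝ) =
      (∑ t ∈ (facets p).filter (fun t => t.1 = i ∧ t.2.1 ≠ v ∧ t.2.2 ≠ v), (1 : ℝ)) +
      (if i = a then 2 else 0) + (if i = b then 2 else 0) + (if i = c then 2 else 0) := by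
    intro i
    rw [hm, Finset.sum_const, nsmul_eq_mul, mul_one]
    push_cast
    rfl
  have hme : ∀ i, Even (m i) := by
    intro i
    rw [hm]
    have h := dl_even p v i
    refine ((h.add ?_).add ?_).add ?_
    all_goals split_ifs
    all_goals decide
  -- (1)
  have s1 : ∑ i ∈ Finset.univ.erase v, 4 * π * Q3 (l i) ≤
      (∑ t ∈ (facets p).filter (fun t => t.1 ≠ v ∧ t.2.1 ≠ v ∧ t.2.2 ≠ v),
        Q3 (l t.1) * ang (p t.1) (p t.2.1) (p t.2.2)) +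
      2 * (Q3 (l a) * ang (p a) (p b) (p c)) + 2 * (Q3 (l b) * ang (p b) (p c) (p a)) +
      2 * (Q3 (l c) * ang (p c) (p a) (p b)) := by
    calc ∑ i ∈ Finset.univ.erase v, 4 * π * Q3 (l i)
        ≤ ∑ i ∈ Finset.univ.erase v,
          ((∑ t ∈ (facets p).filter (fun t => t.1 = i ∧ t.2.1 ≠ v ∧ t.2.2 ≠ v),
            Q3 (l t.1) * ang (p t.1) (p t.2.1) (p t.2.2)) +
          (if i = a then 2 * (Q3 (l i) * ang (p a) (p b) (p c)) else 0) +
          (if i = b then 2 * (Q3 (l i) * ang (p b) (p c) (p a)) else 0) +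
          (if i = c then 2 * (Q3 (l i) * ang (p c) (p a) (p b)) else 0)) := by
          refine Finset.sum_le_sum fun i hi => ?_
          have h := d3_sum hκ' hG hC h1 h2 h3 i (Finset.mem_erase.1 hi).1
          have hQ := dl_Q (l i)
          have hs : ∑ t ∈ (facets p).filter (fun t => t.1 = i ∧ t.2.1 ≠ v ∧ t.2.2 ≠ v),
              Q3 (l t.1) * ang (p t.1) (p t.2.1) (p t.2.2) = Q3 (l i) *
              ∑ t ∈ (facets p).filter (fun t => t.1 = i ∧ t.2.1 ≠ v ∧ t.2.2 ≠ v),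
              ang (p t.1) (p t.2.1) (p t.2.2) := by
            rw [Finset.mul_sum]
            refine Finset.sum_congr rfl fun t ht => ?_
            rw [(Finset.mem_filter.1 ht).2.1]
          rw [hs]
          have h' := mul_le_mul_of_nonneg_left h hQ.le
          split_ifs at h' ⊢ <;> linarith
      _ = _ := by
          rw [Finset.sum_add_distrib, Finset.sum_add_distrib, Finset.sum_add_distrib, dl_fib,
            dl_ite hva (fun i => 2 * (Q3 (l i) * ang (p a) (p b) (p c))),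
            dl_ite hvb (fun i => 2 * (Q3 (l i) * ang (p b) (p c) (p a))),
            dl_ite hvc (fun i => 2 * (Q3 (l i) * ang (p c) (p a) (p b)))]
  have s2 := dl_sum hκ hG hC v l
  have s3 := dl_special (hG.1 a) (hG.1 b) (hG.1 c) hd iab ibc ica (l a) (l b) (l c)
  -- the counts
  have c1 : ∑ i ∈ Finset.univ.erase v, (m i : ℝ) * G3 (l i) =
      (∑ t ∈ (facets p).filter (fun t => t.1 ≠ v ∧ t.2.1 ≠ v ∧ t.2.2 ≠ v), G3 (l t.1)) +
      2 * G3 (l a) + 2 * G3 (l b) + 2 * G3 (l c) := by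
    have e : ∀ i ∈ Finset.univ.erase v, (m i : ℝ) * G3 (l i) =
        (∑ t ∈ (facets p).filter (fun t => t.1 = i ∧ t.2.1 ≠ v ∧ t.2.2 ≠ v), G3 (l t.1)) +
        (if i = a then 2 * G3 (l i) else 0) + (if i = b then 2 * G3 (l i) else 0) +
        (if i = c then 2 * G3 (l i) else 0) := by
      intro i _
      have hs : ∑ t ∈ (facets p).filter (fun t => t.1 = i ∧ t.2.1 ≠ v ∧ t.2.2 ≠ v),
          G3 (l t.1) = (∑ t ∈ (facets p).filter (fun t => t.1 = i ∧ t.2.1 ≠ v ∧ t.2.2 ≠ v),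
          (1 : ℝ)) * G3 (l i) := by
        rw [Finset.sum_mul]
        refine Finset.sum_congr rfl fun t ht => ?_
        rw [(Finset.mem_filter.1 ht).2.1, one_mul]
      rw [hs, hmr]
      split_ifs <;> ring
    rw [Finset.sum_congr rfl e, Finset.sum_add_distrib, Finset.sum_add_distrib,
      Finset.sum_add_distrib, dl_fib, dl_ite hva (fun i => 2 * G3 (l i)),
      dl_ite hvb (fun i => 2 * G3 (l i)), dl_ite hvc (fun i => 2 * G3 (l i))]
  have c2 : ∑ i ∈ Finset.univ.erase v, (m i : ℝ) = 72 := by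
    rw [Finset.sum_congr rfl fun i _ => hmr i, Finset.sum_add_distrib, Finset.sum_add_distrib,
      Finset.sum_add_distrib, dl_fib, dl_ite hva (fun _ => 2), dl_ite hvb (fun _ => 2),
      dl_ite hvc (fun _ => 2), Finset.sum_const, d3_card hκ' hG hC h1 h2 h3]
    norm_num
  have c3 : (Finset.univ.erase v).card = 8 := by
    rw [Finset.card_erase_of_mem (Finset.mem_univ _), Finset.card_univ, Fintype.card_fin]
  have s5 : ∀ i ∈ Finset.univ.erase v, (0.191 : ℝ) ≤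
      4 * π * Q3 (l i) - (m i : ℝ) * G3 (l i) - 1.4567 * (9 - m i) := by
    intro i _
    have hp := pi_gt_d6
    obtain ⟨r, hr⟩ := hme i
    rcases le_or_gt (m i) 8 with h | h
    · have h' : l i = true := by
        rw [hl]
        exact decide_eq_true h
      have hc : (m i : ℝ) ≤ 8 := by exact_mod_cast h
      rw [h']
      unfold Q3 G3
      rw [if_pos rfl, if_pos rfl]
      linarith
    · have h' : l i = false := by
        rw [hl]
        exact decide_eq_false (not_le.2 h)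
      have h10 : 10 ≤ m i := by omega
      have hc : (10 : ℝ) ≤ m i := by exact_mod_cast h10
      rw [h']
      unfold Q3 G3
      rw [if_neg (by decide), if_neg (by decide)]
      linarith
  have s6 := Finset.card_nsmul_le_sum _ _ _ s5
  have c4 : ∑ i ∈ Finset.univ.erase v, (1.4567 : ℝ) * (9 - m i) = 0 := by
    rw [← Finset.mul_sum, Finset.sum_sub_distrib, c2, Finset.sum_const, c3]
    norm_num
  rw [c3, Finset.sum_sub_distrib, Finset.sum_sub_distrib, c1, c4, nsmul_eq_mul] at s6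
  push_cast at s6
  linarith

end Pool.Agent.C9Y
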