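import Pool.Agent.Lib.MP_488b8a_co_X.E9b

/-! # Project C9, stage 2, module E9by: the tangent line of `Hf` at `π/3`, strict (after E9b) -/

set_option autoImplicit false

namespace Pool.Agent.C9

open Real Pool.Agent.C32

private theorem e9y_sq3 : √3 ^ 2 = (3 : ℝ) := Real.sq_sqrt (by norm_num)

private theorem e9y_r3lo : (1.7320508 : ℝ) < √3 := by
  apply Real.lt_sqrt_of_sq_lt
  norm_num

private theorem e9y_r3hi : √3 < (1.7320509 : ℝ) := by
  rw [Real.sqrt_lt' (by norm_num)]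
  norm_num

private theorem e9y_s2lo : 0.515335 < sn ^ 2 := by
  nlinarith [sn_lo]

private theorem e9y_s2hi : sn ^ 2 < 0.515339 := by
  nlinarith [sn_hi, sn_pos]

private theorem e9y_Blo : 1.0758 < bt * sn ^ 4 := by
  have h1 : (0.26557 : ℝ) < sn ^ 4 := by nlinarith [e9y_s2lo]
  have h2 : (4.0512 : ℝ) * 0.26557 < bt * sn ^ 4 :=
    mul_lt_mul'' bt_lo h1 (by norm_num) (by norm_num)
  linarith

private theorem e9y_Bhi : bt * sn ^ 4 < 1.07595 := by
  have h1 : sn ^ 4 < (0.2655743 : ℝ) := by nlinarith [e9y_s2hi, sq_nonneg sn]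
  have h2 : bt * sn ^ 4 < (4.0514 : ℝ) * 0.2655743 :=
    mul_lt_mul'' bt_hi h1 bt_pos.le (by positivity)
  linarith

private theorem e9y_k2 : kp ^ 2 = 1 - sn ^ 2 := by linarith [kp_sn]

private theorem e9y_dph (z : ℝ) : dph kp z = kp / (1 - sn ^ 2 * sin z ^ 2) := by
  unfold dph
  congr 1
  have h := sin_sq_add_cos_sq z
  rw [e9y_k2]
  linear_combination h

private theorem e9y_sin60 : sin (π / 3) ^ 2 = 3 / 4 := by
  rw [sin_pi_div_three, div_pow, e9y_sq3]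
  norm_num

private theorem e9y_d60 : dph kp (π / 3) * (1 - 3 / 4 * sn ^ 2) = kp := by
  rw [e9y_dph, e9y_sin60]
  have := e9y_s2hi
  have h : 1 - sn ^ 2 * (3 / 4) ≠ 0 := by linarith
  rw [show 1 - 3 / 4 * sn ^ 2 = 1 - sn ^ 2 * (3 / 4) by ring, div_mul_cancel₀ _ h]

private theorem e9y_d60lo : 1.13476 < dph kp (π / 3) := by
  have h1 := e9y_d60
  have h2 := kp_lo
  have h3 := kp_hi
  have h4 : kp ^ 2 < 0.4846639 := by nlinarith
  have h5 := e9y_k2
  by_contra h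
  rw [not_lt] at h
  have h6 : dph kp (π / 3) * (1 - 3 / 4 * sn ^ 2) ≤ 1.13476 * (1 - 3 / 4 * sn ^ 2) :=
    mul_le_mul_of_nonneg_right h (by linarith [e9y_s2hi])
  linarith

private theorem e9y_hs : 0.8718 < -hs60 := by
  have h1 := e9y_d60lo
  have h2 := e9y_Bhi
  have h3 := e9y_r3hi
  have h4 : bt * sn ^ 4 * (3 * √3 / 4) < 1.07595 * (3 * 1.7320509 / 4) :=
    mul_lt_mul'' h2 (by linarith) (by linarith [e9y_Blo]) (by positivity)
  unfold hs60
  norm_num at h4 ⊢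
  linarith

private theorem e9y_deriv {z : ℝ} (h0 : 0 < z) (h1 : z < π) :
    HasDerivAt Hf (-2 * dph kp z + bt * sn ^ 4 * (4 * (sin z ^ 3 * cos z))) z := by
  have h2 := ((ph_deriv kp_pos h0 h1).const_mul 2).add
    (((hasDerivAt_sin z).pow 4).const_mul (bt * sn ^ 4))
  refine h2.congr_deriv ?_
  push_cast
  ring

private theorem e9y_G {z : ℝ} (h0 : 0 < z) (h1 : z < π) :
    HasDerivAt (fun z => Hf (π / 3) + hs60 * (z - π / 3) - Hf z)
      (hs60 - (-2 * dph kp z + bt * sn ^ 4 * (4 * (sin z ^ 3 * cos z)))) z := by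
  have h2 := (((((hasDerivAt_id z).sub_const (π / 3)).const_mul hs60).const_add
    (Hf (π / 3))).sub (e9y_deriv h0 h1))
  refine h2.congr_deriv ?_
  ring

private theorem e9y_G0 : Hf (π / 3) + hs60 * (π / 3 - π / 3) - Hf (π / 3) = 0 := by
  ring

private theorem e9y_w {q w R : ℝ} (hR : R = 3 * √3 / 16)
    (hw : w ^ 2 = q ^ 3 * (1 - q)) :
    (R - w) * (R + w) = (3 / 4 - q) ^ 2 * (q ^ 2 + q / 2 + 3 / 16) := by
  have h3 := e9y_sq3
  have hR2 : R ^ 2 = 27 / 256 := by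
    rw [hR, div_pow, mul_pow, h3]
    norm_num
  linear_combination hR2 - hw

/-- PROOF. `dph kp z = kp / (1 - sn^2 sin^2 z)`. The derivative of the right side minus the left
side at `z ∈ (π/3, π/2)` is `hs60 + 2 dph kp z - 4 bt sn^4 sin^3 z cos z ≥ 0`, because
`dph kp z ≥ dph kp (π/3)` (`dph_mono`) and `sin^3 z cos z ≤ sin^3 (π/3) cos (π/3) = 3√3/16`
(`q = sin^2 z`: `q^3 (1 - q) ≤ 27/256`). -/
theorem Hf_hi_lt {z : ℝ} (h0 : π / 3 < z) (h1 : z ≤ π / 2) :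
    Hf z < Hf (π / 3) + hs60 * (z - π / 3) := by
  have hp := pi_pos
  have hm : StrictMonoOn (fun z => Hf (π / 3) + hs60 * (z - π / 3) - Hf z)
      (Set.Icc (π / 3) (π / 2)) := by
    refine strictMonoOn_of_deriv_pos (convex_Icc _ _) ?_ ?_
    · intro y hy
      exact (e9y_G (z := y) (by linarith [hy.1]) (by linarith [hy.2])).continuousAt
        |>.continuousWithinAt
    · intro y hy
      rw [interior_Icc] at hy
      have hy0 : 0 < y := by linarith [hy.1]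
      rw [(e9y_G (z := y) hy0 (by linarith [hy.2])).deriv]
      have h2 := (dph_mono kp_pos kp_lt_one (⟨by linarith, by linarith⟩ :
        π / 3 ∈ Set.Icc 0 (π / 2)) (⟨hy0.le, hy.2.le⟩ : y ∈ Set.Icc 0 (π / 2)) hy.1)
      have hs : 0 < sin y := sin_pos_of_pos_of_lt_pi hy0 (by linarith [hy.2])
      have hc : 0 < cos y := cos_pos_of_mem_Ioo ⟨by linarith, hy.2⟩
      have hsc := sin_sq_add_cos_sq y
      have hw0 : 0 ≤ sin y ^ 3 * cos y := by positivity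
      have h3 := e9y_w (q := sin y ^ 2) (w := sin y ^ 3 * cos y) rfl (by
        rw [show 1 - sin y ^ 2 = cos y ^ 2 by linarith]
        ring)
      have h4 : 0 ≤ (3 * √3 / 16 - sin y ^ 3 * cos y) * (3 * √3 / 16 + sin y ^ 3 * cos y) := by
        rw [h3]
        positivity
      have h5 : (0 : ℝ) < 3 * √3 / 16 + sin y ^ 3 * cos y := by positivity
      have h6 : 0 ≤ 3 * √3 / 16 - sin y ^ 3 * cos y := nonneg_of_mul_nonneg_left h4 h5
      have h7 := mul_nonneg (show 0 ≤ bt * sn ^ 4 by linarith [e9y_Blo]) h6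
      unfold hs60
      linarith
  have h2 := hm (⟨le_rfl, by linarith⟩ : π / 3 ∈ Set.Icc (π / 3) (π / 2))
    (⟨h0.le, h1⟩ : z ∈ Set.Icc (π / 3) (π / 2)) h0
  have h3 := e9y_G0
  simp only at h2
  linarith

private theorem e9y_mid {q w : ℝ} (hq0 : 1 / 2 ≤ q) (hq1 : q < 3 / 4) (hw0 : 0 ≤ w)
    (hw : w ^ 2 = q ^ 3 * (1 - q)) :
    2 * (kp / (1 - sn ^ 2 * q)) + bt * sn ^ 4 * (3 * √3 / 4) - bt * sn ^ 4 * (4 * w) <
      2 * dph kp (π / 3) := by
  have hs1 := e9y_s2lo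
  have hs2 := e9y_s2hi
  have hB1 := e9y_Blo
  have hB2 := e9y_Bhi
  have hd := e9y_d60lo
  have hd2 := e9y_d60
  have hk := kp_pos
  obtain ⟨R, hR⟩ : ∃ R : ℝ, R = 3 * √3 / 16 := ⟨_, rfl⟩
  have hRlo : 0.3247 < R := by
    rw [hR]
    linarith [e9y_r3lo]
  have h1 := e9y_w hR hw
  have h2 : 1 / 4 ≤ w := by
    have h3 : (1 / 4 : ℝ) ^ 2 ≤ w ^ 2 := by
      rw [hw]
      have h4 : 0 ≤ (q - 1 / 2) * (-q ^ 3 + q ^ 2 / 2 + q / 4 + 1 / 8) := by
        refine mul_nonneg (by linarith) ?_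
        nlinarith [mul_nonneg (sq_nonneg q) (sub_nonneg.2 hq1.le)]
      linarith
    exact (sq_le_sq₀ (by norm_num) hw0).1 h3
  have h3 : 0 ≤ 3 / 4 - q := by linarith
  have h4 : (3 / 4 - q) * (q ^ 2 + q / 2 + 3 / 16) ≤ 11 / 64 := by
    have : 0 ≤ (q - 1 / 2) * (q ^ 2 + q / 4 - 1 / 16) :=
      mul_nonneg (by linarith) (by nlinarith)
    linarith
  have h5 : (R - w) * (R + w) ≤ (3 / 4 - q) * (11 / 64) := by
    rw [h1]
    have := mul_le_mul_of_nonneg_left h4 h3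
    linarith
  have h6 : 0 ≤ (R - w) * (R + w) := by
    rw [h1]
    positivity
  have h7 : 0 ≤ R - w := nonneg_of_mul_nonneg_left h6 (by linarith)
  have h8 : (R - w) * 0.5747 ≤ (R - w) * (R + w) :=
    mul_le_mul_of_nonneg_left (by linarith) h7
  have h9 : R - w ≤ (3 / 4 - q) * 0.3 := by linarith
  have h10 : bt * sn ^ 4 * (R - w) ≤ 1.07595 * ((3 / 4 - q) * 0.3) :=
    mul_le_mul hB2.le h9 h7 (by norm_num)
  -- the other part
  have h11 : 0 < 1 - sn ^ 2 * q := by nlinarith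
  have h12 : 1 - sn ^ 2 * q ≤ 0.74234 := by nlinarith
  have h13 : kp / (1 - sn ^ 2 * q) ≤ dph kp (π / 3) - 0.78 * (3 / 4 - q) := by
    rw [div_le_iff₀ h11]
    have h14 : 1.13476 * 0.515335 ≤ dph kp (π / 3) * sn ^ 2 :=
      mul_le_mul hd.le hs1.le (by norm_num) (by linarith)
    have h15 : 0 ≤ (3 / 4 - q) * (dph kp (π / 3) * sn ^ 2 - 0.78 * (1 - sn ^ 2 * q)) :=
      mul_nonneg h3 (by linarith)
    linarith
  have h16 : bt * sn ^ 4 * (3 * √3 / 4) - bt * sn ^ 4 * (4 * w) =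
      4 * (bt * sn ^ 4 * (R - w)) := by
    rw [hR]
    ring
  linarith

private theorem e9y_le {z : ℝ} (h0 : 0 ≤ z) (h1 : z < π / 3) : sin z < √3 / 2 := by
  have hp := pi_pos
  rw [← sin_pi_div_three]
  exact strictMonoOn_sin ⟨by linarith, by linarith⟩ ⟨by linarith, by linarith⟩ h1

/-- PROOF. Put `δ = π/3 - z ∈ [0, π/12]`.
(1) `sin^4 z ≤ 9/16 - (3√3/4) δ + √3 δ^3`: `8 sin^4 z = 3 - 4 cos 2z + cos 4z`,
`cos 2z = -cos 2δ/2 + √3/2 sin 2δ`, `cos 4z = -cos 4δ/2 - √3/2 sin 4δ`, so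
`8 sin^4 z = 3 + (2 cos 2δ - cos 4δ/2) - √3 (2 sin 2δ + sin 4δ/2)`;
`2 cos 2δ - cos 4δ/2 = 3/2 - (1 - cos 2δ)^2 ≤ 3/2`, and `sin y ≥ y - y^3/6` (`y ≥ 0`) gives
`2 sin 2δ + sin 4δ/2 ≥ 6δ - 8δ^3`.
(2) `ph kp z ≤ ph kp (π/3) + dph kp (π/3) δ - 0.325 δ^2`: the derivative in `δ` of the difference
(right minus left) is `dph kp (π/3) - dph kp (π/3 - δ) - 0.65 δ ≥ 0`, since
`dph kp (π/3) - dph kp z = kp sn^2 (3/4 - sin^2 z) / ((1 - 3/4 sn^2)(1 - sn^2 sin^2 z))`,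
`3/4 - sin^2 z = sin δ sin (2π/3 - δ) ≥ 0.98 δ * 0.866`, `1 - sn^2 sin^2 z ≤ 1 - sn^2/2 < 0.7424`
(`sin^2 z ≥ 1/2`), `1 - 3/4 sn^2 < 0.6136`, `kp sn^2 > 0.3587`: at least `0.668 δ`.
(3) `2 * 0.325 δ^2 ≥ bt sn^4 √3 δ^3` as `δ < 0.262`, `bt sn^4 < 1.0761`.
(What is done here: the derivative of the difference is `≤ 0`, see `e9y_mid`.) -/
theorem Hf_mid_lt {z : ℝ} (h0 : π / 4 ≤ z) (h1 : z < π / 3) :
    Hf z < Hf (π / 3) + hs60 * (z - π / 3) := by
  have hp := pi_pos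
  have hm : StrictAntiOn (fun z => Hf (π / 3) + hs60 * (z - π / 3) - Hf z)
      (Set.Icc (π / 4) (π / 3)) := by
    refine strictAntiOn_of_deriv_neg (convex_Icc _ _) ?_ ?_
    · intro y hy
      exact (e9y_G (z := y) (by linarith [hy.1]) (by linarith [hy.2])).continuousAt
        |>.continuousWithinAt
    · intro y hy
      rw [interior_Icc] at hy
      have hy0 : 0 < y := by linarith [hy.1]
      rw [(e9y_G (z := y) hy0 (by linarith [hy.2])).deriv]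
      have hs : 0 < sin y := sin_pos_of_pos_of_lt_pi hy0 (by linarith [hy.2])
      have hc : 0 < cos y := cos_pos_of_mem_Ioo ⟨by linarith, by linarith [hy.2]⟩
      have hsc := sin_sq_add_cos_sq y
      have h3 := e9y_sq3
      have hq1 : sin y ^ 2 < 3 / 4 := by
        have h2 := pow_lt_pow_left₀ (e9y_le hy0.le hy.2) hs.le (by norm_num : (2 : ℕ) ≠ 0)
        rw [div_pow, h3] at h2
        linarith
      have hq0 : 1 / 2 ≤ sin y ^ 2 := by
        have h2 : sin (π / 4) ≤ sin y :=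
          strictMonoOn_sin.monotoneOn ⟨by linarith, by linarith⟩
            ⟨by linarith, by linarith [hy.2]⟩ hy.1.le
        have h4 : 0 ≤ sin (π / 4) := by
          rw [sin_pi_div_four]
          positivity
        have h5 := pow_le_pow_left₀ h4 h2 2
        have h6 : sin (π / 4) ^ 2 = 1 / 2 := by
          rw [sin_pi_div_four, div_pow, Real.sq_sqrt (by norm_num)]
          norm_num
        linarith
      have h7 := e9y_mid hq0 hq1 (w := sin y ^ 3 * cos y) (by positivity) (by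
        rw [show 1 - sin y ^ 2 = cos y ^ 2 by linarith]
        ring)
      rw [← e9y_dph] at h7
      unfold hs60
      linarith
  have h2 := hm (⟨h0, h1.le⟩ : z ∈ Set.Icc (π / 4) (π / 3))
    (⟨by linarith, le_rfl⟩ : π / 3 ∈ Set.Icc (π / 4) (π / 3)) h1
  have h3 := e9y_G0
  simp only at h2
  linarith

private theorem e9y_atmono (f g : ℝ → ℝ) (hd : ∀ x, HasDerivAt f (g x) x) (hg : ∀ x, 0 ≤ g x)
    (h0 : f 0 = 0) {x : ℝ} (hx : 0 ≤ x) : 0 ≤ f x := by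
  have h1 : Monotone f := monotone_of_deriv_nonneg (fun y => (hd y).differentiableAt)
    (fun y => by rw [(hd y).deriv]; exact hg y)
  have h2 := h1 hx
  rw [h0] at h2
  exact h2

private theorem e9y_at {x : ℝ} (hx : 0 ≤ x) :
    x - x ^ 3 / 3 + x ^ 5 / 5 - x ^ 7 / 7 ≤ arctan x := by
  have h1 : 0 ≤ (fun y : ℝ => arctan y - (y - y ^ 3 / 3 + y ^ 5 / 5 - y ^ 7 / 7)) x := by
    refine e9y_atmono (fun y : ℝ => arctan y - (y - y ^ 3 / 3 + y ^ 5 / 5 - y ^ 7 / 7))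
      (fun y => y ^ 8 / (1 + y ^ 2)) ?_ ?_ ?_ hx
    · intro y
      have h2 : (0 : ℝ) < 1 + y ^ 2 := by positivity
      have h3 := (hasDerivAt_arctan y).sub ((((hasDerivAt_id y).sub
        ((hasDerivAt_pow 3 y).div_const 3)).add ((hasDerivAt_pow 5 y).div_const 5)).sub
        ((hasDerivAt_pow 7 y).div_const 7))
      have h4 : 1 / (1 + y ^ 2) - (1 - ((3 : ℕ) : ℝ) * y ^ (3 - 1) / 3 +
          ((5 : ℕ) : ℝ) * y ^ (5 - 1) / 5 - ((7 : ℕ) : ℝ) * y ^ (7 - 1) / 7) =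
          y ^ 8 / (1 + y ^ 2) := by
        push_cast
        norm_num
        field_simp
        ring
      rw [h4] at h3
      exact h3
    · intro y
      positivity
    · simp
  simp only at h1
  linarith

private theorem e9y_ph0 : ph kp (arctan (3 / 4)) < 1.0899 := by
  have hk := kp_pos
  have h1 := kp_lo
  have hp := Real.pi_lt_d6
  have hsq : √(1 + (3 / 4 : ℝ) ^ 2) = 5 / 4 := by
    rw [show 1 + (3 / 4 : ℝ) ^ 2 = (5 / 4) ^ 2 by norm_num, Real.sqrt_sq (by norm_num)]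
  have h2 : 0 < arctan (3 / 4 : ℝ) := Real.arctan_pos.2 (by norm_num)
  have h3 : arctan (3 / 4 : ℝ) < π / 2 := Real.arctan_lt_pi_div_two _
  rw [ph_eq hk h2 (by linarith [pi_pos]), Real.cos_arctan, Real.sin_arctan, hsq]
  have h4 : 1 / (5 / 4) / (kp * (3 / 4 / (5 / 4))) = (3 / 4 * kp)⁻¹ := by
    field_simp
  rw [h4, Real.arctan_inv_of_pos (by positivity)]
  have h5 : arctan (5221 / 10000 : ℝ) ≤ arctan (3 / 4 * kp) :=
    arctan_strictMono.monotone (by linarith)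
  have h6 := e9y_at (x := (5221 / 10000 : ℝ)) (by norm_num)
  norm_num at h6
  linarith

private theorem e9y_z0 : 0.141885 ≤ π / 4 - arctan (3 / 4) := by
  have h2 : arctan (3 / 4 : ℝ) + arctan (1 / 7) = arctan 1 := by
    rw [arctan_add (by norm_num)]
    norm_num
  have h3 := e9y_at (x := (1 / 7 : ℝ)) (by norm_num)
  rw [arctan_one] at h2
  norm_num at h3
  linarith

private theorem e9y_z0' : π / 4 - arctan (3 / 4) ≤ 1 / 7 := by
  have h2 : arctan (3 / 4 : ℝ) + arctan (1 / 7) = arctan 1 := by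
    rw [arctan_add (by norm_num)]
    norm_num
  have h3 : 0 ≤ (fun y : ℝ => y - arctan y) (1 / 7) := by
    refine e9y_atmono (fun y : ℝ => y - arctan y) (fun y => 1 - 1 / (1 + y ^ 2)) ?_ ?_ ?_
      (by norm_num)
    · intro y
      exact (hasDerivAt_id y).sub (hasDerivAt_arctan y)
    · intro y
      have h4 : (0 : ℝ) < 1 + y ^ 2 := by positivity
      rw [sub_nonneg, div_le_one h4]
      linarith [sq_nonneg y]
    · simp
  simp only at h3
  rw [arctan_one] at h2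
  linarith

private theorem e9y_d0 : 0.8547 < dph kp (arctan (3 / 4)) ∧
    dph kp (arctan (3 / 4)) < 0.8548 := by
  have h1 := kp_lo
  have h2 := kp_hi
  have hsq : √(1 + (3 / 4 : ℝ) ^ 2) = 5 / 4 := by
    rw [show 1 + (3 / 4 : ℝ) ^ 2 = (5 / 4) ^ 2 by norm_num, Real.sqrt_sq (by norm_num)]
  unfold dph
  rw [Real.cos_arctan, Real.sin_arctan, hsq]
  have h3 : kp ^ 2 < 0.4846639 := by nlinarith
  have h4 : 0.484662 < kp ^ 2 := by nlinarith
  constructor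
  · rw [lt_div_iff₀ (by positivity)]
    norm_num
    linarith
  · rw [div_lt_iff₀ (by positivity)]
    norm_num
    linarith

/-- PROOF. Margin `0.01`. Put `y = π/4 - z ∈ [0, 0.2054]`.
`sin^2 z = (1 - sin 2y)/2`, `sin 2y ≥ 2y - 4y^3/3`, so `sin^4 z ≤ (1 - 2y + 4y^3/3)^2/4 ≤
(1 - 4y + 4y^2 + 8y^3/3)/4` (`y ≤ 0.21`). Tangent line of `ph kp` at `z₀ = arctan (3/4)`
(`ph_tan`, `sin z₀ = 3/5`, `cos z₀ = 4/5`): `ph kp z₀ = arctan (4/(3 kp)) = 1.08953`,
`dph kp z₀ = kp/(16/25 + 9/25 kp^2) = 0.854752`, `z₀ = 0.643501`. So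
`Hf z ≤ 2.20548 + 0.63355 y + 1.07596 y^2 + 0.7182 y^3`, and the right side is
`2.21818 + 0.87189 y` (`Hf (π/3) = 1.98992`, `hs60 = -0.87189`); the difference
`0.0127 + 0.2383 y - 1.076 y^2 - 0.7182 y^3` is `≥ 0.0100` on `[0, 0.2054]`. -/
theorem Hf_lo_lt {z : ℝ} (h0 : 0.58 ≤ z) (h1 : z ≤ π / 4) :
    Hf z < Hf (π / 3) + hs60 * (z - π / 3) := by
  have hp := pi_pos
  have hp1 := Real.pi_gt_d6
  have hp2 := Real.pi_lt_d6
  obtain ⟨y, hy⟩ : ∃ y : ℝ, y = π / 4 - z := ⟨_, rfl⟩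
  have hy0 : 0 ≤ y := by linarith
  have hy1 : y ≤ 0.2054 := by
    norm_num at hp2 h0 ⊢
    linarith
  have hz : z = π / 4 - y := by linarith
  -- the power of the sine
  have h2 : sin z ^ 2 = (1 - sin (2 * y)) / 2 := by
    have h3 : cos (2 * z) = sin (2 * y) := by
      rw [hz, show 2 * (π / 4 - y) = π / 2 - 2 * y by ring, cos_pi_div_two_sub]
    have h4 := cos_sq' z
    have h5 := cos_two_mul z
    linarith
  have h3 : 2 * y - 4 / 3 * y ^ 3 ≤ sin (2 * y) := by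
    have h4 := Real.sin_ge_sub_cube (x := 2 * y) (by linarith)
    have h5 : (2 * y) ^ 3 = 8 * y ^ 3 := by ring
    rw [h5] at h4
    linarith
  obtain ⟨Q, hQ⟩ : ∃ Q : ℝ, Q = (1 - 2 * y + 4 / 3 * y ^ 3) / 2 := ⟨_, rfl⟩
  have h4 : sin z ^ 4 ≤ Q ^ 2 := by
    have h5 : sin z ^ 2 ≤ Q := by
      rw [h2, hQ]
      linarith
    have h6 := pow_le_pow_left₀ (sq_nonneg (sin z)) h5 2
    linarith [show (sin z ^ 2) ^ 2 = sin z ^ 4 by ring]
  -- the tangent line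
  have hz0 : 0 < arctan (3 / 4 : ℝ) := Real.arctan_pos.2 (by norm_num)
  have h5 := ph_tan (c := kp) (z0 := arctan (3 / 4)) (z := z) kp_pos kp_lt_one hz0
    (Real.arctan_lt_pi_div_two _) (by linarith) (by linarith)
  have h6 := e9y_ph0
  have h7 := e9y_z0
  have h8 := e9y_z0'
  obtain ⟨h9, h10⟩ := e9y_d0
  obtain ⟨a, ha⟩ : ∃ a : ℝ, a = π / 4 - arctan (3 / 4) := ⟨_, rfl⟩
  obtain ⟨d, hd⟩ : ∃ d : ℝ, d = dph kp (arctan (3 / 4)) := ⟨_, rfl⟩
  have h11 : z - arctan (3 / 4) = a - y := by rw [ha, hz]; ring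
  rw [h11, ← hd] at h5
  rw [← ha] at h7 h8
  rw [← hd] at h9 h10
  have h12 : 0 ≤ (d - 0.8547) * (a - y + 0.1) := by
    refine mul_nonneg (by linarith) ?_
    norm_num at h7 hy1 ⊢
    linarith
  have hB1 := e9y_Blo
  have hs := e9y_hs
  have hth := ph_third_lo
  -- values at `π/3`
  have h13 : Hf (π / 3) = 2 * ph kp (π / 3) + bt * sn ^ 4 * (9 / 16) := by
    unfold Hf
    rw [show sin (π / 3) ^ 4 = (sin (π / 3) ^ 2) ^ 2 by ring, e9y_sin60]
    norm_num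
  have h14 : z - π / 3 = -(π / 12 + y) := by rw [hz]; ring
  rw [h13, h14]
  unfold Hf
  have h15 : 0.8718 * (π / 12 + y) ≤ -hs60 * (π / 12 + y) :=
    mul_le_mul_of_nonneg_right hs.le (by positivity)
  have h16 : Q ^ 2 ≤ 1 / 4 := by
    rw [hQ]
    have h17 : 0 ≤ 1 - 2 * y + 4 / 3 * y ^ 3 := by
      have := pow_nonneg hy0 3
      norm_num at hy1 ⊢
      linarith
    have h18 : 1 - 2 * y + 4 / 3 * y ^ 3 ≤ 1 := by
      nlinarith [mul_nonneg hy0 hy0, mul_nonneg hy0 (sub_nonneg.2 hy1)]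
    nlinarith
  have h17 : bt * sn ^ 4 * sin z ^ 4 ≤ bt * sn ^ 4 * Q ^ 2 :=
    mul_le_mul_of_nonneg_left h4 (by linarith)
  have h18 : 1.0758 * (9 / 16 - Q ^ 2) ≤ bt * sn ^ 4 * (9 / 16 - Q ^ 2) :=
    mul_le_mul_of_nonneg_right hB1.le (by linarith)
  have h19 : Q ^ 2 ≤ 1 / 4 - y + y ^ 2 + 2 / 3 * y ^ 3 := by
    have h20 : Q ^ 2 = 1 / 4 - y + y ^ 2 + 2 / 3 * y ^ 3 - y ^ 4 * (4 / 3 - 4 / 9 * y ^ 2) := by
      rw [hQ]
      ring
    have h21 : 0 ≤ y ^ 4 * (4 / 3 - 4 / 9 * y ^ 2) := by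
      refine mul_nonneg (by positivity) ?_
      nlinarith
    linarith
  have h20 : 0 ≤ 0.0115 + 0.238 * y - 1.0758 * y ^ 2 - 0.7173 * y ^ 3 := by
    have h21 : 0 ≤ y * (0.2054 - y) := mul_nonneg hy0 (by linarith)
    have h22 : 0 ≤ y * (0.2054 - y) * y := mul_nonneg h21 hy0
    norm_num at h21 h22 hy1 ⊢
    nlinarith
  norm_num at *
  nlinarith

end Pool.Agent.C9
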