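import Pool.Agent.Lib.MP_488b8a_co_X.GwD

/-! # Project C9, stage 2, module EqEnd (copy of GwE): the strict inequality for `x = r` -/

set_option autoImplicit false

namespace Pool.Agent.C9

open Real Pool.Agent.C32 ComplexConjugate

private theorem e_re (u : ℝ) : 0 < kp ^ 2 * cos u + sn ^ 2 := by
  have h1 := neg_one_le_cos u
  have h2 := kp_hi
  have h3 := sn_lo
  have h4 := kp_pos
  have h5 := sn_pos
  nlinarith [mul_pos h4 h4, mul_pos h5 h5]

private theorem e_arg (u : ℝ) : Complex.arg (Pf u 0 (arccos kp)) =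
    arctan (kp * sin u / (kp ^ 2 * cos u + sn ^ 2)) := by
  have h1 : Pf u 0 (arccos kp) = ⟨kp ^ 2 * cos u + sn ^ 2, kp * sin u⟩ := by
    unfold Pf
    rw [cos_r, sin_r, cos_zero]
    apply Complex.ext
    · show kp * kp * cos u + sn * sn * 1 = kp ^ 2 * cos u + sn ^ 2
      ring
    · rfl
  rw [h1]
  have h3 : |Complex.arg ⟨kp ^ 2 * cos u + sn ^ 2, kp * sin u⟩| < π / 2 :=
    Complex.abs_arg_lt_pi_div_two_iff.2 (Or.inl (e_re u))
  rw [abs_lt] at h3
  have h4 := Complex.tan_arg ⟨kp ^ 2 * cos u + sn ^ 2, kp * sin u⟩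
  rw [← Real.arctan_tan h3.1 h3.2, h4]

private theorem e_W (u : ℝ) : Wf u (arccos kp) =
    om * u - arctan (kp * sin u / (kp ^ 2 * cos u + sn ^ 2)) -
      bt / 2 * (kp * sn * (1 - cos u)) ^ 4 := by
  unfold Wf Sf
  rw [e_arg, cos_r, sin_r]
  ring

private noncomputable def eA (z : ℝ) : ℝ :=
  om - kp * (1 - sn ^ 2 * z) / (1 - kp ^ 2 * sn ^ 2 * z ^ 2)

private theorem e_deriv (u : ℝ) : HasDerivAt (fun u => Wf u (arccos kp))
    (eA (1 - cos u) - 2 * bt * (kp * sn) ^ 4 * (1 - cos u) ^ 3 * sin u) u := by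
  have hre := e_re u
  have h1 : HasDerivAt (fun u => kp * sin u / (kp ^ 2 * cos u + sn ^ 2))
      ((kp * cos u * (kp ^ 2 * cos u + sn ^ 2) - kp * sin u * (kp ^ 2 * -sin u)) /
        (kp ^ 2 * cos u + sn ^ 2) ^ 2) u :=
    ((hasDerivAt_sin u).const_mul kp).div
      (((hasDerivAt_cos u).const_mul (kp ^ 2)).add_const (sn ^ 2)) hre.ne'
  have h2 := h1.arctan
  have h3 : HasDerivAt (fun u => kp * sn * (1 - cos u)) (kp * sn * (0 - -sin u)) u :=
    ((hasDerivAt_const u 1).sub (hasDerivAt_cos u)).const_mul (kp * sn)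
  have h4 := (((hasDerivAt_id u).const_mul om).sub h2).sub ((h3.pow 4).const_mul (bt / 2))
  have he : (fun u => Wf u (arccos kp)) = fun u => om * u -
      arctan (kp * sin u / (kp ^ 2 * cos u + sn ^ 2)) -
      bt / 2 * (kp * sn * (1 - cos u)) ^ 4 := funext fun u => e_W u
  rw [he]
  refine h4.congr_deriv ?_
  have hsc := sin_sq_add_cos_sq u
  have hks := kp_sn
  have hD : (kp ^ 2 * cos u + sn ^ 2) ^ 2 + (kp * sin u) ^ 2 =
      1 - kp ^ 2 * sn ^ 2 * (1 - cos u) ^ 2 := by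
    have e1 : sin u ^ 2 = 1 - cos u ^ 2 := by linarith
    have e2 : sn ^ 2 = 1 - kp ^ 2 := by linarith
    rw [mul_pow kp (sin u), e1, e2]
    ring
  have hD0 : 0 < 1 - kp ^ 2 * sn ^ 2 * (1 - cos u) ^ 2 := by
    rw [← hD]
    positivity
  have e3 : 1 + (kp * sin u / (kp ^ 2 * cos u + sn ^ 2)) ^ 2 =
      (1 - kp ^ 2 * sn ^ 2 * (1 - cos u) ^ 2) / (kp ^ 2 * cos u + sn ^ 2) ^ 2 := by
    rw [← hD]
    field_simp
  have e4 : kp * cos u * (kp ^ 2 * cos u + sn ^ 2) - kp * sin u * (kp ^ 2 * -sin u) =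
      kp * (1 - sn ^ 2 * (1 - cos u)) := by
    linear_combination kp ^ 3 * hsc + kp * hks
  rw [e3, e4]
  unfold eA
  push_cast
  field_simp
  ring

/-- `1 - cos us` -/
private noncomputable def zs : ℝ := √3 / (2 * kp)

private theorem zs_sq : kp ^ 2 * zs ^ 2 = 3 / 4 := by
  have h := kp_pos
  have h3 : √3 ^ 2 = 3 := sq_sqrt (by norm_num)
  unfold zs
  rw [div_pow, mul_pow, h3]
  field_simp
  norm_num

private theorem zs_eq : 1 - cos us = zs := by
  rw [cos_us]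
  unfold zs
  ring

private theorem e_zero : eA zs = 2 * bt * (kp * sn) ^ 4 * zs ^ 3 * (kp / sn) := by
  have h1 := kp_pos
  have h2 := sn_pos
  have h3 : √3 ^ 2 = 3 := sq_sqrt (by norm_num)
  have hks := kp_sn
  have e1 : 1 - kp ^ 2 * sn ^ 2 * zs ^ 2 = 1 - 3 / 4 * sn ^ 2 := by
    linear_combination (-(sn ^ 2)) * zs_sq
  have e2 : kp ^ 2 + sn ^ 2 * cos us = 1 - sn ^ 2 * zs := by
    rw [← zs_eq]
    linear_combination hks
  have e3 : eA zs = bt * (3 * √3 * kp ^ 2 * sn ^ 3) / 4 := by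
    unfold eA bt
    rw [e1, e2]
    have h4 : 0 < √3 := by positivity
    field_simp
  rw [e3]
  have e4 : zs ^ 3 = 3 * √3 / (8 * kp ^ 3) := by
    unfold zs
    rw [div_pow, show √3 ^ 3 = √3 ^ 2 * √3 by ring, h3]
    ring
  rw [e4]
  field_simp
  ring

private theorem zs_bounds : 1.2439 < zs ∧ zs < 1.2441 := by
  have h1 := kp_lo
  have h2 := kp_hi
  have h3 := kp_pos
  have h4 : (1.73205 : ℝ) < √3 := lt_sqrt_of_sq_lt (by norm_num)
  have h5 : √3 < 1.73206 := by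
    rw [sqrt_lt' (by norm_num)]
    norm_num
  unfold zs
  constructor
  · rw [lt_div_iff₀ (by positivity)]
    linarith
  · rw [div_lt_iff₀ (by positivity)]
    linarith

private theorem sg_sq : (kp / sn) ^ 2 = zs * (2 - zs) := by
  have h := sin_sq_add_cos_sq us
  rw [sin_us] at h
  have h2 : cos us = 1 - zs := by linarith [zs_eq]
  rw [h2] at h
  linarith

private theorem sg_bounds : 0.969 < kp / sn ∧ kp / sn < 0.971 := by
  have h1 := kp_lo
  have h2 := kp_hi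
  have h3 := sn_lo
  have h4 := sn_hi
  have h5 := sn_pos
  constructor
  · rw [lt_div_iff₀ h5]
    linarith
  · rw [div_lt_iff₀ h5]
    linarith

private noncomputable def eK : ℝ := 2 * bt * (kp * sn) ^ 4

private theorem eK_bounds : 0.5 < eK ∧ eK < 0.51 := by
  have h1 := kp_lo
  have h2 := kp_hi
  have h3 := sn_lo
  have h4 := sn_hi
  have h5 := bt_lo
  have h6 := bt_hi
  have h7 := kp_pos
  have h8 := sn_pos
  have e1 : 0.4997 < kp * sn := by nlinarith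
  have e2 : kp * sn < 0.4998 := by nlinarith
  have e3 : (0.4997 : ℝ) ^ 4 < (kp * sn) ^ 4 := pow_lt_pow_left₀ e1 (by norm_num) (by norm_num)
  have e4 : (kp * sn) ^ 4 < (0.4998 : ℝ) ^ 4 := pow_lt_pow_left₀ e2 (by positivity) (by norm_num)
  unfold eK
  constructor
  · nlinarith
  · nlinarith

private theorem eA_small {z : ℝ} (h0 : 0 ≤ z) (h1 : z ≤ 1) : 0.65 ≤ eA z := by
  have hk := kp_hi
  have hkp := kp_pos
  have ho := om_lo
  have hks := kp_sn
  have hs := sn_pos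
  have e0 : z ^ 2 ≤ 1 := by nlinarith
  have e1 : kp ^ 2 * sn ^ 2 * z ^ 2 < 1 := by
    have : kp ^ 2 * sn ^ 2 < 1 := by nlinarith [sq_nonneg (kp ^ 2 - sn ^ 2), mul_pos hkp hkp]
    have h2 : 0 ≤ kp ^ 2 * sn ^ 2 := by positivity
    nlinarith [sq_nonneg z]
  have e2 : kp * (1 - sn ^ 2 * z) / (1 - kp ^ 2 * sn ^ 2 * z ^ 2) ≤ kp := by
    rw [div_le_iff₀ (by linarith)]
    refine mul_le_mul_of_nonneg_left ?_ hkp.le
    have h3 : kp ^ 2 * z ^ 2 ≤ z := by
      have h4 : kp ^ 2 ≤ 1 := by nlinarith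
      nlinarith [sq_nonneg z]
    nlinarith [mul_le_mul_of_nonneg_left h3 (sq_nonneg sn)]
  unfold eA
  linarith

private theorem eA_diff {z : ℝ} (h0 : 1 ≤ z) (h1 : kp * z ≤ 1) :
    ∃ q, 0 ≤ q ∧ q ≤ 0.43 ∧ eA z - eA zs = q * (z - zs) := by
  have hk := kp_lo
  have hk' := kp_hi
  have hkp := kp_pos
  have hs := sn_lo
  have hs' := sn_hi
  have hsp := sn_pos
  have hks := kp_sn
  obtain ⟨z1, z2⟩ := zs_bounds
  have k1 : 0.48466 < kp ^ 2 := by nlinarith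
  have k2 : kp ^ 2 < 0.48467 := by nlinarith
  have s1 : 0.5153 < sn ^ 2 := by nlinarith
  have s2 : sn ^ 2 < 0.51534 := by nlinarith
  have hz : z < 1.437 := by nlinarith
  have d1 : 0.48466 < 1 - kp ^ 2 * sn ^ 2 * z ^ 2 := by
    have e1 : kp ^ 2 * z ^ 2 ≤ 1 := by
      have : kp ^ 2 * z ^ 2 = (kp * z) ^ 2 := by ring
      rw [this]
      have : 0 ≤ kp * z := by positivity
      nlinarith
    have e2 : kp ^ 2 * sn ^ 2 * z ^ 2 = sn ^ 2 * (kp ^ 2 * z ^ 2) := by ring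
    rw [e2]
    nlinarith [sq_nonneg sn]
  have d2 : 0.6134 < 1 - kp ^ 2 * sn ^ 2 * zs ^ 2 := by
    have e2 : kp ^ 2 * sn ^ 2 * zs ^ 2 = sn ^ 2 * (kp ^ 2 * zs ^ 2) := by ring
    rw [e2, zs_sq]
    linarith
  have hN : eA z - eA zs = kp * (sn ^ 2 * (1 - kp ^ 2 * (z + zs) + kp ^ 2 * sn ^ 2 * (z * zs))) /
      ((1 - kp ^ 2 * sn ^ 2 * z ^ 2) * (1 - kp ^ 2 * sn ^ 2 * zs ^ 2)) * (z - zs) := by
    unfold eA
    have d1' : 1 - kp ^ 2 * sn ^ 2 * z ^ 2 ≠ 0 := by linarith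
    have d2' : 1 - kp ^ 2 * sn ^ 2 * zs ^ 2 ≠ 0 := by linarith
    field_simp
    ring
  refine ⟨_, ?_, ?_, hN⟩
  · have e1 : 0 ≤ 1 - kp ^ 2 * (z + zs) + kp ^ 2 * sn ^ 2 * (z * zs) := by
      have g1 : 0.2497 < kp ^ 2 * sn ^ 2 := by nlinarith
      have g2 : z * zs ≥ 1.2439 * z := by nlinarith
      nlinarith
    have e2 : 0 < (1 - kp ^ 2 * sn ^ 2 * z ^ 2) * (1 - kp ^ 2 * sn ^ 2 * zs ^ 2) :=
      mul_pos (by linarith) (by linarith)
    positivity
  · have e1 : 1 - kp ^ 2 * (z + zs) + kp ^ 2 * sn ^ 2 * (z * zs) ≤ 0.23 := by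
      have g1 : kp ^ 2 * sn ^ 2 < 0.24979 := by nlinarith
      have g2 : z * zs ≤ 1.2441 * z := by nlinarith
      have g3 : kp ^ 2 * sn ^ 2 * (z * zs) ≤ 0.24979 * (1.2441 * z) :=
        mul_le_mul g1.le g2 (by positivity) (by norm_num)
      nlinarith
    have e2 : 0.29 < (1 - kp ^ 2 * sn ^ 2 * z ^ 2) * (1 - kp ^ 2 * sn ^ 2 * zs ^ 2) := by
      nlinarith
    rw [div_le_iff₀ (by linarith)]
    have e3 : sn ^ 2 * (1 - kp ^ 2 * (z + zs) + kp ^ 2 * sn ^ 2 * (z * zs)) ≤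
        0.51534 * 0.23 := by
      refine (mul_le_mul_of_nonneg_left e1 (sq_nonneg sn)).trans ?_
      nlinarith
    have e4 := mul_le_mul_of_nonneg_left e3 hkp.le
    nlinarith

private theorem b_diff {z σ : ℝ} (h0 : 1 ≤ z) (h1 : kp * z ≤ 1) (hσ : 0 ≤ σ)
    (hσ2 : σ ^ 2 = z * (2 - z)) :
    ∃ p, 2.4 ≤ p ∧ z ^ 3 * σ - zs ^ 3 * (kp / sn) = p * (z - zs) := by
  have hk := kp_lo
  obtain ⟨z1, z2⟩ := zs_bounds
  obtain ⟨g1, g2⟩ := sg_bounds
  have hsg := sg_sq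
  obtain ⟨τ, hτ⟩ : ∃ τ, τ = kp / sn := ⟨_, rfl⟩
  rw [← hτ] at g1 g2 hsg ⊢
  have hz : z < 1.437 := by nlinarith
  have hσ1 : 0.89 ≤ σ := by
    by_contra h
    push Not at h
    have h2 : σ ^ 2 < 0.7921 := by nlinarith
    nlinarith
  refine ⟨(z ^ 2 + z * zs + zs ^ 2) * τ - z ^ 3 * (z + zs - 2) / (σ + τ), ?_, ?_⟩
  · have e1 : z ^ 3 * (z + zs - 2) / (σ + τ) ≤ 1.2 := by
      rw [div_le_iff₀ (by linarith)]
      have e2 : z ^ 2 < 2.065 := by nlinarith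
      have e3 : z ^ 3 < 2.968 := by nlinarith
      have e4 : z ^ 3 * (z + zs - 2) ≤ 2.968 * 0.6811 :=
        mul_le_mul e3.le (by linarith) (by linarith) (by norm_num)
      linarith
    have e5 : 3.78 ≤ z ^ 2 + z * zs + zs ^ 2 := by nlinarith
    have e6 : 3.78 * 0.969 ≤ (z ^ 2 + z * zs + zs ^ 2) * τ :=
      mul_le_mul e5 g1.le (by norm_num) (by linarith)
    linarith
  · have hst : 0 < σ + τ := by linarith
    have e1 : (σ - τ) * (σ + τ) = (z - zs) * (2 - z - zs) := by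
      linear_combination hσ2 - hsg
    have e2 : σ - τ = (z - zs) * (2 - z - zs) / (σ + τ) := by
      rw [eq_div_iff hst.ne']
      exact e1
    have e3 : z ^ 3 * σ - zs ^ 3 * τ = (z ^ 3 - zs ^ 3) * τ + z ^ 3 * (σ - τ) := by ring
    rw [e3, e2]
    field_simp
    ring

private theorem e_sign {u : ℝ} (hu : 0 ≤ u) (hu' : u ≤ π) (h : 1 - 1 / kp ≤ cos u) :
    (u < us → 0 < eA (1 - cos u) - 2 * bt * (kp * sn) ^ 4 * (1 - cos u) ^ 3 * sin u) ∧
    (us < u → eA (1 - cos u) - 2 * bt * (kp * sn) ^ 4 * (1 - cos u) ^ 3 * sin u < 0) := by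
  have hkp := kp_pos
  have hsu : 0 ≤ sin u := sin_nonneg_of_nonneg_of_le_pi hu hu'
  have hsc := sin_sq_add_cos_sq u
  obtain ⟨k1, k2⟩ := eK_bounds
  obtain ⟨z1, z2⟩ := zs_bounds
  have hK : 2 * bt * (kp * sn) ^ 4 * (1 - cos u) ^ 3 * sin u =
      eK * ((1 - cos u) ^ 3 * sin u) := by
    unfold eK
    ring
  have hz := e_zero
  have hKz : 2 * bt * (kp * sn) ^ 4 * zs ^ 3 * (kp / sn) = eK * (zs ^ 3 * (kp / sn)) := by
    unfold eK
    ring
  rw [hKz] at hz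
  rw [hK]
  have hc1 := cos_le_one u
  have us1 := us_lo
  have us2 := us_hi
  have hp := pi_gt_d6
  rcases le_total (1 - cos u) 1 with hc | hc
  · have e1 := eA_small (by linarith : 0 ≤ 1 - cos u) hc
    have e2 : (1 - cos u) ^ 3 * sin u ≤ 1 := by
      have g1 : (1 - cos u) ^ 3 ≤ 1 := pow_le_one₀ (by linarith) hc
      have g2 := sin_le_one u
      exact mul_le_one₀ g1 hsu g2
    have e3 : 0 ≤ (1 - cos u) ^ 3 * sin u :=
      mul_nonneg (pow_nonneg (by linarith) 3) hsu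
    constructor
    · intro _
      nlinarith
    · intro hus
      exfalso
      have g1 : cos u ≤ cos us := cos_le_cos_of_nonneg_of_le_pi (by linarith) hu' hus.le
      have g2 := zs_eq
      linarith
  · have hz1 : kp * (1 - cos u) ≤ 1 := by
      have : 1 - cos u ≤ 1 / kp := by linarith
      rw [le_div_iff₀ hkp] at this
      linarith
    obtain ⟨q, q0, q1, q2⟩ := eA_diff hc hz1
    obtain ⟨p, p0, p1⟩ := b_diff hc hz1 hsu (by linear_combination hsc)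
    have e1 : eA (1 - cos u) - eK * ((1 - cos u) ^ 3 * sin u) =
        (q - eK * p) * ((1 - cos u) - zs) := by
      linear_combination q2 - eK * p1 + hz
    have e2 : q - eK * p < 0 := by nlinarith
    rw [e1]
    constructor
    · intro hus
      have g1 : cos us < cos u := cos_lt_cos_of_nonneg_of_le_pi hu (by linarith) hus
      have g2 := zs_eq
      exact mul_pos_of_neg_of_neg e2 (by linarith)
    · intro hus
      have g1 : cos u < cos us := cos_lt_cos_of_nonneg_of_le_pi (by linarith) hu' hus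
      have g2 := zs_eq
      exact mul_neg_of_neg_of_pos e2 (by linarith)

private theorem e_val : Wf us (arccos kp) = Ws := by
  have h1 : Pf us 0 (arccos kp) = ⟨kp ^ 2 * cos us + sn ^ 2, kp * sin us⟩ := by
    unfold Pf
    rw [cos_r, sin_r, cos_zero]
    apply Complex.ext
    · show kp * kp * cos us + sn * sn * 1 = kp ^ 2 * cos us + sn ^ 2
      ring
    · rfl
  unfold Wf Ws Sf
  rw [h1, arg_us, cos_r, sin_r]
  have h2 : kp * sn - sn * kp * cos us = sn * (kp * zs) := by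
    rw [← zs_eq]
    ring
  have h3 : (sn * (kp * zs)) ^ 4 = 9 / 16 * sn ^ 4 := by
    have : (sn * (kp * zs)) ^ 4 = sn ^ 4 * (kp ^ 2 * zs ^ 2) ^ 2 := by ring
    rw [this, zs_sq]
    ring
  rw [h2, h3]
  ring

/-- PROOF. `sin r = sn`, `cos r = kp` (`sin_r`, `cos_r`), so `Sf u r = kp sn (1 - cos u)` and
`Pf u 0 r = kp^2 cos u + sn^2 + i kp sin u` with positive real part (`kp^2 < sn^2`), so that its
argument is `arctan (kp sin u / (kp^2 cos u + sn^2))`. Let `w u = Wf u r`, `z = 1 - cos u`. On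
`(0, π)`, as long as `z ≤ 1/kp` (so `kp^2 sn^2 z^2 ≤ sn^2 < 1`),
`w' u = om - a z - 2 bt (kp sn)^4 z^3 sin u`,
`a z = kp (kp^2 + sn^2 cos u) / (1 - kp^2 sn^2 z^2)` (derivative of the argument; use
`(kp^2 cos u + sn^2)^2 + (kp sin u)^2 = 1 - kp^2 sn^2 (1 - cos u)^2`).
With `om = kp/sn^2` (`om_eq`): `A z := om - a z = kp (kp^2/sn^2 + sn^2 z - kp^2 z^2) /
(1 - kp^2 sn^2 z^2)`; `B z := 2 bt (kp sn)^4 z^3 √(z (2 - z))` (`sin u = √(z (2 - z))`);
`w' = A z - B z`.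
(1) `0 ≤ z ≤ 1`: `A z ≥ kp^3/sn^2 > 0.65` (`sn^2 z ≥ kp^2 z^2`, denominator `≤ 1`) and
`B z ≤ 2 bt (kp sn)^4 < 0.51`. So `w` is increasing on `[0, π/2]`.
(2) `1 ≤ z ≤ 1/kp (≤ 1.4365)`: `w'` is strictly decreasing:
`A' z = kp sn^2 (1 - 2 kp^2 z + kp^2 sn^2 z^2) / (1 - kp^2 sn^2 z^2)^2` and
`1 - 2 kp^2 z + kp^2 sn^2 z^2` is decreasing for `z ≤ 1/sn^2`, `0.29 ≥ ... ≥ 0`; the denominator is
at least `(1 - sn^2)^2 = kp^4 > 0.234`; so `0 ≤ A' z ≤ 0.36 * 0.29 / 0.234 < 0.45`. With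
`k = z - 1 ∈ [0, 0.4365]`: `B = 2 bt (kp sn)^4 (1 + k)^3 √(1 - k^2)`,
`B' = 2 bt (kp sn)^4 (1 + k)^3 (3 - 4 k) / √(1 - k^2) ≥ 0.505 * 3 * ... ≥ 1.5`
(`(1+k)^3 (3-4k) ≥ 3` on `[0, 0.4365]`). In the variable `u`: `w'' = (A' z - B' z) sin u < 0`.
(3) `w' us = 0`: this is the definition of `bt` (`cos us = 1 - √3/(2 kp)`, so
`z = √3/(2 kp)`, `kp^2 sn^2 z^2 = 3/4 sn^2`, `2 bt (kp sn)^4 z^3 sin us = bt 3√3/4 kp^2 sn^3`).
`us ∈ (π/2, π)` and its `z` is `< 1/kp`. So `w` is maximal at `us`, and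
`w us = Ws` by `arg_us` and `Sf us r = kp sn √3/(2 kp) = √3/2 sn`, `(√3/2)^4 / 2 = 9/32`.
Lean: it is convenient to show `w' ≥ 0` on `(0, us)` and `w' ≤ 0` on `(us, u₁)`, `cos u₁ = 1 - 1/kp`,
with `monotoneOn_of_deriv_nonneg` and `antitoneOn_of_deriv_nonpos`. -/
theorem gw_end_lt {u : ℝ} (hu : 0 ≤ u) (hu' : u ≤ π) (h : 1 - 1 / kp ≤ cos u) (hne : u ≠ us) :
    Wf u (arccos kp) < Ws := by
  have us1 := us_lo
  have us2 := us_hi
  have hp := pi_gt_d6
  have hkp := kp_pos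
  rw [← e_val]
  rcases lt_or_gt_of_ne hne with hus | hus
  · have hm : StrictMonoOn (fun u => Wf u (arccos kp)) (Set.Icc u us) := by
      refine strictMonoOn_of_deriv_pos (convex_Icc _ _)
        (fun y _ => (e_deriv y).continuousAt.continuousWithinAt) ?_
      intro y hy
      rw [interior_Icc] at hy
      rw [(e_deriv y).deriv]
      refine (e_sign (hu.trans hy.1.le) (by linarith [hy.2]) ?_).1 hy.2
      have g1 : cos us ≤ cos y :=
        cos_le_cos_of_nonneg_of_le_pi (hu.trans hy.1.le) (by linarith) hy.2.le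
      have g2 := zs_eq
      have g3 : zs ≤ 1 / kp := by
        unfold zs
        have h5 : √3 ≤ 2 := by
          rw [sqrt_le_left (by norm_num)]
          norm_num
        rw [div_le_div_iff₀ (by positivity) hkp]
        nlinarith
      linarith
    exact hm ⟨le_rfl, hus.le⟩ ⟨hus.le, le_rfl⟩ hus
  · have hm : StrictAntiOn (fun u => Wf u (arccos kp)) (Set.Icc us u) := by
      refine strictAntiOn_of_deriv_neg (convex_Icc _ _)
        (fun y _ => (e_deriv y).continuousAt.continuousWithinAt) ?_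
      intro y hy
      rw [interior_Icc] at hy
      rw [(e_deriv y).deriv]
      refine (e_sign (by linarith [hy.1]) (hy.2.le.trans hu') ?_).2 hy.1
      exact h.trans (cos_le_cos_of_nonneg_of_le_pi (by linarith [hy.1]) hu' hy.2.le)
    exact hm ⟨le_rfl, hus.le⟩ ⟨hus.le, le_rfl⟩ hus

end Pool.Agent.C9
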