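import Pool.Agent.Lib.MP_488b8a_co_Y.EqA
import Pool.Agent.Lib.MP_488b8a_co_Y.EqEnd
import Pool.Agent.Lib.MP_488b8a_co_Y.EqN

/-! # Project C9u, module EqG: the equality case of the main inequality `good_W` -/

set_option autoImplicit false

namespace Pool.Agent.C9

open Real Pool.Agent.C32 ComplexConjugate

/-- PROOF. As `gw0` and `good_W` (`X/StarG.lean`). `cos v ≤ 0`: excluded by `gw_neg_lt`. Otherwise
`x' = arctan (tan x * cos v) ∈ [0, x]` and `Ws ≤ Wf u x'` (`gw_v'`).
(1) If `Sf u x' ≤ 0.48`: `gw_B` gives `y ∈ [x', arccos kp]`, `Sf u y ≤ 0.48`,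
`Wf u x' ≤ Wf u y`. If `y < arccos kp` then `Sf u y = 0.48` and `gw_A_lt`, `gw_end` give
`Wf u y < Ws`, a contradiction. If `y = arccos kp`: `Wf u y ≥ Ws`, so `u = us` by `gw_end_lt`
(its hypothesis as in `gw0`), but `Sf us (arccos kp) = √3/2 sn > 0.6` (`cos_us`, `rel`), a
contradiction.
(2) If `Sf u x' ≥ 0.48`: `x' < arccos kp` is excluded by `gw_A_lt` and `gw_end`; so
`x' = arccos kp`, hence (`x' ≤ x ≤ arccos kp`) `x = arccos kp` and `tan x * cos v = tan x`,
`cos v = 1`; and `Wf u (arccos kp) ≥ Ws` gives `u = us` (`gw_end_lt`; its hypothesis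
`1 - 1/kp ≤ cos u` is `Sf u (arccos kp) = kp sn (1 - cos u) ≤ sn`). -/
theorem good_W_eq {u v x : ℝ} (hu : 0 ≤ u) (hu' : u ≤ π) (h0 : 0 ≤ x) (h1 : x ≤ π / 2)
    (hx : kp ≤ cos x) (hP : kp ^ 2 ≤ Complex.normSq (Pf u v x))
    (h : om * us - (ph kp (π - us) + ph kp (π / 3)) - 9 / 32 * bt * sn ^ 4 ≤
      om * u - Complex.arg (Pf u v x) - bt / 2 * (1 - Complex.normSq (Pf u v x)) ^ 2) :
    u = us ∧ x = arccos kp ∧ cos v = 1 := by
  have hp := pi_pos
  have hk := kp_pos
  have hs := sn_pos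
  have hr := r_lt
  have hr0 := r_pos
  have hWs : Ws ≤ om * u - Complex.arg (Pf u v x) -
      bt / 2 * (1 - Complex.normSq (Pf u v x)) ^ 2 := h
  have h2 : x ≤ arccos kp := by
    have h3 := arccos_le_arccos hx
    rwa [arccos_cos h0 (by linarith)] at h3
  rcases le_or_gt (cos v) 0 with hv | hv
  · exact absurd (gw_neg_lt hu hu' h0 h1 hx hv) (not_lt.2 hWs)
  obtain ⟨a3, a4⟩ := gw_v' h0 h2 hv.le hP
  obtain ⟨y, hy⟩ : ∃ y, y = arctan (tan x * cos v) := ⟨_, rfl⟩
  rw [← hy] at a3 a4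
  have htx : 0 ≤ tan x := tan_nonneg_of_nonneg_of_le_pi_div_two h0 h1
  have y0 : 0 ≤ y := by
    rw [hy]
    exact arctan_nonneg.2 (mul_nonneg htx hv.le)
  have yx : y ≤ x := by
    rw [hy]
    calc arctan (tan x * cos v) ≤ arctan (tan x) :=
          arctan_mono (mul_le_of_le_one_right htx (cos_le_one v))
      _ = x := arctan_tan (by linarith) (by linarith)
  have hW : Ws ≤ Wf u y := hWs.trans a4
  have key : ∀ z, 0 ≤ z → z < arccos kp → 0.48 ≤ Sf u z → Sf u z ≤ sn → Wf u z < Ws := by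
    intro z z0 z1 g1 g2
    obtain ⟨u', b1, b2, b3, b4⟩ := gw_A_lt hu hu' z0 z1 g1 g2
    exact b4.trans_le (gw_end b1 b2 b3)
  have hend : Sf u (arccos kp) ≤ sn → Ws ≤ Wf u (arccos kp) → u = us := by
    intro g1 g2
    by_contra hne
    refine absurd (gw_end_lt hu hu' ?_ hne) (not_lt.2 g2)
    unfold Sf at g1
    rw [cos_r, sin_r] at g1
    have h4 : kp * (1 - cos u) * sn ≤ 1 * sn := by linarith
    have h5 : kp * (1 - cos u) ≤ 1 := le_of_mul_le_mul_right h4 hs
    have h6 : 1 - cos u ≤ 1 / kp := by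
      rw [le_div_iff₀ hk]
      linarith
    linarith
  have hsn48 : (0.48 : ℝ) < sn := lt_trans (by norm_num) sn_lo
  rcases le_total (Sf u y) 0.48 with hS | hS
  · exfalso
    obtain ⟨z, b1, b2, b3, b4, b5⟩ := gw_B hu hu' y0 (yx.trans h2) hS
    rcases eq_or_lt_of_le b2 with e | e
    · have hu1 := hend (by rw [← e]; exact b3.trans hsn48.le) (by rw [← e]; exact hW.trans b5)
      rw [hu1, e] at b3
      unfold Sf at b3
      rw [cos_r, sin_r, cos_us] at b3
      have e1 : kp * sn - sn * kp * (1 - √3 / (2 * kp)) = sn * √3 / 2 := by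
        field_simp
        ring
      rw [e1] at b3
      have h3 : (1.7 : ℝ) < √3 := lt_sqrt_of_sq_lt (by norm_num)
      have h4 := sn_lo
      nlinarith
    · have e1 : Sf u z = 0.48 := b4.resolve_left e.ne
      exact absurd (key z (y0.trans b1) e e1.ge (by rw [e1]; exact hsn48.le))
        (not_lt.2 (hW.trans b5))
  · have e : y = arccos kp := by
      by_contra hne
      exact absurd (key y y0 (lt_of_le_of_ne (yx.trans h2) hne) hS a3) (not_lt.2 hW)
    have hu1 := hend (by rw [← e]; exact a3) (by rw [← e]; exact hW)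
    have ex : x = arccos kp := le_antisymm h2 (by rw [← e]; exact yx)
    refine ⟨hu1, ex, ?_⟩
    have e1 : tan x * cos v = tan x := by
      have e2 : tan y = tan x * cos v := by rw [hy, tan_arctan]
      rw [← e2, e, ex]
    have e3 : 0 < tan x := by
      rw [ex]
      exact tan_pos_of_pos_of_lt_pi_div_two hr0 hr
    exact mul_left_cancel₀ e3.ne' (by rw [e1, mul_one])

end Pool.Agent.C9
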