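import Pool.Agent.Lib.MP_488b8a_co_Y.E9by
import Pool.Agent.Lib.MP_488b8a_co_X.E9c
import Pool.Agent.Lib.MP_488b8a_co_X.Star

/-! # Project C9, stage 2, module Ey: the facet `T T T`, equality case -/

set_option autoImplicit false

namespace Pool.Agent.C9

open Real Pool.Agent.C32

private theorem ey_rhs : 3 * Hf (π / 3) = 6 * ph kp (π / 3) + 27 / 16 * bt * sn ^ 4 := by
  unfold Hf
  rw [sin_pi_div_three]
  have h3 : √3 ^ 2 = (3 : ℝ) := sq_sqrt (by norm_num)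
  have h4 : (√3 / 2) ^ 4 = (9 / 16 : ℝ) := by
    have : (√3 / 2) ^ 4 = (√3 ^ 2) ^ 2 / 16 := by ring
    rw [this, h3]
    norm_num
  rw [h4]
  ring

private theorem ey_sq {c : ℝ} (hc : kp ≤ c) (hc1 : c < 1) (z : ℝ) :
    bt * ((1 - c ^ 2) * sin z ^ 2) ^ 2 ≤ bt * sn ^ 4 * sin z ^ 4 := by
  have hk := kp_pos
  have h1 := kp_sn
  have h2 : 1 - c ^ 2 ≤ sn ^ 2 := by nlinarith
  have h3 : 0 ≤ 1 - c ^ 2 := by nlinarith
  have h4 : (1 - c ^ 2) ^ 2 ≤ (sn ^ 2) ^ 2 := by gcongr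
  have h5 : 0 ≤ sin z ^ 4 := by positivity
  have h6 : (1 - c ^ 2) ^ 2 * sin z ^ 4 ≤ (sn ^ 2) ^ 2 * sin z ^ 4 :=
    mul_le_mul_of_nonneg_right h4 h5
  calc bt * ((1 - c ^ 2) * sin z ^ 2) ^ 2 = bt * ((1 - c ^ 2) ^ 2 * sin z ^ 4) := by ring
    _ ≤ bt * ((sn ^ 2) ^ 2 * sin z ^ 4) := mul_le_mul_of_nonneg_left h6 bt_pos.le
    _ = bt * sn ^ 4 * sin z ^ 4 := by ring

private theorem ey_obt {c a b d : ℝ} (hc : kp ≤ c) (hc1 : c < 1) (ha : 0 < a) (hb : 0 < b)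
    (hd : π / 2 ≤ d) (hs : a + b + d = π) :
    2 * (ph c a + ph c b + ph c d) +
      (bt * ((1 - c ^ 2) * sin a ^ 2) ^ 2 + bt * ((1 - c ^ 2) * sin b ^ 2) ^ 2 +
        bt * ((1 - c ^ 2) * sin d ^ 2) ^ 2) < 3 * Hf (π / 3) := by
  have hp := pi_pos
  have hab : a + b ≤ π / 2 := by linarith
  have hde : d = π - (a + b) := by linarith
  have h1 : ph c d = -ph c (a + b) := by
    rw [hde]
    exact ph_pi_sub (kp_pos.trans_le hc) (by linarith) (by linarith)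
  have h2 : sin d = sin (a + b) := by rw [hde, sin_pi_sub]
  have h3 := E_obt ha.le hb.le hab
  have h4 := ph_sub_mono (c := kp) (c' := c) (by linarith [kp_lo]) hc hc1.le ha.le hb.le hab
  have s1 := ey_sq hc hc1 a
  have s2 := ey_sq hc hc1 b
  have s3 := ey_sq hc hc1 d
  rw [h2] at s3
  rw [h1, h2]
  linarith

private theorem ey_small {c a b d : ℝ} (hc : kp ≤ c) (hc1 : c < 1) (ha : 0 < a) (ha' : a ≤ 0.58)
    (hb : 0 < b) (hb' : b ≤ π / 2) (hd : 0 < d) (hd' : d ≤ π / 2) (hs : a + b + d = π) :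
    2 * (ph c a + ph c b + ph c d) +
      (bt * ((1 - c ^ 2) * sin a ^ 2) ^ 2 + bt * ((1 - c ^ 2) * sin b ^ 2) ^ 2 +
        bt * ((1 - c ^ 2) * sin d ^ 2) ^ 2) < 3 * Hf (π / 3) := by
  have hp := pi_gt_three
  have h3 := E_small ha.le ha' hb.le hb' hd.le hd' hs
  have s1 := ey_sq hc hc1 a
  have s2 := ey_sq hc hc1 b
  have s3 := ey_sq hc hc1 d
  have m1 := ph_mono_c kp_pos hc ha.le (by norm_num at ha'; linarith)
  have m2 := ph_mono_c kp_pos hc hb.le hb'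
  have m3 := ph_mono_c kp_pos hc hd.le hd'
  unfold Hf at h3 ⊢
  linarith

private theorem ey_tan {z : ℝ} (h0 : 0.58 ≤ z) (h1 : z ≤ π / 2) (hz : z ≠ π / 3) :
    Hf z < Hf (π / 3) + hs60 * (z - π / 3) := by
  rcases le_total z (π / 4) with h2 | h2
  · exact Hf_lo_lt h0 h2
  rcases lt_or_gt_of_ne hz with h3 | h3
  · exact Hf_mid_lt h2 h3
  · exact Hf_hi_lt h3 h1

private theorem ey_tan' {z : ℝ} (h0 : 0.58 ≤ z) (h1 : z ≤ π / 2) :
    Hf z ≤ Hf (π / 3) + hs60 * (z - π / 3) := by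
  by_cases hz : z = π / 3
  · rw [hz]
    linarith
  · exact (ey_tan h0 h1 hz).le

/-- PROOF. As `E_real`, with the strict tangent lines. -/
theorem E_real' {c a b d : ℝ} (hc : kp ≤ c) (hc1 : c < 1) (ha : 0 < a) (hb : 0 < b) (hd : 0 < d)
    (hs : a + b + d = π) :
    2 * (ph c a + ph c b + ph c d) +
      bt * (((1 - c ^ 2) * sin a ^ 2) ^ 2 + ((1 - c ^ 2) * sin b ^ 2) ^ 2 +
        ((1 - c ^ 2) * sin d ^ 2) ^ 2) ≤ 6 * ph kp (π / 3) + 27 / 16 * bt * sn ^ 4 ∧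
    (6 * ph kp (π / 3) + 27 / 16 * bt * sn ^ 4 ≤ 2 * (ph c a + ph c b + ph c d) +
      bt * (((1 - c ^ 2) * sin a ^ 2) ^ 2 + ((1 - c ^ 2) * sin b ^ 2) ^ 2 +
        ((1 - c ^ 2) * sin d ^ 2) ^ 2) → c = kp ∧ a = π / 3 ∧ b = π / 3 ∧ d = π / 3) := by
  rw [← ey_rhs, mul_add bt, mul_add bt]
  have hstr : 2 * (ph c a + ph c b + ph c d) +
      (bt * ((1 - c ^ 2) * sin a ^ 2) ^ 2 + bt * ((1 - c ^ 2) * sin b ^ 2) ^ 2 +
        bt * ((1 - c ^ 2) * sin d ^ 2) ^ 2) < 3 * Hf (π / 3) →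
      (2 * (ph c a + ph c b + ph c d) +
      (bt * ((1 - c ^ 2) * sin a ^ 2) ^ 2 + bt * ((1 - c ^ 2) * sin b ^ 2) ^ 2 +
        bt * ((1 - c ^ 2) * sin d ^ 2) ^ 2) ≤ 3 * Hf (π / 3) ∧
      (3 * Hf (π / 3) ≤ 2 * (ph c a + ph c b + ph c d) +
      (bt * ((1 - c ^ 2) * sin a ^ 2) ^ 2 + bt * ((1 - c ^ 2) * sin b ^ 2) ^ 2 +
        bt * ((1 - c ^ 2) * sin d ^ 2) ^ 2) → c = kp ∧ a = π / 3 ∧ b = π / 3 ∧ d = π / 3)) :=
    fun h => ⟨h.le, fun h' => absurd h (not_lt.2 h')⟩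
  rcases le_or_gt (π / 2) a with h | a2
  · have := ey_obt hc hc1 hb hd h (by linarith)
    exact hstr (by linarith)
  rcases le_or_gt (π / 2) b with h | b2
  · have := ey_obt hc hc1 hd ha h (by linarith)
    exact hstr (by linarith)
  rcases le_or_gt (π / 2) d with h | d2
  · have := ey_obt hc hc1 ha hb h hs
    exact hstr (by linarith)
  rcases le_total a 0.58 with h | a1
  · have := ey_small hc hc1 ha h hb b2.le hd d2.le hs
    exact hstr (by linarith)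
  rcases le_total b 0.58 with h | b1
  · have := ey_small hc hc1 hb h hd d2.le ha a2.le (by linarith)
    exact hstr (by linarith)
  rcases le_total d 0.58 with h | d1
  · have := ey_small hc hc1 hd h ha a2.le hb b2.le (by linarith)
    exact hstr (by linarith)
  have t1 := ey_tan' a1 a2.le
  have t2 := ey_tan' b1 b2.le
  have t3 := ey_tan' d1 d2.le
  have s1 := ey_sq hc hc1 a
  have s2 := ey_sq hc hc1 b
  have s3 := ey_sq hc hc1 d
  have m1 := ph_mono_c kp_pos hc ha.le a2.le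
  have m2 := ph_mono_c kp_pos hc hb.le b2.le
  have m3 := ph_mono_c kp_pos hc hd.le d2.le
  have e : hs60 * (a - π / 3) + hs60 * (b - π / 3) + hs60 * (d - π / 3) = 0 := by
    have : a + b + d - π = 0 := by linarith
    linear_combination hs60 * this
  have u1 : Hf a = 2 * ph kp a + bt * sn ^ 4 * sin a ^ 4 := rfl
  have u2 : Hf b = 2 * ph kp b + bt * sn ^ 4 * sin b ^ 4 := rfl
  have u3 : Hf d = 2 * ph kp d + bt * sn ^ 4 * sin d ^ 4 := rfl
  refine ⟨by linarith, fun h => ?_⟩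
  refine ⟨?_, ?_, ?_, ?_⟩
  · rcases hc.lt_or_eq with h1 | h1
    · have := ph_mono_c_lt kp_pos h1 ha a2
      linarith
    · exact h1.symm
  · by_contra hne
    have := ey_tan a1 a2.le hne
    linarith
  · by_contra hne
    have := ey_tan b1 b2.le hne
    linarith
  · by_contra hne
    have := ey_tan d1 d2.le hne
    linarith

private theorem ey_gram {x y : E3} {c a : ℝ} (h : inner ℝ x y = gram c a) :
    s4 x y = ((1 - c ^ 2) * sin a ^ 2) ^ 2 := by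
  unfold s4
  rw [h]
  unfold gram
  ring

/-- the facet `T T T` in the limit. PROOF. `ang_par`, `E_real'`. -/
theorem E_par' {x y z : E3} (hx : ‖x‖ = 1) (hy : ‖y‖ = 1) (hz : ‖z‖ = 1) {c a b d : ℝ}
    (hc : kp ≤ c) (h : Par x y z c a b d) :
    asum x y z + bt * (s4 x y + s4 y z + s4 z x) ≤
      6 * ph kp (π / 3) + 27 / 16 * bt * sn ^ 4 ∧
    (6 * ph kp (π / 3) + 27 / 16 * bt * sn ^ 4 ≤
      asum x y z + bt * (s4 x y + s4 y z + s4 z x) →
      inner ℝ x y = 1 - 3 / 2 * sn ^ 2 ∧ inner ℝ y z = 1 - 3 / 2 * sn ^ 2 ∧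
        inner ℝ z x = 1 - 3 / 2 * sn ^ 2) := by
  have h1 := par_rot h
  have h2 := par_rot h1
  unfold asum
  rw [ang_par hx hy hz h, ang_par hy hz hx h1, ang_par hz hx hy h2]
  obtain ⟨-, hc1, ha, hb, hd, hs, e1, e2, e3⟩ := h
  rw [ey_gram e1, ey_gram e2, ey_gram e3]
  obtain ⟨g1, g2⟩ := E_real' hc hc1 ha hb hd hs
  refine ⟨by linarith, fun h3 => ?_⟩
  obtain ⟨k1, k2, k3, k4⟩ := g2 (by linarith)
  have hk := kp_sn
  have h3 : √3 ^ 2 = (3 : ℝ) := sq_sqrt (by norm_num)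
  have h6 : gram kp (π / 3) = 1 - 3 / 2 * sn ^ 2 := by
    unfold gram
    rw [sin_pi_div_three, div_pow, h3]
    linear_combination (3 / 2 : ℝ) * hk
  rw [e1, e2, e3, k1, k2, k3, k4]
  exact ⟨h6, h6, h6⟩

end Pool.Agent.C9
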