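import Pool.Agent.Lib.MP_488b8a_co_X.Up9
import Pool.Agent.Lib.MP_488b8a_co_W.Iso

/-! # Project C9, stage 2, module Geo9: the nine points from inner products and sides -/

set_option autoImplicit false

namespace Pool.Agent.C9Y

open Real Pool.Agent.C32 Pool.Agent.C9

/-- product of two determinants with two common vectors -/
theorem dt_mul (x y z w : E3) : dt x y z * dt x y w =
    inner ℝ x x * (inner ℝ y y * inner ℝ z w - inner ℝ y w * inner ℝ z y) -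
      inner ℝ x y * (inner ℝ y x * inner ℝ z w - inner ℝ y w * inner ℝ z x) +
      inner ℝ x w * (inner ℝ y x * inner ℝ z y - inner ℝ y y * inner ℝ z x) := by
  simp only [inner_eq, dt]
  ring

theorem dt_mul_iso (g : E3 ≃ₗᵢ[ℝ] E3) (x y z w : E3) :
    dt (g x) (g y) (g z) * dt (g x) (g y) (g w) = dt x y z * dt x y w := by
  rw [dt_mul, dt_mul]
  simp only [LinearIsometryEquiv.inner_map_map]

/-- a unit vector is determined by two inner products and the side -/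
theorem side_unique {x y z z' : E3} (hz : ‖z‖ = 1) (hz' : ‖z'‖ = 1)
    (h1 : inner ℝ z x = inner ℝ z' x) (h2 : inner ℝ z y = inner ℝ z' y)
    (hs : 0 < dt x y z * dt x y z') : z = z' := by
  have hv : vx x y ≠ 0 := by
    intro h0
    have h3 : dt x y z = 0 := by
      rw [← dt_rot, ← dt_rot, ← inner_vx, h0, inner_zero_right]
    rw [h3, zero_mul] at hs
    exact lt_irrefl _ hs
  have e1 : inner ℝ (z - z') x = (0 : ℝ) := by rw [inner_sub_left, h1, sub_self]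
  have e2 : inner ℝ (z - z') y = (0 : ℝ) := by rw [inner_sub_left, h2, sub_self]
  obtain ⟨s, hs'⟩ := eq_smul_vx hv e1 e2
  have e3 : z = z' + s • vx x y := by rw [← hs']; abel
  have d1 : inner ℝ z (vx x y) = dt x y z := by rw [inner_vx, ← dt_rot, ← dt_rot]
  have d2 : inner ℝ z' (vx x y) = dt x y z' := by rw [inner_vx, ← dt_rot, ← dt_rot]
  have hzz : inner ℝ z z = (1 : ℝ) := by rw [real_inner_self_eq_norm_sq, hz, one_pow]
  have hzz' : inner ℝ z' z' = (1 : ℝ) := by rw [real_inner_self_eq_norm_sq, hz', one_pow]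
  have e4 : s * (dt x y z + dt x y z') = 0 := by
    have h5 : inner ℝ (z - z') (z + z') = (0 : ℝ) := by
      rw [inner_sub_left, inner_add_right, inner_add_right, hzz, hzz', real_inner_comm z z']
      ring
    rw [hs', real_inner_smul_left, inner_add_right, real_inner_comm z (vx x y),
      real_inner_comm z' (vx x y), d1, d2] at h5
    exact h5
  rcases mul_eq_zero.1 e4 with h6 | h6
  · rw [e3, h6, zero_smul, add_zero]
  · exfalso
    have h7 : dt x y z = -dt x y z' := by linarith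
    rw [h7] at hs
    nlinarith [sq_nonneg (dt x y z')]

section pts

private theorem r3 : √3 ^ 2 = (3 : ℝ) := Real.sq_sqrt (by norm_num)

/-- the inner products of the nine points which are used -/
theorem pt9_inner :
    (inner ℝ (pt9 0) (pt9 1) : ℝ) = 1 - 3 / 2 * sn ^ 2 ∧
    (inner ℝ (pt9 1) (pt9 2) : ℝ) = 1 - 3 / 2 * sn ^ 2 ∧
    (inner ℝ (pt9 2) (pt9 0) : ℝ) = 1 - 3 / 2 * sn ^ 2 ∧
    (inner ℝ (pt9 8) (pt9 0) : ℝ) = sn / 2 ∧ (inner ℝ (pt9 8) (pt9 1) : ℝ) = sn / 2 ∧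
    (inner ℝ (pt9 6) (pt9 1) : ℝ) = sn / 2 ∧ (inner ℝ (pt9 6) (pt9 2) : ℝ) = sn / 2 ∧
    (inner ℝ (pt9 7) (pt9 2) : ℝ) = sn / 2 ∧ (inner ℝ (pt9 7) (pt9 0) : ℝ) = sn / 2 ∧
    (inner ℝ (pt9 8) (pt9 4) : ℝ) = sn / 2 ∧ (inner ℝ (pt9 1) (pt9 4) : ℝ) = sn ^ 2 - kp ^ 2 ∧
    (inner ℝ (pt9 8) (pt9 3) : ℝ) = sn / 2 ∧ (inner ℝ (pt9 0) (pt9 3) : ℝ) = sn ^ 2 - kp ^ 2 ∧
    (inner ℝ (pt9 6) (pt9 5) : ℝ) = sn / 2 ∧ (inner ℝ (pt9 2) (pt9 5) : ℝ) = sn ^ 2 - kp ^ 2 := by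
  have h3 := r3
  have hk := kp_sn
  have h4 : sn * √3 ^ 2 = sn * 3 := by rw [h3]
  have h5 : sn ^ 2 * √3 ^ 2 = sn ^ 2 * 3 := by rw [h3]
  refine ⟨?_, ?_, ?_, ?_, ?_, ?_, ?_, ?_, ?_, ?_, ?_, ?_, ?_, ?_, ?_⟩ <;>
    rw [inner_eq] <;> simp [pt9] <;> linarith

/-- the determinants of the nine points which are used -/
theorem pt9_dt :
    dt (pt9 0) (pt9 1) (pt9 2) = 3 / 2 * kp * √3 * sn ^ 2 ∧
    dt (pt9 0) (pt9 1) (pt9 8) = -(kp * √3 * sn) ∧
    dt (pt9 1) (pt9 2) (pt9 0) = 3 / 2 * kp * √3 * sn ^ 2 ∧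
    dt (pt9 1) (pt9 2) (pt9 6) = -(kp * √3 * sn) ∧
    dt (pt9 2) (pt9 0) (pt9 1) = 3 / 2 * kp * √3 * sn ^ 2 ∧
    dt (pt9 2) (pt9 0) (pt9 7) = -(kp * √3 * sn) ∧
    dt (pt9 8) (pt9 1) (pt9 0) = kp * √3 * sn ∧
    dt (pt9 8) (pt9 1) (pt9 4) = -(kp * √3 * sn) ∧
    dt (pt9 8) (pt9 0) (pt9 1) = -(kp * √3 * sn) ∧
    dt (pt9 8) (pt9 0) (pt9 3) = kp * √3 * sn ∧
    dt (pt9 6) (pt9 2) (pt9 1) = kp * √3 * sn ∧
    dt (pt9 6) (pt9 2) (pt9 5) = -(kp * √3 * sn) := by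
  refine ⟨?_, ?_, ?_, ?_, ?_, ?_, ?_, ?_, ?_, ?_, ?_, ?_⟩ <;> simp [pt9, dt] <;> ring

/-- the step of the uniqueness proof: `p i = g (pt9 i)` for `i = a, b, l` implies the same for `k`,
if `k` and `l` are on different sides of the plane of `a`, `b` -/
theorem geo_step {p : Fin 9 → E3} (hp : ∀ i, ‖p i‖ = 1) {g : E3 ≃ₗᵢ[ℝ] E3} {a b l k : Fin 9}
    (ha : p a = g (pt9 a)) (hb : p b = g (pt9 b)) (hl : p l = g (pt9 l))
    (h1 : inner ℝ (p a) (p k) = inner ℝ (pt9 a) (pt9 k))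
    (h2 : inner ℝ (p b) (p k) = inner ℝ (pt9 b) (pt9 k))
    (ho : dt (p a) (p b) (p l) * dt (p a) (p b) (p k) < 0)
    (ho' : dt (pt9 a) (pt9 b) (pt9 l) * dt (pt9 a) (pt9 b) (pt9 k) < 0) : p k = g (pt9 k) := by
  have e := dt_mul_iso g (pt9 a) (pt9 b) (pt9 l) (pt9 k)
  rw [← ha, ← hb, ← hl] at e
  refine side_unique (x := p a) (y := p b) (hp k) ?_ ?_ ?_ ?_
  · rw [LinearIsometryEquiv.norm_map]
    exact pt9_norm k
  · rw [real_inner_comm, h1, real_inner_comm (p a) (g (pt9 k)), ha,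
      LinearIsometryEquiv.inner_map_map]
  · rw [real_inner_comm, h2, real_inner_comm (p b) (g (pt9 k)), hb,
      LinearIsometryEquiv.inner_map_map]
  · rw [← e] at ho'
    have h3 := mul_pos_of_neg_of_neg ho ho'
    have h4 : 0 < (dt (p a) (p b) (p k) * dt (p a) (p b) (g (pt9 k))) *
        (dt (p a) (p b) (p l)) ^ 2 := by linarith
    exact (pos_iff_pos_of_mul_pos h4).2 (by
      have h5 : dt (p a) (p b) (p l) ≠ 0 := by
        intro h0
        rw [h0, zero_mul] at ho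
        exact lt_irrefl _ ho
      positivity)

/-- the nine points are determined, up to an isometry, by the inner products and sides in the
triangulation `4^3 5^6` -/
theorem geo_nine {p : Fin 9 → E3} (hp : ∀ i, ‖p i‖ = 1)
    (t1 : inner ℝ (p 0) (p 1) = 1 - 3 / 2 * sn ^ 2) (t2 : inner ℝ (p 1) (p 2) = 1 - 3 / 2 * sn ^ 2)
    (t3 : inner ℝ (p 2) (p 0) = 1 - 3 / 2 * sn ^ 2)
    (c1 : inner ℝ (p 8) (p 0) = sn / 2) (c2 : inner ℝ (p 8) (p 1) = sn / 2)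
    (c3 : inner ℝ (p 6) (p 1) = sn / 2) (c4 : inner ℝ (p 6) (p 2) = sn / 2)
    (c5 : inner ℝ (p 7) (p 2) = sn / 2) (c6 : inner ℝ (p 7) (p 0) = sn / 2)
    (b1 : inner ℝ (p 8) (p 4) = sn / 2) (b2 : inner ℝ (p 1) (p 4) = sn ^ 2 - kp ^ 2)
    (b3 : inner ℝ (p 8) (p 3) = sn / 2) (b4 : inner ℝ (p 0) (p 3) = sn ^ 2 - kp ^ 2)
    (b5 : inner ℝ (p 6) (p 5) = sn / 2) (b6 : inner ℝ (p 2) (p 5) = sn ^ 2 - kp ^ 2)
    (o1 : dt (p 0) (p 1) (p 2) * dt (p 0) (p 1) (p 8) < 0)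
    (o2 : dt (p 1) (p 2) (p 0) * dt (p 1) (p 2) (p 6) < 0)
    (o3 : dt (p 2) (p 0) (p 1) * dt (p 2) (p 0) (p 7) < 0)
    (o4 : dt (p 8) (p 1) (p 0) * dt (p 8) (p 1) (p 4) < 0)
    (o5 : dt (p 8) (p 0) (p 1) * dt (p 8) (p 0) (p 3) < 0)
    (o6 : dt (p 6) (p 2) (p 1) * dt (p 6) (p 2) (p 5) < 0) :
    ∃ g : E3 ≃ₗᵢ[ℝ] E3, ∀ i, p i = g (pt9 i) := by
  obtain ⟨i1, i2, i3, i4, i5, i6, i7, i8, i9, i10, i11, i12, i13, i14, i15⟩ := pt9_inner
  obtain ⟨d1, d2, d3, d4, d5, d6, d7, d8, d9, d10, d11, d12⟩ := pt9_dt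
  have k0 : 0 < kp := by linarith [kp_lo]
  have s0 : 0 < sn := by linarith [sn_lo]
  have r0 : 0 < √3 := by positivity
  have hself : ∀ {x y : E3}, ‖x‖ = 1 → ‖y‖ = 1 → (inner ℝ x x : ℝ) = inner ℝ y y := by
    intro x y hx hy
    rw [real_inner_self_eq_norm_sq, real_inner_self_eq_norm_sq, hx, hy]
  obtain ⟨g, g0, g1, g2⟩ := exists_iso (a := pt9 0) (b := pt9 1) (c := pt9 2) (x := p 0)
    (y := p 1) (z := p 2) (by rw [d1]; positivity) (hself (pt9_norm 0) (hp 0))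
    (hself (pt9_norm 1) (hp 1)) (hself (pt9_norm 2) (hp 2)) (by rw [i1, t1])
    (by rw [real_inner_comm, i3, real_inner_comm, t3]) (by rw [i2, t2])
  have n1 : 3 / 2 * kp * √3 * sn ^ 2 * -(kp * √3 * sn) < 0 := by
    have : 0 < 3 / 2 * kp * √3 * sn ^ 2 * (kp * √3 * sn) := by positivity
    linarith
  have n2 : kp * √3 * sn * -(kp * √3 * sn) < 0 := by
    have : 0 < kp * √3 * sn * (kp * √3 * sn) := by positivity
    linarith
  have n3 : -(kp * √3 * sn) * (kp * √3 * sn) < 0 := by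
    have : 0 < kp * √3 * sn * (kp * √3 * sn) := by positivity
    linarith
  have g8 : p 8 = g (pt9 8) := by
    refine geo_step hp (a := 0) (b := 1) (l := 2) g0.symm g1.symm g2.symm ?_ ?_ o1
      (by rw [d1, d2]; exact n1)
    · rw [real_inner_comm, c1, real_inner_comm, i4]
    · rw [real_inner_comm, c2, real_inner_comm, i5]
  have g6 : p 6 = g (pt9 6) := by
    refine geo_step hp (a := 1) (b := 2) (l := 0) g1.symm g2.symm g0.symm ?_ ?_ o2
      (by rw [d3, d4]; exact n1)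
    · rw [real_inner_comm, c3, real_inner_comm, i6]
    · rw [real_inner_comm, c4, real_inner_comm, i7]
  have g7 : p 7 = g (pt9 7) := by
    refine geo_step hp (a := 2) (b := 0) (l := 1) g2.symm g0.symm g1.symm ?_ ?_ o3
      (by rw [d5, d6]; exact n1)
    · rw [real_inner_comm, c5, real_inner_comm, i8]
    · rw [real_inner_comm, c6, real_inner_comm, i9]
  have g4 : p 4 = g (pt9 4) := by
    refine geo_step hp (a := 8) (b := 1) (l := 0) g8 g1.symm g0.symm ?_ ?_ o4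
      (by rw [d7, d8]; exact n2)
    · rw [b1, i10]
    · rw [b2, i11]
  have g3 : p 3 = g (pt9 3) := by
    refine geo_step hp (a := 8) (b := 0) (l := 1) g8 g0.symm g1.symm ?_ ?_ o5
      (by rw [d9, d10]; exact n3)
    · rw [b3, i12]
    · rw [b4, i13]
  have g5 : p 5 = g (pt9 5) := by
    refine geo_step hp (a := 6) (b := 2) (l := 1) g6 g2.symm g1.symm ?_ ?_ o6
      (by rw [d11, d12]; exact n2)
    · rw [b5, i14]
    · rw [b6, i15]
  refine ⟨g, fun i => ?_⟩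
  fin_cases i
  · exact g0.symm
  · exact g1.symm
  · exact g2.symm
  · exact g3
  · exact g4
  · exact g5
  · exact g6
  · exact g7
  · exact g8

end pts

end Pool.Agent.C9Y
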