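import Pool.Agent.Lib.MP_488b8a_co_X.StarP
import Pool.Agent.Lib.MP_488b8a_co_X.Oc

/-! # Project C9u, module StP: closed versions of `exists_O` and `star_phase` -/

set_option autoImplicit false

namespace Pool.Agent.C9

open Real Pool.Agent.C32 ComplexConjugate

/-- PROOF. Copy of `exists_O` (`X/Oc.lean`): now `kp * ‖N‖ ≤ 1`, so
`0 ≤ (1 - 2 kp^2 s)/(1 - m^2)`, `g ≥ 0`. -/
theorem exists_O' {C T B N : E3} (hC : ‖C‖ = 1) (hT : ‖T‖ = 1) (hB : ‖B‖ = 1)
    (h1 : inner ℝ N C = 1) (h2 : inner ℝ N T = 1) (h3 : inner ℝ N B = 1)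
    (hc : kp ≤ 1 / ‖N‖) (hd : 0 < dt C T B) :
    ∃ O : E3, ‖O‖ = 1 ∧ inner ℝ O T = kp ∧ inner ℝ O B = kp ∧ 0 ≤ dt O T B ∧
      kp ≤ inner ℝ O C := by
  obtain ⟨m, hm⟩ : ∃ m : ℝ, m = inner ℝ T B := ⟨_, rfl⟩
  obtain ⟨V, hV⟩ : ∃ V : E3, V = vx T B := ⟨_, rfl⟩
  have hTT : inner ℝ T T = 1 := by rw [real_inner_self_eq_norm_sq, hT, one_pow]
  have hBB : inner ℝ B B = 1 := by rw [real_inner_self_eq_norm_sq, hB, one_pow]
  have hBT : inner ℝ B T = m := by rw [real_inner_comm, hm]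
  have hTB : inner ℝ T B = m := hm.symm
  have hTV : inner ℝ T V = 0 := by rw [hV, inner_vx_left]
  have hBV : inner ℝ B V = 0 := by rw [hV, inner_vx_right]
  have hVT : inner ℝ V T = 0 := by rw [real_inner_comm, hTV]
  have hVB : inner ℝ V B = 0 := by rw [real_inner_comm, hBV]
  have hCV : inner ℝ C V = dt C T B := by rw [hV, inner_vx]
  have hVC : inner ℝ V C = dt C T B := by rw [real_inner_comm, hCV]
  have hV2 : ‖V‖ ^ 2 = 1 - m ^ 2 := by rw [hV, vx_norm_sq, hTT, hBB, hTB, one_mul]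
  have hVV : inner ℝ V V = 1 - m ^ 2 := by rw [real_inner_self_eq_norm_sq, hV2]
  have hVne : V ≠ 0 := by
    intro h0
    rw [h0, inner_zero_right] at hCV
    linarith
  have h1m2 : 0 < 1 - m ^ 2 := by
    rw [← hV2]
    exact pow_pos (norm_pos_iff.2 hVne) 2
  have h1m : 0 < 1 + m := by nlinarith
  obtain ⟨s, hs⟩ : ∃ s : ℝ, s = (1 + m)⁻¹ := ⟨_, rfl⟩
  have hs1 : s * (1 + m) = 1 := by rw [hs, inv_mul_cancel₀ h1m.ne']
  obtain ⟨z, hz⟩ : ∃ z : ℝ, N - s • (T + B) = z • V := by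
    rw [hV]
    refine eq_smul_vx (by rwa [← hV]) ?_ ?_
    · rw [inner_sub_left, real_inner_smul_left, inner_add_left, h2, hTT, hBT, hs1, sub_self]
    · rw [inner_sub_left, real_inner_smul_left, inner_add_left, h3, hTB, hBB, add_comm m 1, hs1,
        sub_self]
  have hN : N = s • (T + B) + z • V := by
    rw [← hz]
    abel
  have hsq : ∀ x y : ℝ, ‖(x * s) • (T + B) + y • V‖ ^ 2 = 2 * x ^ 2 * s + y ^ 2 * (1 - m ^ 2) := by
    intro x y
    rw [← real_inner_self_eq_norm_sq]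
    simp only [inner_add_left, inner_add_right, real_inner_smul_left, real_inner_smul_right,
      hTT, hBB, hBT, hTB, hTV, hBV, hVT, hVB, hVV]
    linear_combination (2 * x ^ 2 * s) * hs1
  have hN2 : ‖N‖ ^ 2 = 2 * s + z ^ 2 * (1 - m ^ 2) := by
    have h4 := hsq 1 z
    rw [one_mul, ← hN] at h4
    rw [h4]
    ring
  have hNC : s * inner ℝ (T + B) C + z * dt C T B = 1 := by
    rw [← hVC, ← real_inner_smul_left, ← real_inner_smul_left, ← inner_add_left, ← hN, h1]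
  have hkp : 0 < kp := by
    unfold kp
    positivity
  have hNne : N ≠ 0 := by
    intro h0
    rw [h0, inner_zero_left] at h1
    exact zero_ne_one h1
  have hNpos : 0 < ‖N‖ := norm_pos_iff.2 hNne
  have hkN : kp * ‖N‖ ≤ 1 := by rwa [le_div_iff₀ hNpos] at hc
  have hkN2 : kp ^ 2 * (2 * s + z ^ 2 * (1 - m ^ 2)) ≤ 1 := by
    rw [← hN2, ← mul_pow]
    exact pow_le_one₀ (by positivity) hkN
  have hX : kp ^ 2 * z ^ 2 * (1 - m ^ 2) ≤ 1 - 2 * kp ^ 2 * s := by linarith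
  have hX0 : 0 ≤ kp ^ 2 * z ^ 2 * (1 - m ^ 2) := by positivity
  obtain ⟨g, hg⟩ : ∃ g : ℝ, g = √((1 - 2 * kp ^ 2 * s) / (1 - m ^ 2)) := ⟨_, rfl⟩
  have hXp : 0 ≤ (1 - 2 * kp ^ 2 * s) / (1 - m ^ 2) := div_nonneg (by linarith) h1m2.le
  have hg0 : 0 ≤ g := by
    rw [hg]
    exact Real.sqrt_nonneg _
  have hg2 : g ^ 2 * (1 - m ^ 2) = 1 - 2 * kp ^ 2 * s := by
    rw [hg, Real.sq_sqrt hXp, div_mul_cancel₀ _ h1m2.ne']
  have hgz : kp * z ≤ g := by
    rw [hg]
    refine (le_abs_self _).trans (Real.abs_le_sqrt ?_)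
    rw [le_div_iff₀ h1m2, mul_pow]
    exact hX
  refine ⟨(kp * s) • (T + B) + g • V, ?_, ?_, ?_, ?_, ?_⟩
  · have h4 : ‖(kp * s) • (T + B) + g • V‖ ^ 2 = 1 := by
      rw [hsq kp g, hg2]
      ring
    exact (pow_eq_one_iff_of_nonneg (norm_nonneg _) (by norm_num)).1 h4
  · rw [inner_add_left, real_inner_smul_left, real_inner_smul_left, inner_add_left, hTT, hBT, hVT]
    linear_combination kp * hs1
  · rw [inner_add_left, real_inner_smul_left, real_inner_smul_left, inner_add_left, hTB, hBB, hVB]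
    linear_combination kp * hs1
  · rw [← inner_vx, ← hV, inner_add_left, real_inner_smul_left, real_inner_smul_left,
      inner_add_left, hTV, hBV, hVV, add_zero, mul_zero, zero_add]
    exact mul_nonneg hg0 h1m2.le
  · rw [inner_add_left, real_inner_smul_left, real_inner_smul_left, hVC]
    have h4 : 0 ≤ (g - kp * z) * dt C T B := mul_nonneg (by linarith) hd.le
    have h5 : kp * s * inner ℝ (T + B) C = kp * (1 - z * dt C T B) := by
      rw [mul_assoc, ← hNC]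
      ring
    rw [h5]
    linarith

/-- `e^{it}` -/
private noncomputable def sqe (t : ℝ) : ℂ := Complex.exp (t * Complex.I)

private theorem sqe_conj (t : ℝ) : conj (sqe t) = sqe (-t) := by
  unfold sqe
  rw [← Complex.exp_conj]
  congr 1
  simp

private theorem sqe_add (s t : ℝ) : sqe (s + t) = sqe s * sqe t := by
  unfold sqe
  rw [← Complex.exp_add]
  congr 1
  push_cast
  ring

private theorem sqe_im (t : ℝ) : (sqe t).im = sin t := by
  unfold sqe
  rw [Complex.exp_ofReal_mul_I_im]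

private theorem sq_polar {z : ℂ} {S : ℝ} (hS : 0 ≤ S) (h : Complex.normSq z = S ^ 2) :
    ∃ t : ℝ, -π < t ∧ t ≤ π ∧ z = S * sqe t := by
  refine ⟨Complex.arg z, Complex.neg_pi_lt_arg z, Complex.arg_le_pi z, ?_⟩
  have h1 : ‖z‖ = S := by
    rw [Complex.normSq_eq_norm_sq] at h
    exact (pow_left_inj₀ (norm_nonneg _) hS two_ne_zero).1 h
  unfold sqe
  rw [← h1]
  exact (Complex.norm_mul_exp_arg_mul_I z).symm

/-- second coordinate with respect to an orthonormal basis starting with `o` -/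
private noncomputable def sqq (o a : ℂ × ℂ) : ℂ := -o.2 * a.1 + o.1 * a.2

private theorem sq_expand {o a b : ℂ × ℂ} (ho : Un o) :
    sp a b = conj (sp o a) * sp o b + conj (sqq o a) * sqq o b := by
  have h1 : conj o.1 * o.1 + conj o.2 * o.2 = (1 : ℂ) := by
    have h2 : ((Complex.normSq o.1 + Complex.normSq o.2 : ℝ) : ℂ) = 1 := by
      rw [show Complex.normSq o.1 + Complex.normSq o.2 = 1 from ho]
      simp
    rw [← h2]
    push_cast
    rw [Complex.normSq_eq_conj_mul_self, Complex.normSq_eq_conj_mul_self]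
  unfold sp sqq
  simp only [map_add, map_mul, map_neg, Complex.conj_conj]
  linear_combination (-(conj a.1 * b.1) - conj a.2 * b.2) * h1

private theorem sq_self {a : ℂ × ℂ} (ha : Un a) : sp a a = 1 := by
  have h2 : ((Complex.normSq a.1 + Complex.normSq a.2 : ℝ) : ℂ) = 1 := by
    rw [show Complex.normSq a.1 + Complex.normSq a.2 = 1 from ha]
    simp
  rw [← h2]
  unfold sp
  push_cast
  rw [Complex.normSq_eq_conj_mul_self, Complex.normSq_eq_conj_mul_self]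

private theorem sq_sum {o a : ℂ × ℂ} (ho : Un o) (ha : Un a) :
    Complex.normSq (sp o a) + Complex.normSq (sqq o a) = 1 := by
  have h := sq_expand (a := a) (b := a) ho
  rw [sq_self ha, ← Complex.normSq_eq_conj_mul_self, ← Complex.normSq_eq_conj_mul_self] at h
  exact_mod_cast h.symm

private theorem sq_phase {a : ℂ × ℂ} {z : ℂ} (hz : Complex.normSq z = 1) (ha : Un a) :
    Un (z * a.1, z * a.2) := by
  unfold Un at ha ⊢
  simp only [Complex.normSq_mul, hz, one_mul]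
  exact ha

/-- choose the phase of `b` -/
private theorem sq_real {a b : ℂ × ℂ} (hb : Un b) :
    ∃ b', Un b' ∧ vec b' = vec b ∧ sp a b' = ((‖sp a b‖ : ℝ) : ℂ) := by
  have hz : Complex.normSq (sqe (-(Complex.arg (sp a b)))) = 1 := by
    rw [Complex.normSq_eq_norm_sq]
    unfold sqe
    rw [Complex.norm_exp_ofReal_mul_I]
    norm_num
  refine ⟨(sqe (-(Complex.arg (sp a b))) * b.1, sqe (-(Complex.arg (sp a b))) * b.2),
    sq_phase hz hb, vec_phase hz, ?_⟩
  have h1 : sp a (sqe (-(Complex.arg (sp a b))) * b.1, sqe (-(Complex.arg (sp a b))) * b.2) =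
      sqe (-(Complex.arg (sp a b))) * sp a b := by
    simp only [sp]
    ring
  have h2 : sp a b = ((‖sp a b‖ : ℝ) : ℂ) * sqe (Complex.arg (sp a b)) :=
    (Complex.norm_mul_exp_arg_mul_I (sp a b)).symm
  have h3 : sqe (-(Complex.arg (sp a b))) * sqe (Complex.arg (sp a b)) = 1 := by
    rw [← sqe_add, neg_add_cancel]
    simp [sqe]
  rw [h1]
  calc sqe (-(Complex.arg (sp a b))) * sp a b
      = sqe (-(Complex.arg (sp a b))) * (((‖sp a b‖ : ℝ) : ℂ) * sqe (Complex.arg (sp a b))) := by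
        rw [← h2]
    _ = ((‖sp a b‖ : ℝ) : ℂ) *
        (sqe (-(Complex.arg (sp a b))) * sqe (Complex.arg (sp a b))) := by ring
    _ = ((‖sp a b‖ : ℝ) : ℂ) := by rw [h3, mul_one]

private noncomputable def sqP : ℝ := √((1 + kp) / 2)

private noncomputable def sqS : ℝ := √((1 - kp) / 2)

private theorem sqP_sq : sqP ^ 2 = (1 + kp) / 2 := by
  have := kp_lo
  unfold sqP
  rw [sq_sqrt]
  linarith

private theorem sqS_sq : sqS ^ 2 = (1 - kp) / 2 := by
  have := kp_hi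
  unfold sqS
  rw [sq_sqrt]
  linarith

private theorem sqP_pos : 0 < sqP := by
  have := kp_lo
  unfold sqP
  apply sqrt_pos.2
  linarith

private theorem sqS_pos : 0 < sqS := by
  have := kp_hi
  unfold sqS
  apply sqrt_pos.2
  linarith

private theorem sqPS : sqP * sqS = sn / 2 := by
  have h1 : (sqP * sqS) ^ 2 = (sn / 2) ^ 2 := by
    rw [mul_pow, sqP_sq, sqS_sq]
    linear_combination (-1 / 4) * kp_sn
  have h2 : (0 : ℝ) ≤ sn / 2 := by
    have := sn_lo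
    linarith
  exact (pow_left_inj₀ (mul_pos sqP_pos sqS_pos).le h2 two_ne_zero).1 h1

/-- a point at distance `r_9` -/
private theorem sq_pt {o a : ℂ × ℂ} (ho : Un o) (ha : Un a) (h : inner ℝ (vec o) (vec a) = kp) :
    ∃ a', Un a' ∧ vec a' = vec a ∧ sp o a' = (sqP : ℂ) ∧
      Complex.normSq (sqq o a') = sqS ^ 2 := by
  obtain ⟨a', h1, h2, h3⟩ := sq_real (a := o) ha
  have h4 : Complex.normSq (sp o a') = sqP ^ 2 := by
    have h5 := inner_vec ho h1
    rw [h2, h] at h5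
    rw [sqP_sq]
    linarith
  have h5 : ‖sp o a‖ = sqP := by
    rw [h3, Complex.normSq_ofReal, ← sq] at h4
    exact (pow_left_inj₀ (norm_nonneg _) sqP_pos.le two_ne_zero).1 h4
  refine ⟨a', h1, h2, by rw [h3, h5], ?_⟩
  have h6 := sq_sum ho h1
  rw [h4] at h6
  have h7 := sqP_sq
  have h8 := sqS_sq
  linarith

/-- the angle `w` -/
private theorem sq_w' {t b : ℝ} (h1 : -π < t) (h2 : t ≤ π) (h3 : -π < b) (h4 : b ≤ π)
    (h : sin (t + b) ≤ 0) (hne : sqe (-(t + b)) ≠ 1) :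
    ∃ w : ℝ, 0 < w ∧ w ≤ π ∧ (t + b = -w ∨ t + b = 2 * π - w) ∧ sqe w = sqe (-(t + b)) := by
  have h7 : sqe (2 * π) = 1 := by
    unfold sqe
    push_cast
    exact Complex.exp_two_pi_mul_I
  by_cases hn : t + b < 0
  · have h5 : -π ≤ t + b := by
      by_contra hcon
      have h6 : 0 < sin (t + b + 2 * π) := sin_pos_of_pos_of_lt_pi (by linarith) (by linarith)
      rw [sin_add_two_pi] at h6
      linarith
    exact ⟨-(t + b), by linarith, by linarith, Or.inl (by ring), rfl⟩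
  · have h0 : 0 < t + b := by
      rcases (not_lt.1 hn).lt_or_eq with h8 | h8
      · exact h8
      · exfalso
        apply hne
        rw [← h8, neg_zero]
        simp [sqe]
    have h5 : π ≤ t + b := by
      by_contra hcon
      have h6 : 0 < sin (t + b) := sin_pos_of_pos_of_lt_pi h0 (by linarith)
      linarith
    have h6 : t + b < 2 * π := by
      by_contra hcon
      have h8 : t + b = 2 * π := by linarith
      apply hne
      rw [h8, ← sqe_conj, h7, map_one]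
    refine ⟨2 * π - (t + b), by linarith, by linarith, Or.inr (by ring), ?_⟩
    rw [sub_eq_add_neg, sqe_add, h7, one_mul]

private theorem sq_rot {x : ℝ} {a0 a1 : ℂ} (h : Complex.normSq a0 + Complex.normSq a1 = 1)
    (hP : (cos x : ℂ) * a0 + (sin x : ℂ) * a1 = (sqP : ℂ)) :
    ∃ r : ℂ, Complex.normSq r = sqS ^ 2 ∧ a0 = (cos x : ℂ) * (sqP : ℂ) - (sin x : ℂ) * r ∧
      a1 = (sin x : ℂ) * (sqP : ℂ) + (cos x : ℂ) * r := by
  have hcs : (cos x : ℂ) ^ 2 + (sin x : ℂ) ^ 2 = 1 := by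
    have := cos_sq_add_sin_sq x
    exact_mod_cast this
  refine ⟨-(sin x : ℂ) * a0 + (cos x : ℂ) * a1, ?_, ?_, ?_⟩
  · have h1 : Complex.normSq ((cos x : ℂ) * a0 + (sin x : ℂ) * a1) +
        Complex.normSq (-(sin x : ℂ) * a0 + (cos x : ℂ) * a1) = 1 := by
      rw [← h]
      simp only [Complex.normSq_apply, Complex.add_re, Complex.add_im, Complex.mul_re,
        Complex.mul_im, Complex.neg_re, Complex.neg_im, Complex.ofReal_re, Complex.ofReal_im]
      linear_combination (a0.re ^ 2 + a0.im ^ 2 + a1.re ^ 2 + a1.im ^ 2) * cos_sq_add_sin_sq x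
    rw [hP, Complex.normSq_ofReal] at h1
    have h7 := sqP_sq
    have h8 := sqS_sq
    linarith
  · rw [← hP]
    linear_combination -a0 * hcs
  · rw [← hP]
    linear_combination -a1 * hcs

/-- the distance of `O'` to a point at distance `r_9` of `O` -/
private theorem sq_dist (x s : ℝ) {z : ℂ}
    (hz : z = (cos x : ℂ) * (sqP : ℂ) + (sin x : ℂ) * ((sqS : ℂ) * sqe s)) :
    2 * Complex.normSq z - 1 =
      kp * (2 * cos x ^ 2 - 1) + sn * (2 * sin x * cos x) * cos s := by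
  have hre : (sqe s).re = cos s := by
    unfold sqe
    rw [Complex.exp_ofReal_mul_I_re]
  have h1 : z.re = cos x * sqP + sin x * (sqS * cos s) := by
    rw [hz]
    simp only [Complex.add_re, Complex.mul_re, Complex.ofReal_re, Complex.ofReal_im, hre]
    simp
  have h2 : z.im = sin x * (sqS * sin s) := by
    rw [hz]
    simp only [Complex.add_im, Complex.mul_im, Complex.mul_re, Complex.ofReal_re,
      Complex.ofReal_im, sqe_im]
    simp
  rw [Complex.normSq_apply, h1, h2]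
  have e1 := sqP_sq
  have e2 := sqS_sq
  have e3 := sqPS
  have e4 := sin_sq_add_cos_sq x
  have e5 := sin_sq_add_cos_sq s
  linear_combination (2 * cos x ^ 2) * e1 + (2 * sin x ^ 2) * e2 +
    (4 * sin x * cos x * cos s) * e3 + (2 * sin x ^ 2 * sqS ^ 2) * e5 + (1 - kp) * e4

private theorem sq_Vf (w : ℝ) : 2 * Complex.normSq (Vf w) - 1 = kp ^ 2 + sn ^ 2 * cos w := by
  have hre : (Complex.exp ((w : ℂ) * Complex.I)).re = cos w := Complex.exp_ofReal_mul_I_re w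
  have him : (Complex.exp ((w : ℂ) * Complex.I)).im = sin w := Complex.exp_ofReal_mul_I_im w
  have h1 : (Vf w).re = (1 + kp) / 2 + (1 - kp) / 2 * cos w := by
    unfold Vf
    simp only [Complex.add_re, Complex.mul_re, Complex.ofReal_re, Complex.ofReal_im, hre]
    simp
  have h2 : (Vf w).im = (1 - kp) / 2 * sin w := by
    unfold Vf
    simp only [Complex.add_im, Complex.mul_im, Complex.ofReal_re, Complex.ofReal_im, him]
    simp
  rw [Complex.normSq_apply, h1, h2]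
  have e5 := sin_sq_add_cos_sq w
  linear_combination ((1 - kp) ^ 2 / 2) * e5 - cos w * kp_sn

/-- PROOF. Copy of `star_phase` (`X/StarP.lean`). Changes: (1) `dt O T B ≥ 0` gives
`sin (t + b) ≤ 0`; if `t + b` is a multiple of `2π` then `sp τ β = 1`, so `inner T B = 1`
(`inner_vec`) and `T = B`, a contradiction; hence `w ∈ (0, π]`. (2) The additional conclusions:
`inner O O' = 2 ‖sp o o'‖^2 - 1 = 2 cos^2 x - 1`; `inner O' T = 2 |sp o' τ|^2 - 1` with
`sp o' τ = cos x sp o τ + sin x κ τ = cos x √((1+kp)/2) + sin x √((1-kp)/2) e^{it}`, so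
`inner O' T = kp cos 2x + sn sin 2x cos t`; the same for `B`; and symmetrically (exchange of `O`
and `O'`) for `T'`, `B'`; `inner T B = 2 normSq (Vf w) - 1 = kp^2 + sn^2 cos w`. -/
theorem star_phase' {C T T' B B' O O' : E3} (hC : ‖C‖ = 1) (hT : ‖T‖ = 1) (hT' : ‖T'‖ = 1)
    (hB : ‖B‖ = 1) (hB' : ‖B'‖ = 1) (hO : ‖O‖ = 1) (hO' : ‖O'‖ = 1)
    (c1 : -1 < inner ℝ C T) (c2 : -1 < inner ℝ C T') (c3 : -1 < inner ℝ C B)
    (c4 : -1 < inner ℝ C B') (o1 : inner ℝ O T = kp) (o2 : inner ℝ O B = kp)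
    (o3 : inner ℝ O' T' = kp) (o4 : inner ℝ O' B' = kp) (d1 : 0 ≤ dt O T B)
    (d2 : 0 ≤ dt O' B' T') (n1 : T ≠ B) (n2 : T' ≠ B')
    (hD : 2 * kp ^ 2 - 1 ≤ inner ℝ O O') :
    ∃ t b t' b' w w' x k : ℝ, 0 < w ∧ w ≤ π ∧ 0 < w' ∧ w' ≤ π ∧ 0 ≤ x ∧ x ≤ π / 2 ∧
      kp ≤ cos x ∧
      (t + b = -w ∨ t + b = 2 * π - w) ∧ (t' + b' = -w' ∨ t' + b' = 2 * π - w') ∧ 0 < k ∧
      C9.hB C T' T * C9.hB C T B * C9.hB C B B' * C9.hB C B' T' =
        k * (Zf t t' x * Zf b b' x * Vf w * Vf w') ∧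
      Complex.normSq (Zf t t' x) = (1 + inner ℝ T T') / 2 ∧
      Complex.normSq (Zf b b' x) = (1 + inner ℝ B B') / 2 ∧
      inner ℝ O O' = 2 * cos x ^ 2 - 1 ∧
      inner ℝ O' T = kp * (2 * cos x ^ 2 - 1) + sn * (2 * sin x * cos x) * cos t ∧
      inner ℝ O' B = kp * (2 * cos x ^ 2 - 1) + sn * (2 * sin x * cos x) * cos b ∧
      inner ℝ O T' = kp * (2 * cos x ^ 2 - 1) + sn * (2 * sin x * cos x) * cos t' ∧
      inner ℝ O B' = kp * (2 * cos x ^ 2 - 1) + sn * (2 * sin x * cos x) * cos b' ∧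
      inner ℝ T B = kp ^ 2 + sn ^ 2 * cos w ∧ inner ℝ T' B' = kp ^ 2 + sn ^ 2 * cos w' := by
  obtain ⟨o, uo, rfl⟩ := exists_spin hO
  obtain ⟨ow, uow, rfl⟩ := exists_spin hO'
  obtain ⟨γ, uγ, rfl⟩ := exists_spin hC
  obtain ⟨τw, uτw, rfl⟩ := exists_spin hT
  obtain ⟨βw, uβw, rfl⟩ := exists_spin hB
  obtain ⟨τw', uτw', rfl⟩ := exists_spin hT'
  obtain ⟨βw', uβw', rfl⟩ := exists_spin hB'
  -- the spinor of `O'`
  obtain ⟨o', uo', vo', so'⟩ := sq_real (a := o) (b := ow) uow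
  rw [← vo'] at o3 o4 d2 hD
  rw [← vo']
  have hl : Complex.normSq (sp o o') + Complex.normSq (sqq o o') = 1 := sq_sum uo uo'
  set l : ℝ := ‖sp o ow‖ with hldef
  have hl0 : 0 ≤ l := norm_nonneg _
  have hl2 : Complex.normSq (sp o o') = l ^ 2 := by
    rw [so', Complex.normSq_ofReal, sq]
  have hl1 : l ≤ 1 := by
    have h1 := Complex.normSq_nonneg (sqq o o')
    rw [hl2] at hl
    nlinarith
  obtain ⟨x, hx0, hx2, hcx⟩ : ∃ x : ℝ, 0 ≤ x ∧ x ≤ π / 2 ∧ cos x = l :=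
    ⟨arccos l, arccos_nonneg l, arccos_le_pi_div_two.2 hl0, cos_arccos (by linarith) hl1⟩
  have hsx0 : 0 ≤ sin x := sin_nonneg_of_nonneg_of_le_pi hx0 (by linarith [pi_pos])
  have hsx : Complex.normSq (sqq o o') = sin x ^ 2 := by
    rw [hl2, ← hcx] at hl
    have := cos_sq_add_sin_sq x
    linarith
  obtain ⟨φ, -, -, hφ⟩ := sq_polar hsx0 hsx
  have hso : sp o o' = (cos x : ℂ) := by rw [so', hcx]
  have hkx : kp ≤ cos x := by
    have h1 := inner_vec uo uo'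
    rw [hl2, ← hcx] at h1
    have h2 : kp ^ 2 ≤ cos x ^ 2 := by linarith
    exact abs_le_of_sq_le_sq' h2 (by rw [hcx]; exact hl0) |>.2
  -- the coordinates
  have hζ : conj (sqe φ) * sqe φ = 1 := by
    rw [sqe_conj, ← sqe_add, neg_add_cancel]
    simp [sqe]
  set κ : ℂ × ℂ → ℂ := fun a => conj (sqe φ) * sqq o a with hκ
  have hexp : ∀ a b : ℂ × ℂ, sp a b = conj (sp o a) * sp o b + conj (κ a) * κ b := by
    intro a b
    rw [sq_expand uo]
    simp only [hκ, map_mul, Complex.conj_conj]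
    linear_combination (-(conj (sqq o a) * sqq o b)) * hζ
  have hκn : ∀ a : ℂ × ℂ, Complex.normSq (κ a) = Complex.normSq (sqq o a) := by
    intro a
    have h1 : Complex.normSq (sqe φ) = 1 := by
      rw [Complex.normSq_eq_norm_sq]
      unfold sqe
      rw [Complex.norm_exp_ofReal_mul_I]
      norm_num
    simp only [hκ, Complex.normSq_mul, Complex.normSq_conj, h1, one_mul]
  have hκo' : κ o' = (sin x : ℂ) := by
    simp only [hκ, hφ]
    linear_combination (sin x : ℂ) * hζ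
  have hexp' : ∀ a : ℂ × ℂ, sp o' a = (cos x : ℂ) * sp o a + (sin x : ℂ) * κ a := by
    intro a
    rw [hexp o' a, hso, hκo', Complex.conj_ofReal, Complex.conj_ofReal]
  -- the spinors of `T`, `B`
  obtain ⟨τ, uτ, vτ, pτ, qτ⟩ := sq_pt uo uτw o1
  obtain ⟨β, uβ, vβ, pβ, qβ⟩ := sq_pt uo uβw o2
  obtain ⟨τ', uτ', vτ', pτ', -⟩ := sq_pt uo' uτw' o3
  obtain ⟨β', uβ', vβ', pβ', -⟩ := sq_pt uo' uβw' o4
  rw [← vτ] at c1 d1 n1
  rw [← vβ] at c3 d1 n1
  rw [← vτ'] at c2 d2 n2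
  rw [← vβ'] at c4 d2 n2
  rw [← vτ, ← vτ', ← vβ, ← vβ']
  obtain ⟨t, ht1, ht2, ht⟩ := sq_polar (z := κ τ) sqS_pos.le (by rw [hκn]; exact qτ)
  obtain ⟨b, hb1, hb2, hb⟩ := sq_polar (z := conj (κ β)) sqS_pos.le
    (by rw [Complex.normSq_conj, hκn]; exact qβ)
  have hb' : κ β = (sqS : ℂ) * sqe (-b) := by
    have h1 := congrArg conj hb
    rw [Complex.conj_conj, map_mul, Complex.conj_ofReal, sqe_conj] at h1
    exact h1
  obtain ⟨rt, nrt, t0, t1⟩ := sq_rot (x := x) (a0 := sp o τ') (a1 := κ τ')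
    (by rw [hκn]; exact sq_sum uo uτ') (by rw [← hexp' τ', pτ'])
  obtain ⟨rb, nrb, b0, b1⟩ := sq_rot (x := x) (a0 := sp o β') (a1 := κ β')
    (by rw [hκn]; exact sq_sum uo uβ') (by rw [← hexp' β', pβ'])
  obtain ⟨t', ht1', ht2', ht'⟩ := sq_polar (z := -conj rt) sqS_pos.le
    (by rw [Complex.normSq_neg, Complex.normSq_conj]; exact nrt)
  obtain ⟨bb', hbb1, hbb2, hbb⟩ := sq_polar (z := -rb) sqS_pos.le
    (by rw [Complex.normSq_neg]; exact nrb)
  have hrt : rt = -((sqS : ℂ) * sqe (-t')) := by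
    have h1 : conj rt = -((sqS : ℂ) * sqe t') := by rw [← ht', neg_neg]
    have h2 := congrArg conj h1
    rw [Complex.conj_conj, map_neg, map_mul, Complex.conj_ofReal, sqe_conj] at h2
    exact h2
  have hrb : rb = -((sqS : ℂ) * sqe bb') := by rw [← hbb, neg_neg]
  have hP2 : (sqP : ℂ) ^ 2 = (((1 + kp) / 2 : ℝ) : ℂ) := by
    rw [← sqP_sq]
    push_cast
    rfl
  have hS2 : (sqS : ℂ) ^ 2 = (((1 - kp) / 2 : ℝ) : ℂ) := by
    rw [← sqS_sq]
    push_cast
    rfl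
  have hPS : (sqP : ℂ) * (sqS : ℂ) = ((sn / 2 : ℝ) : ℂ) := by
    rw [← sqPS]
    push_cast
    rfl
  -- the four hermitian products
  have e1 : sp τ' τ = Zf t t' x := by
    rw [hexp τ' τ, t0, t1, pτ, ht, hrt]
    simp only [map_sub, map_add, map_mul, map_neg, Complex.conj_ofReal, sqe_conj, neg_neg]
    have h1 : Zf t t' x = (((1 + kp) / 2 : ℝ) : ℂ) * (cos x : ℂ) +
        ((sn / 2 : ℝ) : ℂ) * (sin x : ℂ) * (sqe t + sqe t') -
        (((1 - kp) / 2 : ℝ) : ℂ) * (cos x : ℂ) * (sqe t * sqe t') := by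
      rw [← sqe_add]
      simp only [Zf, sqe]
      push_cast
      ring
    rw [h1, ← hP2, ← hS2, ← hPS]
    ring
  have e2 : sp β β' = Zf b bb' x := by
    rw [hexp β β', b0, b1, pβ, hb', hrb]
    simp only [map_mul, Complex.conj_ofReal, sqe_conj, neg_neg]
    have h1 : Zf b bb' x = (((1 + kp) / 2 : ℝ) : ℂ) * (cos x : ℂ) +
        ((sn / 2 : ℝ) : ℂ) * (sin x : ℂ) * (sqe b + sqe bb') -
        (((1 - kp) / 2 : ℝ) : ℂ) * (cos x : ℂ) * (sqe b * sqe bb') := by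
      rw [← sqe_add]
      simp only [Zf, sqe]
      push_cast
      ring
    rw [h1, ← hP2, ← hS2, ← hPS]
    ring
  have e3 : sp τ β = (((1 + kp) / 2 : ℝ) : ℂ) + (((1 - kp) / 2 : ℝ) : ℂ) * sqe (-(t + b)) := by
    rw [hexp τ β, pτ, pβ, ht, hb', neg_add, sqe_add, ← hP2, ← hS2]
    simp only [map_mul, Complex.conj_ofReal, sqe_conj]
    ring
  have e4 : sp β' τ' =
      (((1 + kp) / 2 : ℝ) : ℂ) + (((1 - kp) / 2 : ℝ) : ℂ) * sqe (-(t' + bb')) := by
    have hcs : (cos x : ℂ) ^ 2 + (sin x : ℂ) ^ 2 = 1 := by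
      have := cos_sq_add_sin_sq x
      exact_mod_cast this
    rw [hexp β' τ', t0, t1, b0, b1, hrt, hrb, neg_add, sqe_add, ← hP2, ← hS2]
    simp only [map_sub, map_add, map_mul, map_neg, Complex.conj_ofReal, sqe_conj]
    linear_combination ((sqP : ℂ) ^ 2 + (sqS : ℂ) ^ 2 * (sqe (-t') * sqe (-bb'))) * hcs
  -- the angles `w`, `w'`
  have hdt : ∀ a b c : E3, dt a b c = (C9.hB a b c).im := fun a b c => rfl
  have hpos : 0 < (1 - kp) / 2 := by
    have := kp_hi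
    linarith
  have s1 : sin (t + b) ≤ 0 := by
    rw [hdt, hB_vec uo uτ uβ, ← sp_conj o β, pτ, pβ, e3, Complex.conj_ofReal] at d1
    have h1 : (4 * ((sqP : ℂ) * ((((1 + kp) / 2 : ℝ) : ℂ) +
        (((1 - kp) / 2 : ℝ) : ℂ) * sqe (-(t + b))) * (sqP : ℂ))).im =
        4 * sqP ^ 2 * ((1 - kp) / 2) * (-sin (t + b)) := by
      have h2 : (4 * ((sqP : ℂ) * ((((1 + kp) / 2 : ℝ) : ℂ) +
        (((1 - kp) / 2 : ℝ) : ℂ) * sqe (-(t + b))) * (sqP : ℂ))) =
        ((4 * sqP ^ 2 * ((1 + kp) / 2) : ℝ) : ℂ) +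
          ((4 * sqP ^ 2 * ((1 - kp) / 2) : ℝ) : ℂ) * sqe (-(t + b)) := by
        push_cast
        ring
      rw [h2, Complex.add_im, Complex.ofReal_im, Complex.im_ofReal_mul, sqe_im, sin_neg]
      ring
    rw [h1] at d1
    have h3 : 0 < 4 * sqP ^ 2 * ((1 - kp) / 2) := by
      have := sqP_pos
      positivity
    by_contra hcon
    have h4 : 4 * sqP ^ 2 * ((1 - kp) / 2) * (-sin (t + b)) < 0 :=
      mul_neg_of_pos_of_neg h3 (by linarith)
    linarith
  have s2 : sin (t' + bb') ≤ 0 := by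
    rw [hdt, hB_vec uo' uβ' uτ', ← sp_conj o' τ', pτ', pβ', e4, Complex.conj_ofReal] at d2
    have h1 : (4 * ((sqP : ℂ) * ((((1 + kp) / 2 : ℝ) : ℂ) +
        (((1 - kp) / 2 : ℝ) : ℂ) * sqe (-(t' + bb'))) * (sqP : ℂ))).im =
        4 * sqP ^ 2 * ((1 - kp) / 2) * (-sin (t' + bb')) := by
      have h2 : (4 * ((sqP : ℂ) * ((((1 + kp) / 2 : ℝ) : ℂ) +
        (((1 - kp) / 2 : ℝ) : ℂ) * sqe (-(t' + bb'))) * (sqP : ℂ))) =
        ((4 * sqP ^ 2 * ((1 + kp) / 2) : ℝ) : ℂ) +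
          ((4 * sqP ^ 2 * ((1 - kp) / 2) : ℝ) : ℂ) * sqe (-(t' + bb')) := by
        push_cast
        ring
      rw [h2, Complex.add_im, Complex.ofReal_im, Complex.im_ofReal_mul, sqe_im, sin_neg]
      ring
    rw [h1] at d2
    have h3 : 0 < 4 * sqP ^ 2 * ((1 - kp) / 2) := by
      have := sqP_pos
      positivity
    by_contra hcon
    have h4 : 4 * sqP ^ 2 * ((1 - kp) / 2) * (-sin (t' + bb')) < 0 :=
      mul_neg_of_pos_of_neg h3 (by linarith)
    linarith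
  have hone : ∀ a c : ℂ × ℂ, Un a → Un c → sp a c = 1 → vec a = vec c := by
    intro a c ha hc h
    have h1 := inner_vec ha hc
    rw [h, map_one] at h1
    exact (inner_eq_one_iff_of_norm_eq_one (vec_norm ha) (vec_norm hc)).1 (by rw [h1]; norm_num)
  have k1 : sqe (-(t + b)) ≠ 1 := by
    intro h
    refine n1 (hone τ β uτ uβ ?_)
    rw [e3, h]
    push_cast
    ring
  have k2 : sqe (-(t' + bb')) ≠ 1 := by
    intro h
    refine n2 (hone β' τ' uβ' uτ' ?_).symm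
    rw [e4, h]
    push_cast
    ring
  obtain ⟨w, hw0, hw1, hw2, hw3⟩ := sq_w' ht1 ht2 hb1 hb2 s1 k1
  obtain ⟨w', hw0', hw1', hw2', hw3'⟩ := sq_w' ht1' ht2' hbb1 hbb2 s2 k2
  have e5 : sp τ β = Vf w := by
    rw [e3, ← hw3]
    rfl
  have e6 : sp β' τ' = Vf w' := by
    rw [e4, ← hw3']
    rfl
  -- positivity
  have hn : ∀ a : ℂ × ℂ, Un a → -1 < inner ℝ (vec γ) (vec a) → 0 < Complex.normSq (sp γ a) := by
    intro a ha h
    rw [inner_vec uγ ha] at h
    linarith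
  have hm : ∀ a : ℂ × ℂ, sp γ a * sp a γ = ((Complex.normSq (sp γ a) : ℝ) : ℂ) := by
    intro a
    rw [← sp_conj γ a, mul_comm, Complex.normSq_eq_conj_mul_self]
  refine ⟨t, b, t', bb', w, w', x, 256 * (Complex.normSq (sp γ τ) * Complex.normSq (sp γ τ') *
    Complex.normSq (sp γ β) * Complex.normSq (sp γ β')), hw0, hw1, hw0', hw1', hx0, hx2, hkx, hw2,
    hw2', ?_, ?_, ?_, ?_, ?_, ?_, ?_, ?_, ?_, ?_, ?_⟩
  · have h1 := hn τ uτ c1
    have h2 := hn τ' uτ' c2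
    have h3 := hn β uβ c3
    have h4 := hn β' uβ' c4
    positivity
  · rw [hB_vec uγ uτ' uτ, hB_vec uγ uτ uβ, hB_vec uγ uβ uβ', hB_vec uγ uβ' uτ', e1, e2, e5, e6]
    push_cast
    rw [← hm τ, ← hm τ', ← hm β, ← hm β']
    ring
  · rw [← e1, real_inner_comm, inner_vec uτ' uτ]
    ring
  · rw [← e2, inner_vec uβ uβ']
    ring
  · rw [inner_vec uo uo', hl2, ← hcx]
  · rw [inner_vec uo' uτ]
    refine sq_dist x t ?_
    rw [hexp' τ, pτ, ht]
  · rw [inner_vec uo' uβ, ← cos_neg b]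
    refine sq_dist x (-b) ?_
    rw [hexp' β, pβ, hb']
  · rw [inner_vec uo uτ', ← cos_neg t']
    refine sq_dist x (-t') ?_
    rw [t0, hrt]
    ring
  · rw [inner_vec uo uβ']
    refine sq_dist x bb' ?_
    rw [b0, hrb]
    ring
  · rw [inner_vec uτ uβ, e5]
    exact sq_Vf w
  · rw [real_inner_comm, inner_vec uβ' uτ', e6]
    exact sq_Vf w'

end Pool.Agent.C9
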