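import Pool.Agent.Lib.MP_488b8a_co_Y.StR
import Pool.Agent.Lib.MP_488b8a_co_Y.StP
import Pool.Agent.Lib.MP_488b8a_co_X.Star
import Pool.Agent.Lib.MP_488b8a_co_X.GwD

/-! # Project C9u, module St: the star of a vertex of degree 4, with the equality case -/

set_option autoImplicit false

namespace Pool.Agent.C9

open Real Pool.Agent.C32 ComplexConjugate

/-- the star of a vertex of degree 4 of the optimal covering -/
structure Rig (C T T' B B' : E3) : Prop where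
  ct : inner ℝ C T = sn / 2
  ct' : inner ℝ C T' = sn / 2
  cb : inner ℝ C B = sn / 2
  cb' : inner ℝ C B' = sn / 2
  tb : inner ℝ T B = sn ^ 2 - kp ^ 2
  tb' : inner ℝ T' B' = sn ^ 2 - kp ^ 2

private theorem star_gram {c z : ℝ} (hc : kp ≤ c) : 2 * kp ^ 2 - 1 ≤ gram c z := by
  have h0 : 0 < kp := by
    have := kp_lo
    linarith
  have h1 : kp ^ 2 ≤ c ^ 2 := pow_le_pow_left₀ h0.le hc 2
  have h2 := sin_sq_le_one z
  have h3 := sq_nonneg (sin z)
  unfold gram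
  rcases le_or_gt (c ^ 2) 1 with h4 | h4
  · nlinarith [mul_nonneg (sub_nonneg.2 h4) (sub_nonneg.2 h2)]
  · have h5 : kp ^ 2 ≤ 1 := by
      have := kp_hi
      nlinarith
    nlinarith [mul_nonneg (sub_nonneg.2 h4.le) h3]

private theorem star_face {x y z : E3} (hx : ‖x‖ = 1) (hy : ‖y‖ = 1) (hz : ‖z‖ = 1)
    (h : 0 < dt x y z ∧ ∃ N : E3, inner ℝ N x = 1 ∧ inner ℝ N y = 1 ∧ inner ℝ N z = 1 ∧
      kp ≤ 1 / ‖N‖) :
    asum x y z = π + 2 * Complex.arg (hB x y z) ∧ 0 < Complex.arg (hB x y z) ∧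
      Complex.arg (hB x y z) ≤ 3 * ph kp (π / 3) - π / 2 ∧ 2 * kp ^ 2 - 1 ≤ inner ℝ x y ∧
      2 * kp ^ 2 - 1 ≤ inner ℝ y z ∧ 2 * kp ^ 2 - 1 ≤ inner ℝ x z := by
  obtain ⟨hd, N, h1, h2, h3, hc⟩ := h
  obtain ⟨a, b, d, hP⟩ := exists_par hx hy hz hd.ne' h1 h2 h3
  obtain ⟨g1, g2, g3⟩ := ang_sum_arg hx hy hz hc hP hd
  refine ⟨g1, g2, g3, ?_, ?_, ?_⟩
  · rw [hP.2.2.2.2.2.2.1]
    exact star_gram hc
  · rw [hP.2.2.2.2.2.2.2.1]
    exact star_gram hc
  · rw [real_inner_comm, hP.2.2.2.2.2.2.2.2]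
    exact star_gram hc

private theorem star_exp {z : ℂ} (h : 0 < z.im) :
    0 < ‖z‖ ∧ (‖z‖ : ℂ) * Complex.exp (Complex.arg z * Complex.I) = z := by
  refine ⟨norm_pos_iff.2 ?_, Complex.norm_mul_exp_arg_mul_I z⟩
  rintro rfl
  simp at h

private theorem star_prod {z1 z2 z3 z4 : ℂ} (h1 : 0 < z1.im) (h2 : 0 < z2.im) (h3 : 0 < z3.im)
    (h4 : 0 < z4.im) : ∃ k : ℝ, 0 < k ∧ Complex.exp ((Complex.arg z1 + Complex.arg z2 +
      Complex.arg z3 + Complex.arg z4 : ℝ) * Complex.I) = k * (z1 * z2 * z3 * z4) := by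
  obtain ⟨a1, b1⟩ := star_exp h1
  obtain ⟨a2, b2⟩ := star_exp h2
  obtain ⟨a3, b3⟩ := star_exp h3
  obtain ⟨a4, b4⟩ := star_exp h4
  refine ⟨(‖z1‖ * ‖z2‖ * ‖z3‖ * ‖z4‖)⁻¹, by positivity, ?_⟩
  have c1 : (‖z1‖ : ℂ) ≠ 0 := by exact_mod_cast a1.ne'
  have c2 : (‖z2‖ : ℂ) ≠ 0 := by exact_mod_cast a2.ne'
  have c3 : (‖z3‖ : ℂ) ≠ 0 := by exact_mod_cast a3.ne'
  have c4 : (‖z4‖ : ℂ) ≠ 0 := by exact_mod_cast a4.ne'
  have e : Complex.exp ((Complex.arg z1 + Complex.arg z2 +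
      Complex.arg z3 + Complex.arg z4 : ℝ) * Complex.I) =
      Complex.exp (Complex.arg z1 * Complex.I) * Complex.exp (Complex.arg z2 * Complex.I) *
      Complex.exp (Complex.arg z3 * Complex.I) * Complex.exp (Complex.arg z4 * Complex.I) := by
    rw [← Complex.exp_add, ← Complex.exp_add, ← Complex.exp_add]
    congr 1
    push_cast
    ring
  have g : z1 * z2 * z3 * z4 = ((‖z1‖ : ℂ) * Complex.exp (Complex.arg z1 * Complex.I)) *
      ((‖z2‖ : ℂ) * Complex.exp (Complex.arg z2 * Complex.I)) *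
      ((‖z3‖ : ℂ) * Complex.exp (Complex.arg z3 * Complex.I)) *
      ((‖z4‖ : ℂ) * Complex.exp (Complex.arg z4 * Complex.I)) := by
    rw [b1, b2, b3, b4]
  rw [e, g]
  push_cast
  field_simp

private theorem st_us : kp ^ 2 + sn ^ 2 * cos us = sn / 2 := by
  have hk : 0 < kp := by
    have := kp_lo
    linarith
  rw [cos_us]
  field_simp
  linear_combination (2 * kp) * kp_sn - rel

private theorem st_mid {C O O' : E3} (hC : ‖C‖ = 1) (hO : ‖O‖ = 1) (hO' : ‖O'‖ = 1)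
    (h : kp ≤ inner ℝ O C) (h' : kp ≤ inner ℝ O' C) (hd : inner ℝ O O' = 2 * kp ^ 2 - 1) :
    O + O' = (2 * kp) • C := by
  have hk0 : 0 < kp := by
    have := kp_lo
    linarith
  have hCC : inner ℝ C C = 1 := by rw [real_inner_self_eq_norm_sq, hC, one_pow]
  have hOO : inner ℝ O O = 1 := by rw [real_inner_self_eq_norm_sq, hO, one_pow]
  have hOO' : inner ℝ O' O' = 1 := by rw [real_inner_self_eq_norm_sq, hO', one_pow]
  have h3 : ‖(O + O') - (2 * kp) • C‖ ^ 2 =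
      8 * kp ^ 2 - 4 * kp * (inner ℝ O C + inner ℝ O' C) := by
    rw [← real_inner_self_eq_norm_sq]
    simp only [inner_add_left, inner_add_right, inner_sub_left, inner_sub_right,
      real_inner_smul_left, real_inner_smul_right, hCC, hOO, hOO', real_inner_comm O O',
      real_inner_comm O C, real_inner_comm O' C, hd]
    ring
  have h4 : ‖(O + O') - (2 * kp) • C‖ ^ 2 ≤ 0 := by
    rw [h3]
    nlinarith [mul_nonneg hk0.le (sub_nonneg.2 h), mul_nonneg hk0.le (sub_nonneg.2 h')]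
  have h5 : ‖(O + O') - (2 * kp) • C‖ = 0 := by
    have h6 := sq_nonneg ‖(O + O') - (2 * kp) • C‖
    exact pow_eq_zero_iff two_ne_zero |>.1 (le_antisymm h4 h6)
  exact sub_eq_zero.1 (norm_eq_zero.1 h5)

/-- PROOF. Copy of `star_le` (`X/Star.lean`) with `exists_O'`, `star_phase'`, `star_real'`
(`T ≠ B` because `dt C T B > 0`). Equality: `star_real'` gives `x = arccos kp`, so
`inner O O' = 2 kp^2 - 1`; with `inner O C ≥ kp`, `inner O' C ≥ kp`:
`‖(O + O') - (2 kp) C‖^2 = (4 kp^2) - 4 kp (inner O C + inner O' C) + 4 kp^2 ≤ 0`, so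
`O + O' = (2 kp) C` and `2 kp inner C T = inner O T + inner O' T = kp + kp (2 kp^2 - 1) +
2 sn^2 kp cos us`, `inner C T = kp^2 + sn^2 cos us = sn/2` (`cos_us`, `rel`, `kp_sn`; `cos x = kp`,
`sin x = sn` by `cos_r`, `sin_r`); the same for `T'`, `B`, `B'`. `inner T B = kp^2 + sn^2 cos w`,
`w = 2 (π - us)`, `cos w = 2 cos^2 us - 1 = 1 - 2 kp^2/sn^2` (`sin_us`), so
`inner T B = sn^2 - kp^2`. -/
theorem star_le' {C T T' B B' : E3} (hC : ‖C‖ = 1) (hT : ‖T‖ = 1) (hT' : ‖T'‖ = 1)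
    (hB : ‖B‖ = 1) (hB' : ‖B'‖ = 1)
    (f : ∀ x y z : E3, (x, y, z) ∈ [(C, T', T), (C, T, B), (C, B, B'), (C, B', T')] →
      0 < dt x y z ∧ ∃ N : E3, inner ℝ N x = 1 ∧ inner ℝ N y = 1 ∧ inner ℝ N z = 1 ∧
        kp ≤ 1 / ‖N‖) :
    asum C T' T + asum C T B + asum C B B' + asum C B' T' ≤
      4 * π + 2 * (π - 2 * ph kp (π / 3) - 9 / 16 * bt * sn ^ 4) +
        bt * (s4 T T' + s4 B B') ∧
    (4 * π + 2 * (π - 2 * ph kp (π / 3) - 9 / 16 * bt * sn ^ 4) +
        bt * (s4 T T' + s4 B B') ≤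
      asum C T' T + asum C T B + asum C B B' + asum C B' T' → Rig C T T' B B') := by
  have F1 := star_face hC hT' hT (f C T' T (by simp))
  have F2 := star_face hC hT hB (f C T B (by simp))
  have F3 := star_face hC hB hB' (f C B B' (by simp))
  have F4 := star_face hC hB' hT' (f C B' T' (by simp))
  have d1 := (f C T' T (by simp)).1
  have d2 := (f C T B (by simp)).1
  have d3 := (f C B B' (by simp)).1
  have d4 := (f C B' T' (by simp)).1
  obtain ⟨-, N, n1, n2, n3, nc⟩ := f C T B (by simp)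
  obtain ⟨-, N', n1', n2', n3', nc'⟩ := f C B' T' (by simp)
  obtain ⟨O, O1, O2, O3, O4, O5⟩ := exists_O' hC hT hB n1 n2 n3 nc d2
  obtain ⟨O', O1', O2', O3', O4', O5'⟩ := exists_O' hC hB' hT' n1' n2' n3' nc' d4
  have hOO := inner_OO hC O1 O1' O5 O5'
  obtain ⟨s1, p1, u1, i1, i2, i3⟩ := F1
  obtain ⟨s2, p2, u2, i4, i5, i6⟩ := F2
  obtain ⟨s3, p3, u3, i7, i8, i9⟩ := F3
  obtain ⟨s4', p4, u4, i10, i11, i12⟩ := F4
  have hk0 : 0 < kp := by
    have := kp_lo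
    linarith
  have hk2 : 0 < kp ^ 2 := by positivity
  have ne1 : T ≠ B := by
    rintro rfl
    have h0 := dt_swap' C T T
    linarith
  have ne2 : T' ≠ B' := by
    rintro rfl
    have h0 := dt_swap' C T' T'
    linarith
  obtain ⟨t, b, t', b', w, w', x, k, w0, w1, w0', w1', x0, x1, hx, htb,
    htb', hk, hprod, hn, hn', q0, q1, q2, q3, q4, q5, q6⟩ := star_phase' hC hT hT' hB hB' O1 O1'
    (by linarith) (by linarith) (by linarith) (by linarith) O2 O3 O3' O2' O4 O4' ne1 ne2 hOO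
  obtain ⟨k1, hk1, hexp⟩ := star_prod (z1 := C9.hB C T' T) (z2 := C9.hB C T B) (z3 := C9.hB C B B')
    (z4 := C9.hB C B' T') d1 d2 d3 d4
  have hth := ph_third_hi
  have hpi := pi_gt_d2
  have hZ : kp ^ 2 ≤ Complex.normSq (Zf t t' x) := by
    rw [hn, real_inner_comm]
    linarith
  have hZ' : kp ^ 2 ≤ Complex.normSq (Zf b b' x) := by
    rw [hn']
    linarith
  have key := star_real' (t := t) (b := b) (t' := t') (b' := b') (w := w) (w' := w') (x := x)
    (h := Complex.arg (C9.hB C T' T) + Complex.arg (C9.hB C T B) + Complex.arg (C9.hB C B B') +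
      Complex.arg (C9.hB C B' T')) (k := k1 * k) w0 w1 w0' w1' x0 x1 hx htb htb' hZ hZ'
    (by linarith) (by linarith) (mul_pos hk1 hk) (by
      rw [hexp, hprod]
      push_cast
      ring)
  rw [hn, hn'] at key
  rw [s1, s2, s3, s4']
  unfold s4
  have e1 : (1 - (1 + inner ℝ T T') / 2) ^ 2 = ((1 - inner ℝ T T') / 2) ^ 2 := by ring
  have e2 : (1 - (1 + inner ℝ B B') / 2) ^ 2 = ((1 - inner ℝ B B') / 2) ^ 2 := by ring
  rw [e1, e2] at key
  obtain ⟨key1, key2⟩ := key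
  refine ⟨by linarith, fun heq => ?_⟩
  obtain ⟨r1, r2, r3, r4, r5, r6, r7⟩ := key2 (by linarith)
  have hcx : cos x = kp := by rw [r1, cos_r]
  have hsx : sin x = sn := by rw [r1, sin_r]
  rw [hcx] at q0 q1 q2 q3 q4
  rw [hsx] at q1 q2 q3 q4
  have hm := st_mid hC O1 O1' O5 O5' q0
  have c1 := st_us
  have hw : cos (2 * (π - us)) = 1 - 2 * sin us ^ 2 := by
    rw [show 2 * (π - us) = 2 * π - 2 * us by ring, cos_two_pi_sub, cos_two_mul]
    linarith [sin_sq_add_cos_sq us]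
  have hs2 : sn ^ 2 * sin us ^ 2 = kp ^ 2 := by
    have hs0 := sn_lo
    rw [sin_us, div_pow, mul_div_cancel₀]
    positivity
  have hA : ∀ V : E3, 2 * kp * inner ℝ C V = inner ℝ O V + inner ℝ O' V := by
    intro V
    rw [← real_inner_smul_left, ← hm, inner_add_left]
  refine ⟨?_, ?_, ?_, ?_, ?_, ?_⟩
  · refine mul_left_cancel₀ (mul_pos two_pos hk0).ne' ?_
    rw [hA, O2, q1, r4]
    linear_combination (2 * kp) * c1
  · refine mul_left_cancel₀ (mul_pos two_pos hk0).ne' ?_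
    rw [hA, O3', q3, r5]
    linear_combination (2 * kp) * c1
  · refine mul_left_cancel₀ (mul_pos two_pos hk0).ne' ?_
    rw [hA, O3, q2, r6]
    linear_combination (2 * kp) * c1
  · refine mul_left_cancel₀ (mul_pos two_pos hk0).ne' ?_
    rw [hA, O2', q4, r7]
    linear_combination (2 * kp) * c1
  · rw [q5, r2, hw]
    linear_combination (-2) * hs2
  · rw [q6, r3, hw]
    linear_combination (-2) * hs2

end Pool.Agent.C9
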