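import Pool.Agent.Lib.MP_488b8a_co_Y.LimL
import Pool.Agent.Lib.MP_488b8a_co_Y.Ey
import Pool.Agent.Lib.MP_488b8a_co_Y.Geo9
import Pool.Agent.Lib.MP_488b8a_co_Y.St
import Pool.Agent.Lib.MP_488b8a_co_X.Fin9

/-! # Project C9, stage 2, module Fin9y: the optimal coverings with nine caps -/

set_option autoImplicit false

namespace Pool.Agent.C9Y

open Real Pool.Agent.C32 Pool.Agent.C9

private theorem y_asum (x y z : E3) : asum x z y = asum x y z := by
  unfold asum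
  rw [ang_symm x z y, ang_symm z y x, ang_symm y x z]
  ring

private theorem y_s4 (x y : E3) : s4 x y = s4 y x := by
  unfold s4
  rw [real_inner_comm]

private theorem y_N {p : Fin 9 → E3} {q : ℕ → Fin 9 → E3} {κ : ℕ → ℝ} (h : LD p q κ)
    {i j k : Fin 9} (hf : Has L1 i j k) : ∃ N : E3, inner ℝ N (p i) = 1 ∧
      inner ℝ N (p j) = 1 ∧ inner ℝ N (p k) = 1 ∧ kp ≤ 1 / ‖N‖ := by
  obtain ⟨N, h1, h2, h3, h4, -⟩ := ld_supp h hf
  exact ⟨N, h1, h2, h3, h4⟩

/-- the star of a vertex of degree 4. PROOF. As `star_facets`, with `star_le'`. -/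
theorem ld_star {p : Fin 9 → E3} {q : ℕ → Fin 9 → E3} {κ : ℕ → ℝ} (h : LD p q κ)
    {i a b d e : Fin 9} (h1 : Has L1 i a b) (h2 : Has L1 i b d) (h3 : Has L1 i d e)
    (h4 : Has L1 i e a) (n1 : a ≠ d) (n2 : b ≠ e) :
    asum (p i) (p a) (p b) + asum (p i) (p b) (p d) + asum (p i) (p d) (p e) +
      asum (p i) (p e) (p a) ≤ 4 * π + 2 * (π - 2 * ph kp (π / 3) - 9 / 16 * bt * sn ^ 4) +
        bt * (s4 (p a) (p b) + s4 (p d) (p e)) ∧
    (4 * π + 2 * (π - 2 * ph kp (π / 3) - 9 / 16 * bt * sn ^ 4) +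
        bt * (s4 (p a) (p b) + s4 (p d) (p e)) ≤
      asum (p i) (p a) (p b) + asum (p i) (p b) (p d) + asum (p i) (p d) (p e) +
      asum (p i) (p e) (p a) →
      inner ℝ (p i) (p a) = sn / 2 ∧ inner ℝ (p i) (p b) = sn / 2 ∧
      inner ℝ (p i) (p d) = sn / 2 ∧ inner ℝ (p i) (p e) = sn / 2 ∧
      inner ℝ (p a) (p e) = sn ^ 2 - kp ^ 2 ∧ inner ℝ (p b) (p d) = sn ^ 2 - kp ^ 2) := by
  have sg : ∀ {j k l : Fin 9}, Has L1 i k j → Has L1 i j l → k ≠ l →
      0 < dt (p i) (p k) (p j) * dt (p i) (p j) (p l) := by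
    intro j k l f1 f2 hkl
    have := ld_opp h (has_sw f1).2 f2 hkl
    rw [dt_swap']
    linarith
  have g1 := sg h1 h2 n1
  have g2 := sg h2 h3 n2
  have g3 := sg h3 h4 n1.symm
  rcases lt_or_gt_of_ne (ld_dt h h1) with hs | hs
  · have k2 : dt (p i) (p b) (p d) < 0 := (neg_iff_neg_of_mul_pos g1).1 hs
    have k3 : dt (p i) (p d) (p e) < 0 := (neg_iff_neg_of_mul_pos g2).1 k2
    have k4 : dt (p i) (p e) (p a) < 0 := (neg_iff_neg_of_mul_pos g3).1 k3
    have := star_le' (C := p i) (T := p a) (T' := p b) (B := p e) (B' := p d) (h.nrm i) (h.nrm a)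
      (h.nrm b) (h.nrm e) (h.nrm d) (fun x y z hm => by
        simp only [List.mem_cons, Prod.mk.injEq, List.mem_nil_iff, or_false] at hm
        rcases hm with ⟨rfl, rfl, rfl⟩ | ⟨rfl, rfl, rfl⟩ | ⟨rfl, rfl, rfl⟩ | ⟨rfl, rfl, rfl⟩
        · exact ⟨by rw [dt_swap']; linarith, y_N h (has_sw h1).2⟩
        · exact ⟨by rw [dt_swap']; linarith, y_N h (has_sw h4).2⟩
        · exact ⟨by rw [dt_swap']; linarith, y_N h (has_sw h3).2⟩
        · exact ⟨by rw [dt_swap']; linarith, y_N h (has_sw h2).2⟩)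
    rw [y_asum (p i) (p a) (p b), y_asum (p i) (p e) (p a), y_asum (p i) (p d) (p e),
      y_asum (p i) (p b) (p d), y_s4 (p e) (p d)] at this
    refine ⟨by linarith [this.1], fun h5 => ?_⟩
    have h6 := this.2 (by linarith)
    exact ⟨h6.ct, h6.ct', h6.cb', h6.cb, h6.tb, h6.tb'⟩
  · have k2 : 0 < dt (p i) (p b) (p d) := (pos_iff_pos_of_mul_pos g1).1 hs
    have k3 : 0 < dt (p i) (p d) (p e) := (pos_iff_pos_of_mul_pos g2).1 k2
    have k4 : 0 < dt (p i) (p e) (p a) := (pos_iff_pos_of_mul_pos g3).1 k3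
    have := star_le' (C := p i) (T := p b) (T' := p a) (B := p d) (B' := p e) (h.nrm i) (h.nrm b)
      (h.nrm a) (h.nrm d) (h.nrm e) (fun x y z hm => by
        simp only [List.mem_cons, Prod.mk.injEq, List.mem_nil_iff, or_false] at hm
        rcases hm with ⟨rfl, rfl, rfl⟩ | ⟨rfl, rfl, rfl⟩ | ⟨rfl, rfl, rfl⟩ | ⟨rfl, rfl, rfl⟩
        · exact ⟨hs, y_N h h1⟩
        · exact ⟨k2, y_N h h2⟩
        · exact ⟨k3, y_N h h3⟩
        · exact ⟨k4, y_N h h4⟩)
    rw [y_s4 (p b) (p a)] at this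
    refine ⟨by linarith [this.1], fun h5 => ?_⟩
    have h6 := this.2 (by linarith)
    exact ⟨h6.ct', h6.ct, h6.cb, h6.cb', h6.tb', h6.tb⟩

/-- PROOF. `ld_sum`, `ld_star`, `E_par'`: all are equalities; `geo_nine`. -/
theorem ld_iso {p : Fin 9 → E3} {q : ℕ → Fin 9 → E3} {κ : ℕ → ℝ} (h : LD p q κ) :
    ∃ g : E3 ≃ₗᵢ[ℝ] E3, ∀ i, p i = g (pt9 i) := by
  have h0 := ld_sum h
  simp only [L1, List.map_cons, List.map_nil, List.sum_cons, List.sum_nil] at h0
  obtain ⟨s8, r8⟩ := ld_star h (i := 8) (a := 0) (b := 1) (d := 4) (e := 3) (by decide)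
    (by decide) (by decide) (by decide) (by decide) (by decide)
  obtain ⟨s6, r6⟩ := ld_star h (i := 6) (a := 1) (b := 2) (d := 5) (e := 4) (by decide)
    (by decide) (by decide) (by decide) (by decide) (by decide)
  obtain ⟨s7, r7⟩ := ld_star h (i := 7) (a := 2) (b := 0) (d := 3) (e := 5) (by decide)
    (by decide) (by decide) (by decide) (by decide) (by decide)
  obtain ⟨c, a, b, d, hc, hP⟩ := ld_par h (i := 0) (j := 1) (k := 2) (by decide)
  obtain ⟨e1, E1⟩ := E_par' (h.nrm 0) (h.nrm 1) (h.nrm 2) hc hP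
  obtain ⟨c', a', b', d', hc', hP'⟩ := ld_par h (i := 3) (j := 4) (k := 5) (by decide)
  obtain ⟨e2, E2⟩ := E_par' (h.nrm 3) (h.nrm 4) (h.nrm 5) hc' hP'
  rw [y_s4 (p 4) (p 3)] at s8 r8
  rw [y_s4 (p 5) (p 4)] at s6 r6
  rw [y_s4 (p 3) (p 5)] at s7 r7
  simp only [asum] at s8 s6 s7 r8 r6 r7 e1 e2 E1 E2
  obtain ⟨u1, u2, u3, u4, u5, u6⟩ := r8 (by linarith)
  obtain ⟨v1, v2, v3, v4, v5, v6⟩ := r6 (by linarith)
  obtain ⟨w1, w2, w3, w4, w5, w6⟩ := r7 (by linarith)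
  obtain ⟨t1, t2, t3⟩ := E1 (by linarith)
  exact geo_nine h.nrm t1 t2 t3 u1 u2 v1 v2 w1 w2 u3 u6 u4 u5 v3 v6
    (ld_opp h (by decide) (by decide) (by decide)) (ld_opp h (by decide) (by decide) (by decide))
    (ld_opp h (by decide) (by decide) (by decide)) (ld_opp h (by decide) (by decide) (by decide))
    (ld_opp h (by decide) (by decide) (by decide)) (ld_opp h (by decide) (by decide) (by decide))

/-- the optimal coverings with nine caps -/
theorem covers_unique {p : Fin 9 → E3} (hp : ∀ i, ‖p i‖ = 1) :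
    Covers p kp ↔ ∃ g : E3 ≃ₗᵢ[ℝ] E3, Set.range p = g '' Set.range pt9 := by
  constructor
  · intro hC
    obtain ⟨σ, q, κ, h⟩ := exists_LD hp hC
    obtain ⟨g, hg⟩ := ld_iso h
    refine ⟨g, ?_⟩
    ext x
    constructor
    · rintro ⟨i, rfl⟩
      refine ⟨pt9 (σ.symm i), ⟨_, rfl⟩, ?_⟩
      rw [← hg, Function.comp_apply, Equiv.apply_symm_apply]
    · rintro ⟨_, ⟨i, rfl⟩, rfl⟩
      exact ⟨σ i, by rw [← hg, Function.comp_apply]⟩
  · rintro ⟨g, hg⟩ x hx
    obtain ⟨s, hs⟩ := pt9_covers (g.symm x) (by rw [LinearIsometryEquiv.norm_map, hx])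
    have h1 : g (pt9 s) ∈ Set.range p := by
      rw [hg]
      exact ⟨pt9 s, ⟨s, rfl⟩, rfl⟩
    obtain ⟨i, hi⟩ := h1
    refine ⟨i, ?_⟩
    rw [hi]
    have h2 : inner ℝ (g.symm x) (pt9 s) = inner ℝ x (g (pt9 s)) := by
      rw [← LinearIsometryEquiv.inner_map_map g, LinearIsometryEquiv.apply_symm_apply]
    rw [← h2]
    exact hs

private theorem y_angle {x y : E3} (hx : ‖x‖ = 1) (hy : ‖y‖ = 1) {r : ℝ} (h0 : 0 ≤ r)
    (h1 : r ≤ π) : InnerProductGeometry.angle x y ≤ r ↔ cos r ≤ inner ℝ x y := by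
  have h : cos (InnerProductGeometry.angle x y) = inner ℝ x y := by
    rw [InnerProductGeometry.cos_angle, hx, hy]
    ring
  rw [← h]
  constructor
  · intro hr
    exact cos_le_cos_of_nonneg_of_le_pi (InnerProductGeometry.angle_nonneg x y) h1 hr
  · intro hr
    by_contra hc
    push Not at hc
    have := cos_lt_cos_of_nonneg_of_le_pi h0 (InnerProductGeometry.angle_le_pi x y) hc
    linarith

theorem cap9_unique (p : Fin 9 → E3) (hp : ∀ i, ‖p i‖ = 1) :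
    (∀ x : E3, ‖x‖ = 1 → ∃ i, InnerProductGeometry.angle x (p i) ≤ capRadius 9) ↔
      ∃ g : E3 ≃ₗᵢ[ℝ] E3, Set.range p = g '' Set.range pt9 := by
  have k0 : 0 < kp := by linarith [kp_lo]
  have k1 : kp < 1 := by linarith [kp_hi]
  have hcos : cos (arccos kp) = kp := cos_arccos (by linarith) k1.le
  rw [cap9_arccos, ← covers_unique hp]
  refine forall_congr' fun x => forall_congr' fun hx => exists_congr fun i => ?_
  rw [y_angle hx (hp i) (arccos_nonneg _) (arccos_le_pi _), hcos]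

end Pool.Agent.C9Y
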