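import Pool.Agent.Lib.MP_488b8a_co_Y.Kq

/-! # Project C9, stage 2, module Inj: eight caps are not enough, the centres are distinct -/

set_option autoImplicit false

namespace Pool.Agent.C9Y

open Real Pool.Agent.C32 Pool.Agent.C9

/-- the ordered triples -/
private abbrev InjT := Fin 8 × Fin 8 × Fin 8

private def inj_rt : InjT ≃ InjT where
  toFun t := (t.2.1, t.2.2, t.1)
  invFun t := (t.2.2, t.1, t.2.1)
  left_inv _ := rfl
  right_inv _ := rfl

private def inj_sw : InjT ≃ InjT where
  toFun t := (t.2.1, t.1, t.2.2)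
  invFun t := (t.2.1, t.1, t.2.2)
  left_inv _ := rfl
  right_inv _ := rfl

private theorem inj_rt_mem (p : Fin 8 → E3) (t : InjT) :
    t ∈ facets p ↔ inj_rt t ∈ facets p := by
  rw [mem_facets, mem_facets]
  obtain ⟨i, j, k⟩ := t
  exact ⟨fun h => facet_perm2 h, fun h => facet_perm2 (facet_perm2 h)⟩

private theorem inj_sw_mem (p : Fin 8 → E3) (t : InjT) :
    t ∈ facets p ↔ inj_sw t ∈ facets p := by
  rw [mem_facets, mem_facets]
  obtain ⟨i, j, k⟩ := t
  exact ⟨fun h => facet_perm1 h, fun h => facet_perm1 h⟩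

private theorem inj_rt_sum {M : Type*} [AddCommMonoid M] (p : Fin 8 → E3) (g : InjT → M) :
    ∑ t ∈ facets p, g (inj_rt t) = ∑ t ∈ facets p, g t :=
  Finset.sum_equiv inj_rt (inj_rt_mem p) (fun _ _ => rfl)

private theorem inj_sw_sum {M : Type*} [AddCommMonoid M] (p : Fin 8 → E3) (g : InjT → M) :
    ∑ t ∈ facets p, g (inj_sw t) = ∑ t ∈ facets p, g t :=
  Finset.sum_equiv inj_sw (inj_sw_mem p) (fun _ _ => rfl)

private theorem inj_three (p : Fin 8 → E3) (g : InjT → ℝ) :
    ∑ t ∈ facets p, (g t + g (inj_rt t) + g (inj_rt (inj_rt t))) =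
      3 * ∑ t ∈ facets p, g t := by
  rw [Finset.sum_add_distrib, Finset.sum_add_distrib, inj_rt_sum p g,
    inj_rt_sum p (fun t => g (inj_rt t)), inj_rt_sum p g]
  ring

/-- eight caps of radius `r_9` do not cover (generic case) -/
private theorem inj_gen {p : Fin 8 → E3} {κ : ℝ} (hκ : kq ≤ κ) (hG : Gen p) (hC : Covers p κ) :
    False := by
  have hκ0 : 0 < κ := by linarith [kq_lo]
  have hu := hG.1
  have hle := facets_card hG (by norm_num)
  have h1 : ∑ t ∈ facets p, ang (p t.1) (p t.2.1) (p t.2.2) =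
      ∑ i, ∑ t ∈ (facets p).filter (fun t => t.1 = i), ang (p t.1) (p t.2.1) (p t.2.2) :=
    (Finset.sum_fiberwise (facets p) (fun t => t.1) _).symm
  have h2 : 8 * (4 * π) ≤ ∑ t ∈ facets p, ang (p t.1) (p t.2.1) (p t.2.2) := by
    rw [h1]
    have h3 : ∑ _i : Fin 8, (4 * π) = 8 * (4 * π) := by
      rw [Finset.sum_const, Finset.card_univ, Fintype.card_fin, nsmul_eq_mul]
      norm_num
    rw [← h3]
    exact Finset.sum_le_sum fun i _ => angle_sum hκ0 hG hC i
  have h4 : 3 * ∑ t ∈ facets p, ang (p t.1) (p t.2.1) (p t.2.2) ≤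
      (facets p).card * 4.15525 := by
    rw [← inj_three p (fun t => ang (p t.1) (p t.2.1) (p t.2.2)), ← nsmul_eq_mul,
      ← Finset.sum_const]
    refine Finset.sum_le_sum fun t ht => ?_
    rw [mem_facets] at ht
    obtain ⟨i, j, k⟩ := t
    obtain ⟨c, a, b, d, hc, hpar⟩ := facet_par hu hC ht
    exact ang_face_le (hu i) (hu j) (hu k) (hκ.trans hc) hpar
  have h7 := Real.pi_gt_d2
  have h8 : ((facets p).card : ℝ) ≤ 72 := by
    have : (facets p).card ≤ 72 := by omega
    exact_mod_cast this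
  have h9 : ((facets p).card : ℝ) * 4.15525 ≤ 72 * 4.15525 :=
    mul_le_mul_of_nonneg_right h8 (by norm_num)
  norm_num at h7 h9 h2 h4
  linarith

/-- the centres of a covering with nine caps of radius `r_9` are distinct -/
theorem centres_inj {p : Fin 9 → E3} (hp : ∀ i, ‖p i‖ = 1) (hC : Covers p kp) :
    Function.Injective p := by
  intro i j hij
  by_contra hne
  obtain ⟨k, hk⟩ := Fin.exists_succAbove_eq hne
  have hC8 : Covers (fun l => p (j.succAbove l)) kp := by
    intro x hx
    obtain ⟨l, hl⟩ := hC x hx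
    by_cases h : l = j
    · refine ⟨k, ?_⟩
      show kp ≤ inner ℝ x (p (j.succAbove k))
      rw [hk, hij, ← h]
      exact hl
    · obtain ⟨m, hm⟩ := Fin.exists_succAbove_eq h
      refine ⟨m, ?_⟩
      show kp ≤ inner ℝ x (p (j.succAbove m))
      rw [hm]
      exact hl
  have hq := kq_kp
  obtain ⟨q, hG, hqp⟩ := gen_approx (fun l => p (j.succAbove l)) (fun l => hp _) (ε := kp - kq)
    (by linarith)
  have hC' := covers_approx hC8 fun l => (hqp l).le
  exact inj_gen (by linarith) hG hC'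

end Pool.Agent.C9Y
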