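import Pool.Agent.Lib.MP_488b8a_co_Y.ThmA
import Pool.Agent.Lib.MP_488b8a_co_Y.Inj

/-! # Project C9, stage 2, module LimL: an optimal covering is a limit of generic coverings of type
`4^3 5^6` -/

set_option autoImplicit false

namespace Pool.Agent.C9Y

open Real Pool.Agent.C32 Pool.Agent.C9 Filter Topology

/-- `p` is the limit of generic coverings `q m` of type `L1` with cosines `κ m → kp` -/
structure LD (p : Fin 9 → E3) (q : ℕ → Fin 9 → E3) (κ : ℕ → ℝ) : Prop where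
  nrm : ∀ i, ‖p i‖ = 1
  inj : Function.Injective p
  covp : Covers p kp
  gen : ∀ m, Gen (q m)
  fac : ∀ m i j k, Facet (q m) (i, j, k) ↔ Has L1 i j k
  lim : ∀ i, Tendsto (fun m => q m i) atTop (𝓝 (p i))
  klim : Tendsto κ atTop (𝓝 kp)
  kpos : ∀ m, kq ≤ κ m
  cov : ∀ m, Covers (q m) (κ m)

/-- PROOF. Generic approximations (`gen_approx`, `covers_approx`), `type_eq`, a constant permutation
along a subsequence, `centres_inj`. -/
theorem exists_LD {p : Fin 9 → E3} (hp : ∀ i, ‖p i‖ = 1) (hC : Covers p kp) :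
    ∃ σ : Equiv.Perm (Fin 9), ∃ q κ, LD (p ∘ σ) q κ := by
  have hkk := kq_kp
  obtain ⟨δ, hδ⟩ : ∃ δ, δ = kp - kq := ⟨_, rfl⟩
  have hδ0 : 0 < δ := by rw [hδ]; linarith
  obtain ⟨ε, hε⟩ : ∃ ε : ℕ → ℝ, ε = fun m : ℕ => δ * (1 / ((m : ℝ) + 1)) := ⟨_, rfl⟩
  have hpos : ∀ m, 0 < ε m := fun m => by
    rw [hε]
    positivity
  have hle : ∀ m, ε m ≤ δ := fun m => by
    rw [hε]
    have h1 : 1 / ((m : ℝ) + 1) ≤ 1 := by
      rw [div_le_one (by positivity)]
      have : (0 : ℝ) ≤ m := Nat.cast_nonneg m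
      linarith
    simp only
    nlinarith
  have hlim : Tendsto ε atTop (𝓝 0) := by
    have h1 := (tendsto_one_div_add_atTop_nhds_zero_nat (𝕜 := ℝ)).const_mul δ
    rw [mul_zero] at h1
    rw [hε]
    exact h1
  choose q hq hqp using fun m => gen_approx p hp (hpos m)
  have hcov : ∀ m, Covers (q m) (kp - ε m) := fun m => covers_approx hC fun i => (hqp m i).le
  have hkq : ∀ m, kq ≤ kp - ε m := fun m => by linarith [hle m]
  choose s hs using fun m => type_eq (hkq m) (hq m) (hcov m)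
  obtain ⟨σ, hy⟩ := Finite.exists_infinite_fiber s
  have hfr : ∃ᶠ m in atTop, s m = σ :=
    Nat.frequently_atTop_iff_infinite.2 (Set.infinite_coe_iff.1 hy)
  obtain ⟨φ, hφ, h⟩ := extraction_of_frequently_atTop hfr
  have hφt : Tendsto φ atTop atTop := hφ.tendsto_atTop
  have hcp : Covers (p ∘ σ) kp := by
    intro x hx
    obtain ⟨l, hl⟩ := hC x hx
    refine ⟨σ.symm l, ?_⟩
    simpa using hl
  refine ⟨σ, fun m => q (φ m) ∘ σ, fun m => kp - ε (φ m), fun i => hp _,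
    (centres_inj hp hC).comp σ.injective, hcp, fun m => gen_comp (hq _) σ, fun m i j k => ?_,
    fun i => ?_, ?_, fun m => hkq _, fun m => covers_comp (hcov _) σ⟩
  · have h1 := hs (φ m) i j k
    rw [h m] at h1
    exact h1
  · rw [tendsto_iff_norm_sub_tendsto_zero]
    exact squeeze_zero (fun m => norm_nonneg _) (fun m => (hqp (φ m) (σ i)).le)
      (hlim.comp hφt)
  · have h1 := (hlim.comp hφt).const_sub kp
    rw [sub_zero] at h1
    exact h1

private theorem ld_gram {u v : ℕ → ℝ} {c z : ℝ} (hu : Tendsto u atTop (𝓝 c))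
    (hv : Tendsto v atTop (𝓝 z)) :
    Tendsto (fun m => gram (u m) (v m)) atTop (𝓝 (gram c z)) := by
  have h1 : Tendsto (fun m => sin (v m)) atTop (𝓝 (sin z)) := (continuous_sin.tendsto z).comp hv
  unfold gram
  exact tendsto_const_nhds.sub ((tendsto_const_nhds.mul
    (tendsto_const_nhds.sub (hu.pow 2))).mul (h1.pow 2))

/-- a triangle on a circle: the determinant -/
theorem par_dt {x y z : E3} {c a b d : ℝ} (hx : ‖x‖ = 1) (hy : ‖y‖ = 1) (hz : ‖z‖ = 1)
    (h : Par x y z c a b d) :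
    dt x y z ^ 2 = 16 * (1 - c ^ 2) ^ 2 * c ^ 2 * (sin a ^ 2 * sin b ^ 2 * sin d ^ 2) ∧
      dt x y z ≠ 0 := by
  obtain ⟨hc, hc1, ha, hb, hd, hs, e1, e2, e3⟩ := h
  have hxx : inner ℝ x x = (1 : ℝ) := by rw [real_inner_self_eq_norm_sq, hx, one_pow]
  have hyy : inner ℝ y y = (1 : ℝ) := by rw [real_inner_self_eq_norm_sq, hy, one_pow]
  have hzz : inner ℝ z z = (1 : ℝ) := by rw [real_inner_self_eq_norm_sq, hz, one_pow]
  have e3' : inner ℝ x z = gram c d := by rw [real_inner_comm]; exact e3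
  have hdd : sin d = sin a * cos b + cos a * sin b := by
    rw [← sin_add, ← sin_pi_sub]
    congr 1
    linarith
  have hpa := sin_sq_add_cos_sq a
  have hpb := sin_sq_add_cos_sq b
  have key : dt x y z ^ 2 =
      16 * (1 - c ^ 2) ^ 2 * c ^ 2 * (sin a ^ 2 * sin b ^ 2 * sin d ^ 2) := by
    rw [gram_det, hxx, hyy, hzz, e1, e2, e3']
    unfold gram
    have hca : cos a ^ 2 = 1 - sin a ^ 2 := by linarith
    have hcb : cos b ^ 2 = 1 - sin b ^ 2 := by linarith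
    obtain ⟨D, hD⟩ : ∃ D, D = sin d ^ 2 := ⟨_, rfl⟩
    obtain ⟨A, hA⟩ : ∃ A, A = sin a ^ 2 := ⟨_, rfl⟩
    obtain ⟨B, hB⟩ : ∃ B, B = sin b ^ 2 := ⟨_, rfl⟩
    obtain ⟨w, hw⟩ : ∃ w, w = sin a * sin b * (cos a * cos b) := ⟨_, rfl⟩
    have q1 : D = A * (1 - B) + (1 - A) * B + 2 * w := by
      rw [hD, hdd, hA, hB, hw, ← hca, ← hcb]
      ring
    have q2 : w ^ 2 = A * B * ((1 - A) * (1 - B)) := by
      rw [hw, mul_pow, mul_pow, mul_pow, hca, hcb, hA, hB]
    have q3 : 2 * (A * B + B * D + D * A) - (A ^ 2 + B ^ 2 + D ^ 2) = 4 * (A * B * D) := by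
      rw [q1]
      linear_combination (-4 : ℝ) * q2
    rw [← hD, ← hA, ← hB]
    linear_combination (4 * (1 - c ^ 2) ^ 2) * q3
  refine ⟨key, ?_⟩
  have hp := pi_pos
  have h1 : 0 < sin a := sin_pos_of_pos_of_lt_pi ha (by linarith)
  have h2 : 0 < sin b := sin_pos_of_pos_of_lt_pi hb (by linarith)
  have h3 : 0 < sin d := sin_pos_of_pos_of_lt_pi hd (by linarith)
  have h4 : 0 < 1 - c ^ 2 := by nlinarith
  intro h0
  rw [h0] at key
  have : 0 < 16 * (1 - c ^ 2) ^ 2 * c ^ 2 * (sin a ^ 2 * sin b ^ 2 * sin d ^ 2) := by positivity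
  rw [← key] at this
  norm_num at this

/-- PROOF. `facet_par` for `q m`, compactness; `inner (p i) (p j) < 1` because `p` is injective, so
nothing degenerates. -/
theorem ld_par {p : Fin 9 → E3} {q : ℕ → Fin 9 → E3} {κ : ℕ → ℝ} (h : LD p q κ) {i j k : Fin 9}
    (hf : Has L1 i j k) : ∃ c a b d : ℝ, kp ≤ c ∧ Par (p i) (p j) (p k) c a b d := by
  have hpi := pi_pos
  have hx : ∀ m, ∃ y : ℝ × ℝ × ℝ × ℝ, y ∈ Set.Icc (kq : ℝ) 1 ×ˢ Set.Icc 0 π ×ˢ Set.Icc 0 π ×ˢ
      Set.Icc 0 π ∧ κ m ≤ y.1 ∧ Par (q m i) (q m j) (q m k) y.1 y.2.1 y.2.2.1 y.2.2.2 := by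
    intro m
    obtain ⟨c, a, b, d, h2, h3⟩ := facet_par (h.gen m).1 (h.cov m) ((h.fac m i j k).2 hf)
    have h5 := h3
    obtain ⟨c0, c1, a0, b0, d0, hs, -⟩ := h5
    refine ⟨(c, a, b, d), ?_, h2, h3⟩
    exact Set.mk_mem_prod ⟨(h.kpos m).trans h2, c1.le⟩ (Set.mk_mem_prod ⟨a0.le, by linarith⟩
      (Set.mk_mem_prod ⟨b0.le, by linarith⟩ ⟨d0.le, by linarith⟩))
  choose x hx1 hx2 hx3 using hx
  have hK : IsCompact (Set.Icc (kq : ℝ) 1 ×ˢ Set.Icc (0 : ℝ) π ×ˢ Set.Icc (0 : ℝ) π ×ˢ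
      Set.Icc (0 : ℝ) π) :=
    isCompact_Icc.prod (isCompact_Icc.prod (isCompact_Icc.prod isCompact_Icc))
  obtain ⟨x', hx', φ, hφ, hlim⟩ := hK.tendsto_subseq hx1
  have hφ' := hφ.tendsto_atTop
  have l1 : Tendsto (fun m => (x (φ m)).1) atTop (𝓝 x'.1) := (continuous_fst.tendsto _).comp hlim
  have l2 : Tendsto (fun m => (x (φ m)).2.1) atTop (𝓝 x'.2.1) :=
    ((continuous_fst.comp continuous_snd).tendsto _).comp hlim
  have l3 : Tendsto (fun m => (x (φ m)).2.2.1) atTop (𝓝 x'.2.2.1) :=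
    ((continuous_fst.comp (continuous_snd.comp continuous_snd)).tendsto _).comp hlim
  have l4 : Tendsto (fun m => (x (φ m)).2.2.2) atTop (𝓝 x'.2.2.2) :=
    ((continuous_snd.comp (continuous_snd.comp continuous_snd)).tendsto _).comp hlim
  have hq : ∀ i, Tendsto (fun m => q (φ m) i) atTop (𝓝 (p i)) := fun i => (h.lim i).comp hφ'
  obtain ⟨⟨c0, c1⟩, ⟨a0, a1⟩, ⟨b0, b1⟩, ⟨d0, d1⟩⟩ := hx'
  have hk : kp ≤ x'.1 := le_of_tendsto_of_tendsto' (h.klim.comp hφ') l1 fun m => hx2 (φ m)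
  have hs : x'.2.1 + x'.2.2.1 + x'.2.2.2 = π := by
    refine tendsto_nhds_unique ((l2.add l3).add l4) ?_
    refine tendsto_const_nhds.congr fun m => ?_
    obtain ⟨-, -, -, -, -, h1, -⟩ := hx3 (φ m)
    exact h1.symm
  have e1 : inner ℝ (p i) (p j) = gram x'.1 x'.2.1 := by
    refine tendsto_nhds_unique ((hq i).inner (hq j)) ?_
    refine (ld_gram l1 l2).congr fun m => ?_
    exact ((hx3 (φ m)).2.2.2.2.2.2.1).symm
  have e2 : inner ℝ (p j) (p k) = gram x'.1 x'.2.2.1 := by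
    refine tendsto_nhds_unique ((hq j).inner (hq k)) ?_
    refine (ld_gram l1 l3).congr fun m => ?_
    exact ((hx3 (φ m)).2.2.2.2.2.2.2.1).symm
  have e3 : inner ℝ (p k) (p i) = gram x'.1 x'.2.2.2 := by
    refine tendsto_nhds_unique ((hq k).inner (hq i)) ?_
    refine (ld_gram l1 l4).congr fun m => ?_
    exact ((hx3 (φ m)).2.2.2.2.2.2.2.2).symm
  obtain ⟨n1, n2, n3⟩ := facet_ne ((h.fac 0 i j k).2 hf)
  have key : ∀ {u v : Fin 9} {z : ℝ}, u ≠ v → inner ℝ (p u) (p v) = gram x'.1 z →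
      x'.1 ≠ 1 ∧ sin z ≠ 0 := by
    intro u v z huv he
    have hlt : inner ℝ (p u) (p v) < (1 : ℝ) := by
      refine lt_of_le_of_ne ?_ ?_
      · have := real_inner_le_norm (p u) (p v)
        rw [h.nrm u, h.nrm v, mul_one] at this
        exact this
      · intro h1
        have h2 := (inner_eq_one_iff_of_norm_eq_one (𝕜 := ℝ) (h.nrm u) (h.nrm v)).1 h1
        exact huv (h.inj h2)
    rw [he] at hlt
    unfold gram at hlt
    refine ⟨fun h1 => ?_, fun h1 => ?_⟩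
    · rw [h1] at hlt
      norm_num at hlt
    · rw [h1] at hlt
      norm_num at hlt
  have k1 := key n1 e1
  have k2 := key n2 e2
  have k3 := key n3.symm e3
  have hkp := kp_lo
  have pos : ∀ {z : ℝ}, 0 ≤ z → sin z ≠ 0 → 0 < z := by
    intro z hz hsz
    refine lt_of_le_of_ne hz ?_
    rintro rfl
    exact hsz sin_zero
  refine ⟨x'.1, x'.2.1, x'.2.2.1, x'.2.2.2, hk, by linarith, lt_of_le_of_ne c1 k1.1,
    pos a0 k1.2, pos b0 k2.2, pos d0 k3.2, hs, e1, e2, e3⟩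

/-- PROOF. `ld_par`, `par_dt`. -/
theorem ld_dt {p : Fin 9 → E3} {q : ℕ → Fin 9 → E3} {κ : ℕ → ℝ} (h : LD p q κ) {i j k : Fin 9}
    (hf : Has L1 i j k) : dt (p i) (p j) (p k) ≠ 0 := by
  obtain ⟨c, a, b, d, -, hP⟩ := ld_par h hf
  exact (par_dt (h.nrm i) (h.nrm j) (h.nrm k) hP).2

/-- PROOF. `edge_two` for `q m`, limit of the determinants, `ld_dt`. -/
theorem ld_opp {p : Fin 9 → E3} {q : ℕ → Fin 9 → E3} {κ : ℕ → ℝ} (h : LD p q κ)
    {i j k k' : Fin 9} (hf : Has L1 i j k) (hf' : Has L1 i j k') (hk : k ≠ k') :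
    dt (p i) (p j) (p k) * dt (p i) (p j) (p k') < 0 := by
  have h1 : ∀ m, dt (q m i) (q m j) (q m k) * dt (q m i) (q m j) (q m k') ≤ 0 := by
    intro m
    have hκ0 : 0 < κ m := by linarith [h.kpos m, kq_lo]
    obtain ⟨l, h2, h3, h4⟩ := edge_two hκ0 (h.gen m) (h.cov m) ((h.fac m i j k).2 hf)
    rcases h4 k' ((h.fac m i j k').2 hf') with h5 | h5
    · exact absurd h5.symm hk
    · rw [h5]
      exact h3.le
  have h2 : dt (p i) (p j) (p k) * dt (p i) (p j) (p k') ≤ 0 :=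
    le_of_tendsto' ((dt_tendsto (h.lim i) (h.lim j) (h.lim k)).mul
      (dt_tendsto (h.lim i) (h.lim j) (h.lim k'))) h1
  exact lt_of_le_of_ne h2 (mul_ne_zero (ld_dt h hf) (ld_dt h hf'))

/-- the supporting plane. PROOF. `N` with inner product `1` with the three points (a combination of
`vx`), which is the limit of the normals of the facets of `q m`; or compactness. -/
theorem ld_supp {p : Fin 9 → E3} {q : ℕ → Fin 9 → E3} {κ : ℕ → ℝ} (h : LD p q κ)
    {i j k : Fin 9} (hf : Has L1 i j k) : ∃ N : E3, inner ℝ N (p i) = 1 ∧ inner ℝ N (p j) = 1 ∧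
      inner ℝ N (p k) = 1 ∧ kp ≤ 1 / ‖N‖ ∧ ∀ l, inner ℝ N (p l) ≤ 1 := by
  have h1 : ∀ m, ∃ N : E3, inner ℝ N (q m i) = 1 ∧ inner ℝ N (q m j) = 1 ∧
      inner ℝ N (q m k) = 1 ∧ (∀ l, inner ℝ N (q m l) ≤ 1) ∧ N ∈ Metric.closedBall (0 : E3) 2 := by
    intro m
    obtain ⟨-, N, e1, e2, e3, e4⟩ := (h.fac m i j k).2 hf
    have e5 : ∀ l, inner ℝ N (q m l) ≤ 1 := by
      intro l
      by_cases hi : l = i
      · rw [hi]
        exact e1.le
      by_cases hj : l = j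
      · rw [hj]
        exact e2.le
      by_cases hk : l = k
      · rw [hk]
        exact e3.le
      exact (e4 l hi hj hk).le
    refine ⟨N, e1, e2, e3, e5, ?_⟩
    have hN : N ≠ 0 := by
      intro h0
      have e1' : inner ℝ N (q m i) = 1 := e1
      rw [h0, inner_zero_left] at e1'
      exact zero_ne_one e1'
    have e6 := norm_le (h.cov m) hN e5
    have e7 := h.kpos m
    have e8 : 0 < ‖N‖ := norm_pos_iff.2 hN
    have e9 := kq_lo
    rw [mem_closedBall_zero_iff]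
    rw [le_div_iff₀ e8] at e6
    nlinarith
  choose N e1 e2 e3 e4 e5 using h1
  obtain ⟨N', -, φ, hφ, hlim⟩ := (isCompact_closedBall (0 : E3) 2).tendsto_subseq e5
  have h2 : ∀ l, Tendsto (fun m => (inner ℝ (N (φ m)) (q (φ m) l) : ℝ)) atTop
      (𝓝 (inner ℝ N' (p l))) := fun l =>
    hlim.inner ((h.lim l).comp hφ.tendsto_atTop)
  have g1 : inner ℝ N' (p i) = 1 :=
    tendsto_nhds_unique (h2 i) (tendsto_const_nhds.congr fun m => (e1 (φ m)).symm)
  have g4 : ∀ l, inner ℝ N' (p l) ≤ 1 := fun l => le_of_tendsto' (h2 l) fun m => e4 (φ m) l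
  have hN : N' ≠ 0 := by
    intro h0
    rw [h0, inner_zero_left] at g1
    exact zero_ne_one g1
  refine ⟨N', g1, ?_, ?_, norm_le h.covp hN g4, g4⟩
  · exact tendsto_nhds_unique (h2 j) (tendsto_const_nhds.congr fun m => (e2 (φ m)).symm)
  · exact tendsto_nhds_unique (h2 k) (tendsto_const_nhds.congr fun m => (e3 (φ m)).symm)

/-- the sum of the angles of a triangle is continuous where the triangle does not degenerate -/
private theorem ld_pr {x y : ℕ → E3} {x' y' : E3} (hx : Tendsto x atTop (𝓝 x'))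
    (hy : Tendsto y atTop (𝓝 y')) : Tendsto (fun m => pr (x m) (y m)) atTop (𝓝 (pr x' y')) := by
  have e0 : Tendsto (fun m => (inner ℝ (x m) (y m) : ℝ)) atTop (𝓝 (inner ℝ x' y')) :=
    hx.inner hy
  have e1 : Tendsto (fun m => (inner ℝ (x m) (y m) : ℝ) • x m) atTop
      (𝓝 ((inner ℝ x' y' : ℝ) • x')) := e0.smul hx
  have e2 := hy.sub e1
  unfold pr
  exact e2

private theorem ld_ang {x y z : ℕ → E3} {x' y' z' : E3} (hx : Tendsto x atTop (𝓝 x'))
    (hy : Tendsto y atTop (𝓝 y')) (hz : Tendsto z atTop (𝓝 z')) (h1 : pr x' y' ≠ 0)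
    (h2 : pr x' z' ≠ 0) :
    Tendsto (fun m => ang (x m) (y m) (z m)) atTop (𝓝 (ang x' y' z')) := by
  have h3 : ContinuousAt (fun v : E3 × E3 => InnerProductGeometry.angle v.1 v.2)
      (pr x' y', pr x' z') := InnerProductGeometry.continuousAt_angle h1 h2
  have h4 : Tendsto (fun m => (pr (x m) (y m), pr (x m) (z m))) atTop
      (𝓝 (pr x' y', pr x' z')) := (ld_pr hx hy).prodMk_nhds (ld_pr hx hz)
  have h5 := Tendsto.comp h3.tendsto h4
  unfold ang
  exact h5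

theorem has_sw {a b c : Fin 9} (h : Has L1 a b c) : Has L1 b c a ∧ Has L1 a c b := by
  have sw : ∀ a b c, Has L1 a b c → Has L1 b c a ∧ Has L1 a c b := by decide +kernel
  exact sw a b c h

/-- PROOF. `price_sum` for `q m` (all prices `1`) and continuity of the angles. -/
theorem ld_sum {p : Fin 9 → E3} {q : ℕ → Fin 9 → E3} {κ : ℕ → ℝ} (h : LD p q κ) :
    18 * π ≤ (L1.map fun t => ang (p t.1) (p t.2.1) (p t.2.2) +
      ang (p t.2.1) (p t.2.2) (p t.1) + ang (p t.2.2) (p t.1) (p t.2.1)).sum := by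
  have hne : ∀ i j k, Has L1 i j k → pr (p i) (p j) ≠ 0 := by
    intro i j k hf h0
    apply ld_dt h hf
    have h4 : p j = inner ℝ (p i) (p j) • p i := sub_eq_zero.mp h0
    have h5 : dt (p i) (p j) (p k) =
        dt (p i) (inner ℝ (p i) (p j) • p i + (0 : ℝ) • p i) (p k) := by
      rw [zero_smul, add_zero, ← h4]
    rw [h5, dt_lin2, dt_self12]
    ring
  have hL : (L1.flatMap fun t => [(t.1, t.2.1, t.2.2), (t.2.1, t.2.2, t.1),
      (t.2.2, t.1, t.2.1), (t.2.1, t.1, t.2.2), (t.1, t.2.2, t.2.1),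
      (t.2.2, t.2.1, t.1)]).Nodup := by
    decide +kernel
  have h1 : ∀ m, 18 * π ≤ (L1.map fun t => ang (q m t.1) (q m t.2.1) (q m t.2.2) +
      ang (q m t.2.1) (q m t.2.2) (q m t.1) + ang (q m t.2.2) (q m t.1) (q m t.2.1)).sum := by
    intro m
    have h0 := price_sum (by linarith [h.kpos m, kq_lo]) (h.gen m) (h.cov m) (h.fac m) hL
      (fun _ => 1) (fun _ => zero_le_one)
    simp only [Finset.sum_const, Finset.card_univ, Fintype.card_fin, nsmul_eq_mul, one_mul,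
      mul_one] at h0
    push_cast at h0
    linarith
  refine ge_of_tendsto' (x := atTop) ?_ h1
  have key : ∀ t : Fin 9 × Fin 9 × Fin 9, Has L1 t.1 t.2.1 t.2.2 →
      Tendsto (fun m => ang (q m t.1) (q m t.2.1) (q m t.2.2) +
      ang (q m t.2.1) (q m t.2.2) (q m t.1) + ang (q m t.2.2) (q m t.1) (q m t.2.1)) atTop
      (𝓝 (ang (p t.1) (p t.2.1) (p t.2.2) +
      ang (p t.2.1) (p t.2.2) (p t.1) + ang (p t.2.2) (p t.1) (p t.2.1))) := by
    rintro ⟨i, j, k⟩ hf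
    obtain ⟨f1, f2⟩ := has_sw hf
    obtain ⟨f3, f4⟩ := has_sw f1
    obtain ⟨f5, f6⟩ := has_sw f3
    exact ((ld_ang (h.lim i) (h.lim j) (h.lim k) (hne _ _ _ hf) (hne _ _ _ f2)).add
      (ld_ang (h.lim j) (h.lim k) (h.lim i) (hne _ _ _ f1) (hne _ _ _ f4))).add
      (ld_ang (h.lim k) (h.lim i) (h.lim j) (hne _ _ _ f3) (hne _ _ _ f6))
  have hall : ∀ t ∈ L1, Has L1 t.1 t.2.1 t.2.2 := by decide +kernel
  have gen : ∀ L : List (Fin 9 × Fin 9 × Fin 9), (∀ t ∈ L, Has L1 t.1 t.2.1 t.2.2) →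
      Tendsto (fun m => (L.map fun t => ang (q m t.1) (q m t.2.1) (q m t.2.2) +
      ang (q m t.2.1) (q m t.2.2) (q m t.1) + ang (q m t.2.2) (q m t.1) (q m t.2.1)).sum) atTop
      (𝓝 (L.map fun t => ang (p t.1) (p t.2.1) (p t.2.2) +
      ang (p t.2.1) (p t.2.2) (p t.1) + ang (p t.2.2) (p t.1) (p t.2.1)).sum) := by
    intro L
    induction L with
    | nil => intro _; exact tendsto_const_nhds
    | cons t L ih =>
      intro hL
      simp only [List.map_cons, List.sum_cons]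
      exact (key t (hL t (List.mem_cons_self ..))).add
        (ih fun s hs => hL s (List.mem_cons_of_mem _ hs))
  exact gen L1 hall

end Pool.Agent.C9Y
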