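import Pool.Agent.Lib.MP_488b8a_co_X.StarA

/-! # Project C9, stage 2, module StA: the lemmas on stars for closed angles `w ≤ π` -/

set_option autoImplicit false

namespace Pool.Agent.C9

open Real Pool.Agent.C32 ComplexConjugate

private theorem exp_cis (t : ℝ) :
    Complex.exp ((t : ℂ) * Complex.I) = ⟨cos t, sin t⟩ := by
  apply Complex.ext
  · exact Complex.exp_ofReal_mul_I_re t
  · exact Complex.exp_ofReal_mul_I_im t

/-- PROOF. `(1 + kp)/2 e^{-iw/2} + (1 - kp)/2 e^{iw/2} = cos (w/2) - i kp sin (w/2) =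
-i (kp sin (w/2) + i cos (w/2))`, and `ph` is the argument of the last factor. -/
theorem Vf_eq' {w : ℝ} (h0 : 0 < w) (h1 : w ≤ π) :
    ∃ k : ℝ, 0 < k ∧ Vf w = k * Complex.exp (vf w * Complex.I) := by
  have hkp : 0 < kp := by
    unfold kp
    positivity
  have hs : 0 < sin (w / 2) := sin_pos_of_pos_of_lt_pi (by linarith) (by linarith [pi_pos])
  have hcs := sin_sq_add_cos_sq (w / 2)
  obtain ⟨z, hz⟩ : ∃ z : ℂ, z = ⟨kp * sin (w / 2), cos (w / 2)⟩ := ⟨_, rfl⟩
  have hre : z.re = kp * sin (w / 2) := by rw [hz]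
  have him : z.im = cos (w / 2) := by rw [hz]
  have hz0 : z ≠ 0 := by
    intro h
    rw [h, Complex.zero_re] at hre
    have := mul_pos hkp hs
    linarith
  have harg : Complex.arg z = ph kp (w / 2) := by
    rw [hz]
    rfl
  refine ⟨‖z‖, norm_pos_iff.2 hz0, ?_⟩
  have h3 : Complex.exp ((vf w : ℝ) * Complex.I) =
      ⟨sin (w / 2), -cos (w / 2)⟩ * Complex.exp ((Complex.arg z : ℝ) * Complex.I) := by
    have e1 : ((vf w : ℝ) : ℂ) * Complex.I = ((w / 2 - π / 2 : ℝ) : ℂ) * Complex.I +
        ((Complex.arg z : ℝ) : ℂ) * Complex.I := by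
      rw [harg]
      unfold vf
      push_cast
      ring
    rw [e1, Complex.exp_add, exp_cis (w / 2 - π / 2), cos_sub_pi_div_two, sin_sub_pi_div_two]
  have h4 : ((‖z‖ : ℝ) : ℂ) * Complex.exp ((vf w : ℝ) * Complex.I) =
      ⟨sin (w / 2), -cos (w / 2)⟩ * z := by
    rw [h3, mul_left_comm, Complex.norm_mul_exp_arg_mul_I]
  rw [h4]
  have h5 : w = 2 * (w / 2) := by ring
  unfold Vf
  apply Complex.ext
  · have h6 : (Complex.exp ((w : ℝ) * Complex.I)).re = 2 * cos (w / 2) ^ 2 - 1 := by
      rw [exp_cis]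
      show cos w = _
      conv_lhs => rw [h5]
      exact cos_two_mul _
    simp only [Complex.add_re, Complex.mul_re, Complex.ofReal_re, Complex.ofReal_im, hre, him, h6]
    linear_combination (-kp) * hcs
  · have h6 : (Complex.exp ((w : ℝ) * Complex.I)).im = 2 * sin (w / 2) * cos (w / 2) := by
      rw [exp_cis]
      show sin w = _
      conv_lhs => rw [h5]
      exact sin_two_mul _
    simp only [Complex.add_im, Complex.mul_im, Complex.ofReal_re, Complex.ofReal_im, hre, him, h6]
    ring

/-- PROOF. As `h_max`; equality: `ph_tan_lt`. -/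
theorem h_max' {w : ℝ} (h0 : 0 < w) (h1 : w ≤ π) :
    om * (w / 2) + ph kp (w / 2) ≤ om * (π - us) + ph kp (π - us) ∧
      (om * (π - us) + ph kp (π - us) ≤ om * (w / 2) + ph kp (w / 2) → w = 2 * (π - us)) := by
  have k1 := kp_lo
  have k2 := kp_hi
  have u1 := us_lo
  have u2 := us_hi
  have p1 := Real.pi_gt_d2
  have p2 := Real.pi_lt_d2
  have h3 : dph kp (π - us) = om := by
    unfold om dph
    rw [cos_pi_sub, sin_pi_sub, neg_sq]
  constructor
  · have h2 := ph_tan (c := kp) (z0 := π - us) (z := w / 2) (by linarith) (by linarith)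
      (by linarith) (by linarith) (by linarith) (by linarith)
    rw [h3] at h2
    linarith
  · intro h
    by_contra hne
    have h2 := ph_tan_lt (c := kp) (z0 := π - us) (z := w / 2) (by linarith) (by linarith)
      (by linarith) (by linarith) (by linarith) (by linarith)
      (fun e => hne (by linarith))
    rw [h3] at h2
    linarith

private theorem ph_one {z : ℝ} (hz : 0 ≤ z) (hz' : z ≤ π / 2) : ph 1 z = π / 2 - z := by
  have hp := pi_pos
  unfold ph
  have h1 : (⟨1 * sin z, cos z⟩ : ℂ) =
      Complex.cos ((π / 2 - z : ℝ) : ℂ) + Complex.sin ((π / 2 - z : ℝ) : ℂ) * Complex.I := by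
    rw [← Complex.ofReal_cos, ← Complex.ofReal_sin, Real.cos_pi_div_two_sub,
      Real.sin_pi_div_two_sub, one_mul]
    exact Complex.mk_eq_add_mul_I _ _
  rw [h1, Complex.arg_cos_add_sin_mul_I ⟨by linarith, by linarith⟩]

/-- `0 ≤ vf w ≤ 0.1803`. PROOF. `vf` is half of the area of an isosceles triangle. Upper bound:
`ph kp z + z ≤` value of the tangent line at a good point (`ph_tan` with `dph kp z₀ = 1`, or at a
rational `z₀` near `0.905` and two cases). Lower bound: `ph kp z ≥ ph 1 z = π/2 - z`
(`ph_mono_c`). -/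
theorem vf_bounds' {w : ℝ} (h0 : 0 < w) (h1 : w ≤ π) : 0 ≤ vf w ∧ vf w ≤ 0.181 := by
  have k1 := kp_lo
  have k2 := kp_hi
  have hk : 0 < kp := by linarith
  have hp := pi_pos
  constructor
  · have h2 := ph_mono_c hk (by linarith : kp ≤ 1) (by linarith : 0 ≤ w / 2)
      (by linarith : w / 2 ≤ π / 2)
    rw [ph_one (by linarith) (by linarith)] at h2
    unfold vf
    linarith
  · have hsk : 0 < √kp := sqrt_pos.2 hk
    have hsq : √kp ^ 2 = kp := sq_sqrt hk.le
    have hs1 : 0.8343 < √kp := by
      rw [Real.lt_sqrt (by norm_num)]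
      norm_num at k1 ⊢
      linarith
    have hs2 : √kp < 0.8344 := by
      rw [Real.sqrt_lt' (by norm_num)]
      norm_num at k2 ⊢
      linarith
    obtain ⟨y, hy⟩ : ∃ y : ℝ, y = 1 / √kp := ⟨_, rfl⟩
    have hy0 : 0 < y := by rw [hy]; positivity
    have hyk : y * √kp = 1 := by rw [hy]; field_simp
    have hy2 : y ^ 2 * kp = 1 := by
      rw [← hsq, ← mul_pow, hyk, one_pow]
    obtain ⟨z0, hz0⟩ : ∃ z0 : ℝ, z0 = arctan y := ⟨_, rfl⟩
    have hz1 : 0 < z0 := by rw [hz0]; exact arctan_pos.2 hy0
    have hz2 : z0 < π / 2 := by rw [hz0]; exact arctan_lt_pi_div_two y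
    have hcz : 0 < cos z0 := cos_pos_of_mem_Ioo ⟨by linarith, hz2⟩
    have hsz : 0 < sin z0 := sin_pos_of_pos_of_lt_pi hz1 (by linarith)
    have htan : sin z0 = y * cos z0 := by
      have h3 : tan z0 = y := by rw [hz0, tan_arctan]
      rw [tan_eq_sin_div_cos, div_eq_iff hcz.ne'] at h3
      exact h3
    have hcs := sin_sq_add_cos_sq z0
    have hd : dph kp z0 = 1 := by
      have h4 : cos z0 ^ 2 + kp ^ 2 * sin z0 ^ 2 = kp := by
        have h5 : kp * sin z0 ^ 2 = cos z0 ^ 2 := by
          rw [htan]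
          linear_combination (cos z0 ^ 2) * hy2
        have h6 : kp * (sin z0 ^ 2 + cos z0 ^ 2) = kp := by rw [hcs, mul_one]
        linear_combination h6 + (kp - 1) * h5
      unfold dph
      rw [h4]
      exact div_self hk.ne'
    have hph : ph kp z0 = z0 := by
      rw [ph_eq hk hz1 (by linarith)]
      have h7 : cos z0 / (kp * sin z0) = y := by
        rw [div_eq_iff (by positivity), htan]
        linear_combination (-cos z0) * hy2
      rw [h7, hz0]
    have h8 := ph_tan (c := kp) (z0 := z0) (z := w / 2) hk (by linarith) hz1 hz2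
      (by linarith) (by linarith)
    rw [hd, hph] at h8
    -- the value
    have h9 : z0 ≤ π / 4 + 0.0905 := by
      obtain ⟨u, hu⟩ : ∃ u : ℝ, u = (y - 1) / (y + 1) := ⟨_, rfl⟩
      have hy1 : 1 < y := by
        by_contra hc
        push Not at hc
        nlinarith
      have hyu : y < 1.1987 := by
        by_contra hc
        push Not at hc
        nlinarith
      have hu0 : 0 < u := by
        rw [hu]
        exact div_pos (by linarith) (by linarith)
      have hu1 : u ≤ 0.0905 := by
        rw [hu, div_le_iff₀ (by linarith)]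
        linarith
      have h10 : arctan 1 + arctan u = arctan y := by
        rw [arctan_add (by linarith)]
        congr 1
        rw [div_eq_iff (by linarith), hu]
        field_simp
        ring
      have h11 : arctan u < u := by
        have h12 := lt_tan (arctan_pos.2 hu0) (arctan_lt_pi_div_two u)
        rwa [tan_arctan] at h12
      rw [arctan_one] at h10
      linarith
    unfold vf
    linarith

end Pool.Agent.C9
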