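import Pool.Agent.Lib.MP_488b8a_co_Y.StW
import Pool.Agent.Lib.MP_488b8a_co_Y.EqG

/-! # Project C9, stage 2, module StR (copy of StarR): the inequality for a star with the equality
case, closed angles -/

set_option autoImplicit false

namespace Pool.Agent.C9

open Real Pool.Agent.C32 ComplexConjugate

private theorem starR_kp : 0 < kp := by
  unfold kp
  positivity

/-- angles which agree modulo `2π` and differ by less than `2π` are equal -/
private theorem starR_eq {a b : ℝ}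
    (h : Complex.exp ((a : ℝ) * Complex.I) = Complex.exp ((b : ℝ) * Complex.I))
    (h1 : a - b < 2 * π) (h2 : -(2 * π) < a - b) : a = b := by
  obtain ⟨n, hn⟩ := Complex.exp_eq_exp_iff_exists_int.1 h
  have h3 : a - b = n * (2 * π) := by
    have h4 := congrArg Complex.im hn
    simp only [Complex.mul_im, Complex.ofReal_re, Complex.I_im, mul_one, Complex.ofReal_im,
      Complex.I_re, mul_zero, add_zero, Complex.add_im, Complex.mul_re, Complex.intCast_re,
      Complex.intCast_im, zero_mul, sub_zero, Complex.re_ofNat, Complex.im_ofNat] at h4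
    linarith
  have hp := pi_pos
  have h5 : (n : ℝ) < 1 := by
    by_contra h6
    rw [not_lt] at h6
    have := mul_le_mul_of_nonneg_right h6 (by positivity : (0 : ℝ) ≤ 2 * π)
    linarith
  have h6 : (-1 : ℝ) < n := by
    by_contra h6
    rw [not_lt] at h6
    have := mul_le_mul_of_nonneg_right h6 (by positivity : (0 : ℝ) ≤ 2 * π)
    linarith
  have h7 : n < 1 := by exact_mod_cast h5
  have h8 : -1 < n := by exact_mod_cast h6
  have h9 : n = 0 := by omega
  rw [h9, Int.cast_zero, zero_mul] at h3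
  linarith

private theorem starR_per (t t' x : ℝ) (m : ℤ) :
    Zf (t + m * (2 * π)) t' x = Zf t t' x := by
  have h1 : Complex.exp (((t + m * (2 * π) : ℝ) : ℂ) * Complex.I) =
      Complex.exp ((t : ℂ) * Complex.I) := by
    rw [Complex.exp_eq_exp_iff_exists_int]
    refine ⟨m, ?_⟩
    push_cast
    ring
  have h2 : Complex.exp (((t + m * (2 * π) + t' : ℝ) : ℂ) * Complex.I) =
      Complex.exp (((t + t' : ℝ) : ℂ) * Complex.I) := by
    rw [Complex.exp_eq_exp_iff_exists_int]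
    refine ⟨m, ?_⟩
    push_cast
    ring
  unfold Zf
  rw [h1, h2]

private theorem starR_floor (y : ℝ) : ∃ m : ℤ, 0 ≤ y + m * π ∧ y + m * π < π := by
  refine ⟨-⌊y / π⌋, ?_, ?_⟩
  · have h1 := Int.floor_le (y / π)
    rw [le_div_iff₀ pi_pos] at h1
    push_cast
    linarith
  · have h1 := Int.lt_floor_add_one (y / π)
    rw [div_lt_iff₀ pi_pos] at h1
    push_cast
    linarith

private theorem starR_one {t t' x : ℝ} (h0 : 0 ≤ x) (h1 : x ≤ π / 2) (hx : kp ≤ cos x)
    (hZ : kp ^ 2 ≤ Complex.normSq (Zf t t' x)) :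
    ∃ m : ℤ, 0 ≤ (t + t') / 2 + m * π ∧ (t + t') / 2 + m * π < π ∧
      Complex.normSq (Pf ((t + t') / 2 + m * π) ((t - t') / 2 + m * π) x) =
        Complex.normSq (Zf t t' x) ∧
      Complex.arg (Zf t t' x) = (t + t') / 2 + m * π -
        Complex.arg (Pf ((t + t') / 2 + m * π) ((t - t') / 2 + m * π) x) := by
  obtain ⟨m, hm0, hm1⟩ := starR_floor ((t + t') / 2)
  refine ⟨m, hm0, hm1, ?_⟩
  obtain ⟨u, hu⟩ : ∃ u, u = (t + t') / 2 + m * π := ⟨_, rfl⟩
  obtain ⟨v, hv⟩ : ∃ v, v = (t - t') / 2 + m * π := ⟨_, rfl⟩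
  rw [← hu] at hm0 hm1 ⊢
  rw [← hv]
  have hZe : Zf t t' x = Complex.exp (u * Complex.I) * conj (Pf u v x) := by
    rw [← Zf_eq, ← starR_per t t' x m]
    congr 1
    · rw [hu, hv]; ring
    · rw [hu, hv]; ring
  have hne : ‖Complex.exp ((u : ℂ) * Complex.I)‖ = 1 := Complex.norm_exp_ofReal_mul_I u
  have hnorm : ‖Zf t t' x‖ = ‖Pf u v x‖ := by
    rw [hZe, norm_mul, hne, one_mul, Complex.norm_conj]
  have hsq : Complex.normSq (Pf u v x) = Complex.normSq (Zf t t' x) := by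
    rw [Complex.normSq_eq_norm_sq, Complex.normSq_eq_norm_sq, hnorm]
  refine ⟨hsq, ?_⟩
  have hkp := starR_kp
  have hP : 0 < Complex.normSq (Pf u v x) := by
    rw [hsq]
    exact lt_of_lt_of_le (by positivity) hZ
  have hP0 : Pf u v x ≠ 0 := Complex.normSq_pos.1 hP
  have hr : 0 < ‖Pf u v x‖ := norm_pos_iff.2 hP0
  -- the argument of `Pf` is in `[0, π]`
  have ha0 : 0 ≤ Complex.arg (Pf u v x) := by
    rw [Complex.arg_nonneg_iff]
    exact mul_nonneg (hkp.le.trans hx) (sin_nonneg_of_nonneg_of_le_pi hm0 hm1.le)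
  have ha1 : Complex.arg (Pf u v x) ≤ π := Complex.arg_le_pi _
  have hb : |Complex.arg (Zf t t' x)| < π / 2 :=
    Complex.abs_arg_lt_pi_div_two_iff.2 (Or.inl (re_Zf_pos h0 h1 hx hZ))
  rw [abs_lt] at hb
  have hpi := pi_pos
  refine starR_eq ?_ (by linarith) (by linarith)
  have e1 : ((‖Zf t t' x‖ : ℝ) : ℂ) * Complex.exp ((Complex.arg (Zf t t' x) : ℝ) * Complex.I) =
      Zf t t' x := Complex.norm_mul_exp_arg_mul_I _
  have e2 : ((‖Pf u v x‖ : ℝ) : ℂ) * Complex.exp ((Complex.arg (Pf u v x) : ℝ) * Complex.I) =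
      Pf u v x := Complex.norm_mul_exp_arg_mul_I _
  have e3 : conj (Pf u v x) = ((‖Pf u v x‖ : ℝ) : ℂ) *
      Complex.exp (-((Complex.arg (Pf u v x) : ℝ) * Complex.I)) := by
    conv_lhs => rw [← e2]
    rw [map_mul, Complex.conj_ofReal, ← Complex.exp_conj, map_mul, Complex.conj_ofReal,
      Complex.conj_I, mul_neg]
  have e4 : ((‖Pf u v x‖ : ℝ) : ℂ) * Complex.exp ((Complex.arg (Zf t t' x) : ℝ) * Complex.I) =
      ((‖Pf u v x‖ : ℝ) : ℂ) *
        Complex.exp (((u - Complex.arg (Pf u v x) : ℝ) : ℂ) * Complex.I) := by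
    have e5 : ((‖Pf u v x‖ : ℝ) : ℂ) *
        Complex.exp ((Complex.arg (Zf t t' x) : ℝ) * Complex.I) = Zf t t' x := by
      rw [← hnorm]
      exact e1
    rw [e5, hZe, e3, mul_left_comm, ← Complex.exp_add]
    congr 2
    push_cast
    ring
  exact mul_left_cancel₀ (by exact_mod_cast hr.ne') e4

/-- PROOF. (1) `Zf`, `Zf` have positive real part (`re_Zf_pos`), so their arguments are in
`(-π/2, π/2)`; with `Vf_eq`, `vf_bounds` and `0 < h < 2.03` the equation `hh` gives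
`h = arg Zf + arg Zf + vf w + vf w'` (both sides differ by a multiple of `2π` and by less than
`2π`). (2) There is an integer `m` such that `u = (t+t')/2 + mπ ∈ [0, π)`; with
`v = (t-t')/2 + mπ`, `Zf t t' x = Zf (u+v) (u-v) x = e^{iu} conj (Pf u v x)` (`Zf_eq`, period `2π`
in the first two arguments), and `arg (Zf t t' x) = u - arg (Pf u v x)` (difference of two numbers
of `[0, π]`, equal modulo `2π` to a number of `(-π/2, π/2)`). In the same way `u'`, `v'` for
`b`, `b'`. (3) `u + u' = -(w+w')/2 + π J`, `J` an integer, `0 ≤ u + u' < 2π`, so `J = 1` or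
`J = 2`, and `v + v' = (w'-w)/2 + π J` modulo `2π`. (4) `J = 2`: add `good_W` for both and
`h_max` for `w`, `w'`. (5) `J = 1`: `weird`. -/
theorem star_real' {t b t' b' w w' x h k : ℝ} (w0 : 0 < w) (w1 : w ≤ π)
    (w0' : 0 < w') (w1' : w' ≤ π) (h0 : 0 ≤ x) (h1 : x ≤ π / 2) (hx : kp ≤ cos x)
    (htb : t + b = -w ∨ t + b = 2 * π - w) (htb' : t' + b' = -w' ∨ t' + b' = 2 * π - w')
    (hZ : kp ^ 2 ≤ Complex.normSq (Zf t t' x)) (hZ' : kp ^ 2 ≤ Complex.normSq (Zf b b' x))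
    (hh0 : 0 < h) (hh1 : h < 2.03) (hk : 0 < k)
    (hh : Complex.exp (h * Complex.I) = k * (Zf t t' x * Zf b b' x * Vf w * Vf w')) :
    h ≤ π - 2 * ph kp (π / 3) - 9 / 16 * bt * sn ^ 4 +
      bt / 2 * ((1 - Complex.normSq (Zf t t' x)) ^ 2 + (1 - Complex.normSq (Zf b b' x)) ^ 2) ∧
    (π - 2 * ph kp (π / 3) - 9 / 16 * bt * sn ^ 4 +
      bt / 2 * ((1 - Complex.normSq (Zf t t' x)) ^ 2 + (1 - Complex.normSq (Zf b b' x)) ^ 2) ≤ h →
      x = arccos kp ∧ w = 2 * (π - us) ∧ w' = 2 * (π - us) ∧ cos t = cos us ∧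
        cos t' = cos us ∧ cos b = cos us ∧ cos b' = cos us) := by
  have hpi := pi_gt_three
  obtain ⟨m, hu0, hu1, hn, hA⟩ := starR_one h0 h1 hx hZ
  obtain ⟨m', hu0', hu1', hn', hB⟩ := starR_one h0 h1 hx hZ'
  obtain ⟨k₁, hk₁, hV⟩ := Vf_eq' w0 w1
  obtain ⟨k₂, hk₂, hV'⟩ := Vf_eq' w0' w1'
  have hvb := vf_bounds' w0 w1
  have hvb' := vf_bounds' w0' w1'
  have hb1 : |Complex.arg (Zf t t' x)| < π / 2 :=
    Complex.abs_arg_lt_pi_div_two_iff.2 (Or.inl (re_Zf_pos h0 h1 hx hZ))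
  have hb2 : |Complex.arg (Zf b b' x)| < π / 2 :=
    Complex.abs_arg_lt_pi_div_two_iff.2 (Or.inl (re_Zf_pos h0 h1 hx hZ'))
  rw [abs_lt] at hb1 hb2
  -- step (1)
  have hh2 : h = Complex.arg (Zf t t' x) + Complex.arg (Zf b b' x) + vf w + vf w' := by
    refine starR_eq ?_ (by linarith) (by linarith)
    have e1 : ((‖Zf t t' x‖ : ℝ) : ℂ) *
        Complex.exp ((Complex.arg (Zf t t' x) : ℝ) * Complex.I) = Zf t t' x :=
      Complex.norm_mul_exp_arg_mul_I _
    have e2 : ((‖Zf b b' x‖ : ℝ) : ℂ) *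
        Complex.exp ((Complex.arg (Zf b b' x) : ℝ) * Complex.I) = Zf b b' x :=
      Complex.norm_mul_exp_arg_mul_I _
    have e3 : Complex.exp (h * Complex.I) =
        ((k * ‖Zf t t' x‖ * ‖Zf b b' x‖ * k₁ * k₂ : ℝ) : ℂ) *
        Complex.exp (((Complex.arg (Zf t t' x) + Complex.arg (Zf b b' x) + vf w + vf w' : ℝ) : ℂ) *
          Complex.I) := by
      have e4 : (((Complex.arg (Zf t t' x) + Complex.arg (Zf b b' x) + vf w + vf w' : ℝ) : ℂ) *
          Complex.I) = (Complex.arg (Zf t t' x) : ℝ) * Complex.I +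
          (Complex.arg (Zf b b' x) : ℝ) * Complex.I + (vf w : ℝ) * Complex.I +
          (vf w' : ℝ) * Complex.I := by
        push_cast
        ring
      rw [e4, Complex.exp_add, Complex.exp_add, Complex.exp_add, hh, hV, hV']
      nth_rewrite 1 [← e1]
      nth_rewrite 1 [← e2]
      push_cast
      ring
    have hK : 0 ≤ k * ‖Zf t t' x‖ * ‖Zf b b' x‖ * k₁ * k₂ := by positivity
    have e5 : k * ‖Zf t t' x‖ * ‖Zf b b' x‖ * k₁ * k₂ = 1 := by
      have e6 := congrArg norm e3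
      rw [norm_mul, Complex.norm_exp_ofReal_mul_I, Complex.norm_exp_ofReal_mul_I,
        Complex.norm_real, Real.norm_of_nonneg hK, mul_one] at e6
      exact e6.symm
    rw [e3, e5, Complex.ofReal_one, one_mul]
  rw [hA, hB] at hh2
  rw [← hn, ← hn']
  -- step (3)
  obtain ⟨j₁, hj₁0, hj₁1, hj₁⟩ : ∃ j : ℤ, 0 ≤ j ∧ j ≤ 1 ∧ t + b = -w + j * (2 * π) := by
    rcases htb with h | h
    · exact ⟨0, le_rfl, zero_le_one, by rw [h]; simp⟩
    · exact ⟨1, zero_le_one, le_rfl, by rw [h]; push_cast; ring⟩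
  obtain ⟨j₂, hj₂0, hj₂1, hj₂⟩ : ∃ j : ℤ, 0 ≤ j ∧ j ≤ 1 ∧ t' + b' = -w' + j * (2 * π) := by
    rcases htb' with h | h
    · exact ⟨0, le_rfl, zero_le_one, by rw [h]; simp⟩
    · exact ⟨1, zero_le_one, le_rfl, by rw [h]; push_cast; ring⟩
  obtain ⟨J, hJ⟩ : ∃ J : ℤ, J = j₁ + j₂ + m + m' := ⟨_, rfl⟩
  have hJr : (J : ℝ) = j₁ + j₂ + m + m' := by rw [hJ]; push_cast; ring
  obtain ⟨u, hu⟩ : ∃ u, u = (t + t') / 2 + m * π := ⟨_, rfl⟩
  obtain ⟨v, hv⟩ : ∃ v, v = (t - t') / 2 + m * π := ⟨_, rfl⟩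
  obtain ⟨u', hu'⟩ : ∃ u, u = (b + b') / 2 + m' * π := ⟨_, rfl⟩
  obtain ⟨v', hv'⟩ : ∃ v, v = (b - b') / 2 + m' * π := ⟨_, rfl⟩
  rw [← hu] at hu0 hu1 hh2 hn ⊢
  rw [← hu'] at hu0' hu1' hh2 hn' ⊢
  rw [← hv] at hh2 hn ⊢
  rw [← hv'] at hh2 hn' ⊢
  have hsum : u + u' = J * π - (w + w') / 2 := by
    rw [hu, hu', hJr]
    linear_combination hj₁ / 2 + hj₂ / 2
  have hdif : v + v' = (w' - w) / 2 + J * π - j₂ * (2 * π) := by
    rw [hv, hv', hJr]
    linear_combination hj₁ / 2 - hj₂ / 2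
  have hJ1 : (J : ℝ) < 3 := by
    by_contra h6
    rw [not_lt] at h6
    have := mul_le_mul_of_nonneg_right h6 pi_pos.le
    linarith
  have hJ0 : (0 : ℝ) < J := by
    by_contra h6
    rw [not_lt] at h6
    have := mul_le_mul_of_nonneg_right h6 pi_pos.le
    linarith
  have hJ2 : J = 1 ∨ J = 2 := by
    have h7 : J < 3 := by exact_mod_cast hJ1
    have h8 : 0 < J := by exact_mod_cast hJ0
    omega
  rw [← hn] at hZ
  rw [← hn'] at hZ'
  rcases hJ2 with hJ2 | hJ2
  · -- abnormal case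
    rw [hJ2] at hsum hdif
    have hcv : cos v' = -cos (v - (w' - w) / 2) := by
      have h9 : v' = π - (v - (w' - w) / 2) - j₂ * (2 * π) := by
        push_cast at hdif
        linarith
      rw [h9, cos_sub_int_mul_two_pi, cos_pi_sub]
    have h10 := weird' hu0 hu0' w0 w1 w0' w1' (by rw [hsum]; push_cast; ring) hcv h0 h1 hx hZ hZ'
    rw [hh2]
    exact ⟨h10.le, fun h11 => absurd h10 (not_lt.2 h11)⟩
  · -- normal case
    rw [hJ2] at hsum
    push_cast at hsum
    have g1 := good_W hu0 hu1.le h0 h1 hx hZ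
    have g2 := good_W hu0' hu1'.le h0 h1 hx hZ'
    obtain ⟨g3, g3'⟩ := h_max' w0 w1
    obtain ⟨g4, g4'⟩ := h_max' w0' w1'
    unfold vf at hh2
    have g5 : om * (u + u') = om * (2 * π - (w + w') / 2) := by rw [hsum]
    rw [hh2]
    constructor
    · linarith only [g1, g2, g3, g4, g5, hsum]
    · intro h11
      obtain ⟨a1, a2, a3⟩ := good_W_eq hu0 hu1.le h0 h1 hx hZ
        (by linarith only [g1, g2, g3, g4, g5, hsum, h11])
      obtain ⟨b1, b2, b3⟩ := good_W_eq hu0' hu1'.le h0 h1 hx hZ'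
        (by linarith only [g1, g2, g3, g4, g5, hsum, h11])
      have c1 := g3' (by linarith only [g1, g2, g3, g4, g5, hsum, h11])
      have c2 := g4' (by linarith only [g1, g2, g3, g4, g5, hsum, h11])
      have sv : sin v = 0 := by
        have := sin_sq_add_cos_sq v
        rw [a3] at this
        exact pow_eq_zero_iff (two_ne_zero) |>.1 (by linarith only [this])
      have sv' : sin v' = 0 := by
        have := sin_sq_add_cos_sq v'
        rw [b3] at this
        exact pow_eq_zero_iff (two_ne_zero) |>.1 (by linarith only [this])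
      have et : t = u + v - m * (2 * π) := by rw [hu, hv]; ring
      have et' : t' = u - v := by rw [hu, hv]; ring
      have eb : b = u' + v' - m' * (2 * π) := by rw [hu', hv']; ring
      have eb' : b' = u' - v' := by rw [hu', hv']; ring
      refine ⟨a2, c1, c2, ?_, ?_, ?_, ?_⟩
      · rw [et, cos_sub_int_mul_two_pi, cos_add, a3, sv, a1]
        ring
      · rw [et', cos_sub, a3, sv, a1]
        ring
      · rw [eb, cos_sub_int_mul_two_pi, cos_add, b3, sv', b1]
        ring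
      · rw [eb', cos_sub, b3, sv', b1]
        ring

end Pool.Agent.C9
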