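import Pool.Agent.Lib.MP_488b8a_co_Y.TFy
import Pool.Agent.Lib.MP_488b8a_co_N.Cert2

/-! # Project C9, stage 2, module T2: the type `4^4 5^4 6` -/

set_option autoImplicit false

namespace Pool.Agent.C9Y

open Real Pool.Agent.C32 Pool.Agent.C9

private theorem fT2a {p : Fin 9 → E3} {κ : ℝ} (hκ : kq ≤ κ) (hG : Gen p) (hC : Covers p κ)
    (i j k : Fin 9) (h : Facet p (i, j, k)) :
    119 / 100 * ang (p i) (p j) (p k) + 73 / 100 * ang (p j) (p k) (p i) +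
      9 / 100 * ang (p k) (p i) (p j)
      + 245 / 100 * yy (p i) (p j) - 199 / 100 * yy (p i) (p j) ^ 2
      + 2 / 100 * yy (p k) (p i) + 129 / 100 * yy (p k) (p i) ^ 2 ≤ 374156 / 100000 := by
  obtain ⟨c, a, b, d, hc, hc1, ha, hb, hd, hs, g1, g2, g3, e1, e2, e3⟩ := facet_form hκ hG hC h
  have h1 := T2a hc hc1 ha hb hd hs g1 g3
  rw [e1, e2, e3]
  linarith

private theorem fT2b {p : Fin 9 → E3} {κ : ℝ} (hκ : kq ≤ κ) (hG : Gen p) (hC : Covers p κ)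
    (i j k : Fin 9) (h : Facet p (i, j, k)) :
    119 / 100 * ang (p i) (p j) (p k) + 119 / 100 * ang (p j) (p k) (p i) +
      9 / 100 * ang (p k) (p i) (p j)
      + 289 / 100 * yy (p i) (p j) - 280 / 100 * yy (p i) (p j) ^ 2
      - 2 / 100 * yy (p j) (p k) - 129 / 100 * yy (p j) (p k) ^ 2
      - 2 / 100 * yy (p k) (p i) - 129 / 100 * yy (p k) (p i) ^ 2 ≤ 375926 / 100000 := by
  obtain ⟨c, a, b, d, hc, hc1, ha, hb, hd, hs, g1, g2, g3, e1, e2, e3⟩ := facet_form hκ hG hC h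
  have h1 := T2b hc hc1 ha hb hd hs g1 g2 g3
  rw [e1, e2, e3]
  linarith

private theorem fT2c {p : Fin 9 → E3} {κ : ℝ} (hκ : kq ≤ κ) (hG : Gen p) (hC : Covers p κ)
    (i j k : Fin 9) (h : Facet p (i, j, k)) :
    119 / 100 * ang (p i) (p j) (p k) + 119 / 100 * ang (p j) (p k) (p i) +
      114 / 100 * ang (p k) (p i) (p j)
      - 289 / 100 * yy (p i) (p j) + 280 / 100 * yy (p i) (p j) ^ 2
      - 55 / 100 * yy (p j) (p k) + 3 / 100 * yy (p j) (p k) ^ 2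
      - 55 / 100 * yy (p k) (p i) + 3 / 100 * yy (p k) (p i) ^ 2 ≤ 378124 / 100000 := by
  obtain ⟨c, a, b, d, hc, hc1, ha, hb, hd, hs, g1, g2, g3, e1, e2, e3⟩ := facet_form hκ hG hC h
  have h1 := T2c hc hc1 ha hb hd hs g1 g2 g3
  rw [e1, e2, e3]
  linarith

private theorem fT2d {p : Fin 9 → E3} {κ : ℝ} (hκ : kq ≤ κ) (hG : Gen p) (hC : Covers p κ)
    (i j k : Fin 9) (h : Facet p (i, j, k)) :
    119 / 100 * ang (p i) (p j) (p k) + 114 / 100 * ang (p j) (p k) (p i) +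
      73 / 100 * ang (p k) (p i) (p j)
      + 55 / 100 * yy (p i) (p j) - 3 / 100 * yy (p i) (p j) ^ 2
      - 58 / 100 * yy (p j) (p k) ^ 2
      - 245 / 100 * yy (p k) (p i) + 199 / 100 * yy (p k) (p i) ^ 2 ≤ 374314 / 100000 := by
  obtain ⟨c, a, b, d, hc, hc1, ha, hb, hd, hs, g1, g2, g3, e1, e2, e3⟩ := facet_form hκ hG hC h
  have h1 := T2d hc hc1 ha hb hd hs g1 g2 g3
  rw [e1, e2, e3]
  linarith

private theorem fT2e {p : Fin 9 → E3} {κ : ℝ} (hκ : kq ≤ κ) (hG : Gen p) (hC : Covers p κ)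
    (i j k : Fin 9) (h : Facet p (i, j, k)) :
    114 / 100 * ang (p i) (p j) (p k) + 114 / 100 * ang (p j) (p k) (p i) +
      73 / 100 * ang (p k) (p i) (p j)
      + 58 / 100 * yy (p j) (p k) ^ 2
      + 58 / 100 * yy (p k) (p i) ^ 2 ≤ 442954 / 100000 := by
  obtain ⟨c, a, b, d, hc, hc1, ha, hb, hd, hs, g1, g2, g3, e1, e2, e3⟩ := facet_form hκ hG hC h
  have h1 := T2e hc hc1 ha hb hd hs g2 g3
  rw [e1, e2, e3]
  linarith

theorem t2_false {p : Fin 9 → E3} {κ : ℝ} (hκ : kq ≤ κ) (hG : Gen p) (hC : Covers p κ)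
    (hF : ∀ i j k, Facet p (i, j, k) ↔ Has L2 i j k) : False := by
  have hk0 : 0 < κ := by linarith [kq_lo]
  have hL : (L2.flatMap fun t => [(t.1, t.2.1, t.2.2), (t.2.1, t.2.2, t.1),
      (t.2.2, t.1, t.2.1), (t.2.1, t.1, t.2.2), (t.1, t.2.2, t.2.1),
      (t.2.2, t.2.1, t.1)]).Nodup := by
    decide
  obtain ⟨P, hP, e0, e1, e2, e3, e4, e5, e6, e7, e8⟩ : ∃ P : Fin 9 → ℝ, (∀ i, 0 ≤ P i) ∧
      P 0 = 73 / 100 ∧ P 1 = 119 / 100 ∧ P 2 = 119 / 100 ∧ P 3 = 73 / 100 ∧ P 4 = 119 / 100 ∧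
      P 5 = 119 / 100 ∧ P 6 = 9 / 100 ∧ P 7 = 114 / 100 ∧ P 8 = 114 / 100 := by
    refine ⟨![73 / 100, 119 / 100, 119 / 100, 73 / 100, 119 / 100,
      119 / 100, 9 / 100, 114 / 100, 114 / 100],
      ?_, rfl, rfl, rfl, rfl, rfl, rfl, rfl, rfl, rfl⟩
    intro i
    fin_cases i <;> norm_num
  have h0 := price_sum hk0 hG hC hF hL P hP
  have hS : ∑ i, P i = P 0 + P 1 + P 2 + P 3 + P 4 + P 5 + P 6 + P 7 + P 8 := by
    rw [Fin.sum_univ_castSucc, Fin.sum_univ_eight]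
    rfl
  rw [hS] at h0
  simp only [L2, List.map_cons, List.map_nil, List.sum_cons, List.sum_nil, e0, e1, e2, e3, e4,
    e5, e6, e7, e8] at h0
  have f0 := fT2a hκ hG hC 1 0 6 ((hF _ _ _).2 (by decide))
  rw [ang_symm (p 1) (p 0) (p 6), ang_symm (p 0) (p 6) (p 1), ang_symm (p 6) (p 1) (p 0),
    yy_comm (p 1) (p 0), yy_comm (p 6) (p 1)] at f0
  have f1 := fT2b hκ hG hC 1 2 6 ((hF _ _ _).2 (by decide))
  rw [yy_comm (p 6) (p 1)] at f1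
  have f2 := fT2a hκ hG hC 2 3 6 ((hF _ _ _).2 (by decide))
  rw [yy_comm (p 6) (p 2)] at f2
  have f3 := fT2a hκ hG hC 4 3 6 ((hF _ _ _).2 (by decide))
  rw [ang_symm (p 4) (p 3) (p 6), ang_symm (p 3) (p 6) (p 4), ang_symm (p 6) (p 4) (p 3),
    yy_comm (p 4) (p 3), yy_comm (p 6) (p 4)] at f3
  have f4 := fT2b hκ hG hC 4 5 6 ((hF _ _ _).2 (by decide))
  rw [yy_comm (p 6) (p 4)] at f4
  have f5 := fT2a hκ hG hC 5 0 6 ((hF _ _ _).2 (by decide))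
  rw [yy_comm (p 5) (p 0), yy_comm (p 6) (p 5)] at f5
  have f6 := fT2d hκ hG hC 1 7 0 ((hF _ _ _).2 (by decide))
  rw [yy_comm (p 7) (p 0)] at f6
  have f7 := fT2c hκ hG hC 1 2 7 ((hF _ _ _).2 (by decide))
  rw [yy_comm (p 7) (p 1)] at f7
  have f8 := fT2d hκ hG hC 2 7 3 ((hF _ _ _).2 (by decide))
  rw [ang_symm (p 2) (p 7) (p 3), ang_symm (p 7) (p 3) (p 2), ang_symm (p 3) (p 2) (p 7),
    yy_comm (p 7) (p 3), yy_comm (p 3) (p 2)] at f8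
  have f9 := fT2d hκ hG hC 4 8 3 ((hF _ _ _).2 (by decide))
  rw [yy_comm (p 8) (p 3)] at f9
  have f10 := fT2c hκ hG hC 4 5 8 ((hF _ _ _).2 (by decide))
  rw [yy_comm (p 8) (p 4)] at f10
  have f11 := fT2d hκ hG hC 5 8 0 ((hF _ _ _).2 (by decide))
  rw [ang_symm (p 5) (p 8) (p 0), ang_symm (p 8) (p 0) (p 5), ang_symm (p 0) (p 5) (p 8),
    yy_comm (p 8) (p 0)] at f11
  have f12 := fT2e hκ hG hC 7 8 0 ((hF _ _ _).2 (by decide))
  rw [yy_comm (p 8) (p 0)] at f12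
  have f13 := fT2e hκ hG hC 7 8 3 ((hF _ _ _).2 (by decide))
  rw [yy_comm (p 8) (p 3)] at f13
  have hp := Real.pi_gt_d6
  linarith

end Pool.Agent.C9Y
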