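import Pool.Agent.Lib.MP_488b8a_co_Y.TFy
import Pool.Agent.Lib.MP_488b8a_co_N.Cert45

/-! # Project C9, stage 2, module T5: the type `4^7 7^2` -/

set_option autoImplicit false

namespace Pool.Agent.C9Y

open Real Pool.Agent.C32 Pool.Agent.C9

private theorem fT5a {p : Fin 9 → E3} {κ : ℝ} (hκ : kq ≤ κ) (hG : Gen p) (hC : Covers p κ)
    (i j k : Fin 9) (h : Facet p (i, j, k)) :
    100 / 100 * ang (p i) (p j) (p k) + 100 / 100 * ang (p j) (p k) (p i) +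
      30 / 100 * ang (p k) (p i) (p j) ≤ 334148 / 100000 := by
  obtain ⟨c, a, b, d, hc, hc1, ha, hb, hd, hs, g1, g2, g3, e1, e2, e3⟩ := facet_form hκ hG hC h
  have h1 := T5a hc hc1 ha hb hd hs
  rw [e1, e2, e3]
  linarith

theorem t5_false {p : Fin 9 → E3} {κ : ℝ} (hκ : kq ≤ κ) (hG : Gen p) (hC : Covers p κ)
    (hF : ∀ i j k, Facet p (i, j, k) ↔ Has L5 i j k) : False := by
  have hk0 : 0 < κ := by linarith [kq_lo]
  have hL : (L5.flatMap fun t => [(t.1, t.2.1, t.2.2), (t.2.1, t.2.2, t.1),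
      (t.2.2, t.1, t.2.1), (t.2.1, t.1, t.2.2), (t.1, t.2.2, t.2.1),
      (t.2.2, t.2.1, t.1)]).Nodup := by
    decide
  obtain ⟨P, hP, e0, e1, e2, e3, e4, e5, e6, e7, e8⟩ : ∃ P : Fin 9 → ℝ, (∀ i, 0 ≤ P i) ∧
      P 0 = 100 / 100 ∧ P 1 = 100 / 100 ∧ P 2 = 100 / 100 ∧ P 3 = 100 / 100 ∧ P 4 = 100 / 100 ∧
      P 5 = 100 / 100 ∧ P 6 = 100 / 100 ∧ P 7 = 30 / 100 ∧ P 8 = 30 / 100 := by
    refine ⟨![100 / 100, 100 / 100, 100 / 100, 100 / 100, 100 / 100,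
      100 / 100, 100 / 100, 30 / 100, 30 / 100],
      ?_, rfl, rfl, rfl, rfl, rfl, rfl, rfl, rfl, rfl⟩
    intro i
    fin_cases i <;> norm_num
  have h0 := price_sum hk0 hG hC hF hL P hP
  have hS : ∑ i, P i = P 0 + P 1 + P 2 + P 3 + P 4 + P 5 + P 6 + P 7 + P 8 := by
    rw [Fin.sum_univ_castSucc, Fin.sum_univ_eight]
    rfl
  rw [hS] at h0
  simp only [L5, List.map_cons, List.map_nil, List.sum_cons, List.sum_nil, e0, e1, e2, e3, e4,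
    e5, e6, e7, e8] at h0
  have f0 := fT5a hκ hG hC 0 1 7 ((hF _ _ _).2 (by decide))
  have f1 := fT5a hκ hG hC 1 2 7 ((hF _ _ _).2 (by decide))
  have f2 := fT5a hκ hG hC 2 3 7 ((hF _ _ _).2 (by decide))
  have f3 := fT5a hκ hG hC 3 4 7 ((hF _ _ _).2 (by decide))
  have f4 := fT5a hκ hG hC 4 5 7 ((hF _ _ _).2 (by decide))
  have f5 := fT5a hκ hG hC 5 6 7 ((hF _ _ _).2 (by decide))
  have f6 := fT5a hκ hG hC 6 0 7 ((hF _ _ _).2 (by decide))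
  have f7 := fT5a hκ hG hC 0 1 8 ((hF _ _ _).2 (by decide))
  have f8 := fT5a hκ hG hC 1 2 8 ((hF _ _ _).2 (by decide))
  have f9 := fT5a hκ hG hC 2 3 8 ((hF _ _ _).2 (by decide))
  have f10 := fT5a hκ hG hC 3 4 8 ((hF _ _ _).2 (by decide))
  have f11 := fT5a hκ hG hC 4 5 8 ((hF _ _ _).2 (by decide))
  have f12 := fT5a hκ hG hC 5 6 8 ((hF _ _ _).2 (by decide))
  have f13 := fT5a hκ hG hC 6 0 8 ((hF _ _ _).2 (by decide))
  have hp := Real.pi_gt_d6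
  linarith

end Pool.Agent.C9Y
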