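import Pool.Agent.Lib.MP_488b8a_co_X.Cls
import Pool.Agent.Lib.MP_488b8a_co_Y.Del3y
import Pool.Agent.Lib.MP_488b8a_co_Y.T2y
import Pool.Agent.Lib.MP_488b8a_co_Y.T3y
import Pool.Agent.Lib.MP_488b8a_co_Y.T4y
import Pool.Agent.Lib.MP_488b8a_co_Y.T5y

/-! # Project C9, stage 2, module ThmA: a generic covering with cosine at least `0.696` is of type
`4^3 5^6` -/

set_option autoImplicit false

namespace Pool.Agent.C9Y

open Real Pool.Agent.C32 Pool.Agent.C9

theorem facet_comp {p : Fin 9 → E3} (σ : Equiv.Perm (Fin 9)) (i j k : Fin 9) :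
    Facet (p ∘ σ) (i, j, k) ↔ Facet p (σ i, σ j, σ k) := by
  unfold Facet
  refine and_congr Iff.rfl (exists_congr fun N => and_congr Iff.rfl (and_congr Iff.rfl
    (and_congr Iff.rfl ⟨fun h l h1 h2 h3 => ?_, fun h l h1 h2 h3 => ?_⟩)))
  · have := h (σ.symm l) (fun e => h1 (σ.symm_apply_eq.1 e)) (fun e => h2 (σ.symm_apply_eq.1 e))
      (fun e => h3 (σ.symm_apply_eq.1 e))
    simpa using this
  · exact h (σ l) (fun e => h1 (σ.injective e)) (fun e => h2 (σ.injective e))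
      (fun e => h3 (σ.injective e))

theorem gen_comp {p : Fin 9 → E3} (hG : Gen p) (σ : Equiv.Perm (Fin 9)) : Gen (p ∘ σ) := by
  refine ⟨fun i => hG.1 _, hG.2.1.comp σ.injective, fun N i j k l h1 h2 h3 h4 h5 h6 => ?_⟩
  exact hG.2.2 N (σ i) (σ j) (σ k) (σ l) (fun e => h1 (σ.injective e))
    (fun e => h2 (σ.injective e)) (fun e => h3 (σ.injective e)) (fun e => h4 (σ.injective e))
    (fun e => h5 (σ.injective e)) (fun e => h6 (σ.injective e))

theorem covers_comp {p : Fin 9 → E3} {κ : ℝ} (hC : Covers p κ) (σ : Equiv.Perm (Fin 9)) :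
    Covers (p ∘ σ) κ := by
  intro x hx
  obtain ⟨l, hl⟩ := hC x hx
  refine ⟨σ.symm l, ?_⟩
  simpa using hl

/-- the type of a generic covering with cosine at least `0.696` -/
theorem type_eq {p : Fin 9 → E3} {κ : ℝ} (hκ : kq ≤ κ) (hG : Gen p) (hC : Covers p κ) :
    ∃ σ : Equiv.Perm (Fin 9), ∀ i j k, Facet (p ∘ σ) (i, j, k) ↔ Has L1 i j k := by
  have ht := tri_facets hκ hG hC
  have key : ∀ L, IsoTo (fun i j k => Facet p (i, j, k)) L →
      ∃ σ : Equiv.Perm (Fin 9), ∀ i j k, Facet (p ∘ σ) (i, j, k) ↔ Has L i j k := by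
    rintro L ⟨σ, hσ⟩
    exact ⟨σ, fun i j k => (facet_comp σ i j k).trans (hσ i j k)⟩
  rcases classify ht (fun i a b c h1 h2 h3 => del3_false hκ hG hC h1 h2 h3) with
    h | h | h | h | h
  · exact key _ h
  · obtain ⟨σ, hσ⟩ := key _ h
    exact (t2_false hκ (gen_comp hG σ) (covers_comp hC σ) hσ).elim
  · obtain ⟨σ, hσ⟩ := key _ h
    exact (t3_false hκ (gen_comp hG σ) (covers_comp hC σ) hσ).elim
  · obtain ⟨σ, hσ⟩ := key _ h
    exact (t4_false hκ (gen_comp hG σ) (covers_comp hC σ) hσ).elim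
  · obtain ⟨σ, hσ⟩ := key _ h
    exact (t5_false hκ (gen_comp hG σ) (covers_comp hC σ) hσ).elim

end Pool.Agent.C9Y
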